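import Mathlib
import Pool.Agent.Helper5.ProjTensor
import Pool.Agent.Q19.FreS.Stmt

/-!
Fréchet spaces: the completed projective tensor product and quotients.
-/

set_option autoImplicit false

namespace Pool.Agent.Q19.Fre

open Pool.Agent.Helper5 Filter Topology
open Pool.Agent.Q19.FreS (IsFre)

universe u v w

section Semi

variable {X : Type u} [AddCommGroup X] [Module ℂ X] [TopologicalSpace X] [PolynormableSpace ℂ X]

/-- comparison of seminorms from comparison of unit balls -/
lemma semi_le {p s : Seminorm ℂ X} (h : ∀ x, s x < 1 → p x < 1) (x : X) : p x ≤ s x := by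
  apply le_of_forall_gt_imp_ge_of_dense
  intro t ht
  have ht0 : 0 < t := (apply_nonneg s x).trans_lt ht
  have h1 : s ((t : ℂ)⁻¹ • x) < 1 := by
    rw [map_smul_eq_mul, norm_inv, Complex.norm_real, Real.norm_of_nonneg ht0.le,
      inv_mul_lt_iff₀ ht0, mul_one]
    exact ht
  have h2 := h _ h1
  rw [map_smul_eq_mul, norm_inv, Complex.norm_real, Real.norm_of_nonneg ht0.le,
    inv_mul_lt_iff₀ ht0, mul_one] at h2
  exact h2.le

lemma sum_semi {ι : Type v} (t : Finset ι) (s : ι → Seminorm ℂ X) (x : X) :
    (∑ i ∈ t, s i) x = ∑ i ∈ t, s i x := by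
  classical
  induction t using Finset.induction_on with
  | empty => simp
  | insert a t ha ih => rw [Finset.sum_insert ha, Finset.sum_insert ha, Seminorm.add_apply, ih]

/-- a cofinal sequence of continuous seminorms -/
lemma exists_seq [FirstCountableTopology X] : ∃ P : ℕ → Seminorm ℂ X, (∀ n, Continuous (P n)) ∧
    Monotone P ∧ ∀ p : Seminorm ℂ X, Continuous p → ∃ n, ∀ x, p x ≤ P n x := by
  obtain ⟨U, hU⟩ := (𝓝 (0 : X)).exists_antitone_basis
  have h1 : ∀ n, ∃ s : Seminorm ℂ X, Continuous s ∧ ∀ x, s x < 1 → x ∈ U n := fun n =>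
    exists_seminorm_of_mem_nhds (hU.1.mem_of_mem trivial)
  choose s hs hsU using h1
  refine ⟨fun n => ∑ i ∈ Finset.range (n + 1), s i, fun n => ?_, ?_, ?_⟩
  · have : ((∑ i ∈ Finset.range (n + 1), s i : Seminorm ℂ X) : X → ℝ) =
        fun x => ∑ i ∈ Finset.range (n + 1), s i x := by
      funext x
      exact sum_semi _ _ _
    rw [this]
    exact continuous_finsetSum _ fun i _ => hs i
  · intro m n hmn x
    simp only [sum_semi]
    exact Finset.sum_le_sum_of_subset_of_nonneg
      (Finset.range_mono (Nat.add_le_add_right hmn 1)) fun i _ _ => apply_nonneg _ _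
  · intro p hp
    have h2 : {x : X | p x < 1} ∈ 𝓝 (0 : X) := by
      have : {x : X | p x < 1} = p ⁻¹' Set.Iio 1 := rfl
      rw [this]
      exact hp.continuousAt.preimage_mem_nhds (by rw [map_zero]; exact Iio_mem_nhds one_pos)
    obtain ⟨n, _, hn⟩ := hU.1.mem_iff.1 h2
    refine ⟨n, fun x => ?_⟩
    refine (semi_le (s := s n) (fun y hy => hn (hsU n y hy)) x).trans ?_
    simp only [sum_semi]
    exact Finset.single_le_sum (f := fun i => s i x) (fun i _ => apply_nonneg _ _)
      (Finset.self_mem_range_succ n)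

end Semi

lemma firstCountable_of_nhds_zero {X : Type u} [AddCommGroup X] [TopologicalSpace X]
    [IsTopologicalAddGroup X] (h : (𝓝 (0 : X)).IsCountablyGenerated) :
    FirstCountableTopology X := by
  refine ⟨fun x => ?_⟩
  rw [← map_add_left_nhds_zero x]
  infer_instance

section PTF

variable {X : Type u} {Y : Type v} [AddCommGroup X] [Module ℂ X] [UniformSpace X]
  [AddCommGroup Y] [Module ℂ Y] [UniformSpace Y] [IsFre X] [IsFre Y]

lemma ptLift_self : (fun z : PT X Y => ptLift (pt_isContBilin (X := X) (Y := Y)) z) = fun z => z :=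
  pt_ext (isContLin_clm _) ⟨fun _ _ => rfl, fun _ _ => rfl, continuous_id⟩
    (fun x y => ptLift_pt _ x y)

instance : IsFre (PT X Y) where
  firstCountable := by
    obtain ⟨P, hP, hPm, hPc⟩ := exists_seq (X := X)
    obtain ⟨Q, hQ, hQm, hQc⟩ := exists_seq (X := Y)
    apply firstCountable_of_nhds_zero
    have hb : (𝓝 (0 : PT X Y)).HasBasis (fun _ : ℕ => True)
        (fun n => {z | ptSemi (P n) (Q n) (hP n) (hQ n) z < 1}) := by
      refine ⟨fun U => ?_⟩
      constructor
      · intro hU
        obtain ⟨r, hr, hrU⟩ := exists_seminorm_of_mem_nhds hU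
        obtain ⟨p, q, hp, hq, hpq⟩ := (pt_isContBilin (X := X) (Y := Y)).exists_bound r hr
        obtain ⟨n1, hn1⟩ := hPc p hp
        obtain ⟨n2, hn2⟩ := hQc q hq
        refine ⟨max n1 n2, trivial, fun z hz => hrU z ?_⟩
        have h1 := ptLift_bound (pt_isContBilin (X := X) (Y := Y)) r hr
          (hP (max n1 n2)) (hQ (max n1 n2)) (c := 1) zero_le_one (fun x y => by
            rw [one_mul]
            refine (hpq x y).trans (mul_le_mul ?_ ?_ (apply_nonneg _ _) (apply_nonneg _ _))
            · exact (hn1 x).trans (hPm (le_max_left n1 n2) x)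
            · exact (hn2 y).trans (hQm (le_max_right n1 n2) y)) z
        rw [congrFun ptLift_self z, one_mul] at h1
        exact h1.trans_lt hz
      · rintro ⟨n, _, hn⟩
        refine mem_of_superset ?_ hn
        have : {z : PT X Y | ptSemi (P n) (Q n) (hP n) (hQ n) z < 1} =
            (ptSemi (P n) (Q n) (hP n) (hQ n)) ⁻¹' Set.Iio 1 := rfl
        rw [this]
        exact (ptSemi_continuous _ _ _ _).continuousAt.preimage_mem_nhds
          (by rw [map_zero]; exact Iio_mem_nhds one_pos)
    exact hb.isCountablyGenerated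

end PTF

section Quot

variable {V : Type u} [AddCommGroup V] [Module ℂ V] [UniformSpace V]

/-- The quotient of a topological vector space by the closure of a subspace. -/
def Qt (V : Type u) [AddCommGroup V] [Module ℂ V] [UniformSpace V] [IsFre V]
    (S : Submodule ℂ V) : Type u := V ⧸ S.topologicalClosure

variable [IsFre V] (S : Submodule ℂ V)

instance : AddCommGroup (Qt V S) := inferInstanceAs (AddCommGroup (V ⧸ S.topologicalClosure))

instance : Module ℂ (Qt V S) := inferInstanceAs (Module ℂ (V ⧸ S.topologicalClosure))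

/-- the quotient topology -/
instance qtTop : TopologicalSpace (Qt V S) :=
  inferInstanceAs (TopologicalSpace (V ⧸ S.topologicalClosure))

instance : IsTopologicalAddGroup (Qt V S) :=
  inferInstanceAs (IsTopologicalAddGroup (V ⧸ S.topologicalClosure))

instance : ContinuousSMul ℂ (Qt V S) :=
  inferInstanceAs (ContinuousSMul ℂ (V ⧸ S.topologicalClosure))

instance : UniformSpace (Qt V S) := IsTopologicalAddGroup.rightUniformSpace (Qt V S)

instance : IsUniformAddGroup (Qt V S) := isUniformAddGroup_of_addCommGroup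

/-- the quotient map -/
def qmk : V →L[ℂ] Qt V S := S.topologicalClosure.mkQL

lemma qmk_surj : Function.Surjective (qmk S) := S.topologicalClosure.mkQ_surjective

lemma qmk_open : IsOpenQuotientMap (qmk S) := S.topologicalClosure.isOpenQuotientMap_mkQ

lemma qmk_eq_zero {v : V} : qmk S v = 0 ↔ v ∈ S.topologicalClosure :=
  Submodule.Quotient.mk_eq_zero _

/-- the quotient seminorm -/
noncomputable def qsemi (p : Seminorm ℂ V) : Seminorm ℂ (Qt V S) :=
  Seminorm.ofSMulLE (fun z => sInf (p '' {v | qmk S v = z}))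
    (by
      apply le_antisymm
      · apply csInf_le ⟨0, by rintro _ ⟨v, _, rfl⟩; exact apply_nonneg p v⟩
        exact ⟨0, by simp, map_zero p⟩
      · apply Real.sInf_nonneg
        rintro _ ⟨v, _, rfl⟩
        exact apply_nonneg p v)
    (by
      intro x y
      apply le_of_forall_pos_lt_add
      intro ε hε
      have hne : ∀ z : Qt V S, (p '' {v | qmk S v = z}).Nonempty := fun z => by
        obtain ⟨v, hv⟩ := qmk_surj S z
        exact ⟨p v, v, hv, rfl⟩
      obtain ⟨_, ⟨v, hv, rfl⟩, h1⟩ := Real.lt_sInf_add_pos (hne x) (half_pos hε)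
      obtain ⟨_, ⟨w, hw, rfl⟩, h2⟩ := Real.lt_sInf_add_pos (hne y) (half_pos hε)
      have h3 : sInf (p '' {v | qmk S v = x + y}) ≤ p (v + w) := by
        apply csInf_le ⟨0, by rintro _ ⟨v, _, rfl⟩; exact apply_nonneg p v⟩
        refine ⟨v + w, ?_, rfl⟩
        rw [Set.mem_ofPred_eq, map_add, hv, hw]
      have h4 := map_add_le_add p v w
      linarith)
    (by
      intro c x
      by_cases hc : c = 0
      · subst hc
        rw [norm_zero, zero_mul, zero_smul]
        apply csInf_le ⟨0, by rintro _ ⟨v, _, rfl⟩; exact apply_nonneg p v⟩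
        exact ⟨0, by simp, map_zero p⟩
      · have hcn : 0 < ‖c‖ := norm_pos_iff.2 hc
        rw [← div_le_iff₀' hcn]
        have hne : (p '' {v | qmk S v = x}).Nonempty := by
          obtain ⟨v, hv⟩ := qmk_surj S x
          exact ⟨p v, v, hv, rfl⟩
        apply le_csInf hne
        rintro _ ⟨v, hv, rfl⟩
        rw [div_le_iff₀' hcn, ← map_smul_eq_mul p]
        apply csInf_le ⟨0, by rintro _ ⟨v, _, rfl⟩; exact apply_nonneg p v⟩
        refine ⟨c • v, ?_, rfl⟩
        rw [Set.mem_ofPred_eq, map_smul, hv])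

lemma qsemi_apply (p : Seminorm ℂ V) (z : Qt V S) :
    qsemi S p z = sInf (p '' {v | qmk S v = z}) := rfl

lemma qsemi_mk_le (p : Seminorm ℂ V) (v : V) : qsemi S p (qmk S v) ≤ p v := by
  rw [qsemi_apply]
  apply csInf_le ⟨0, by rintro _ ⟨v, _, rfl⟩; exact apply_nonneg p v⟩
  exact ⟨v, rfl, rfl⟩

lemma qsemi_lt (p : Seminorm ℂ V) {z : Qt V S} {t : ℝ} (h : qsemi S p z < t) :
    ∃ v, qmk S v = z ∧ p v < t := by
  rw [qsemi_apply] at h
  have hne : (p '' {v | qmk S v = z}).Nonempty := by
    obtain ⟨v, hv⟩ := qmk_surj S z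
    exact ⟨p v, v, hv, rfl⟩
  obtain ⟨_, ⟨v, hv, rfl⟩, h2⟩ := exists_lt_of_csInf_lt hne h
  exact ⟨v, hv, h2⟩

/-- the family of quotient seminorms -/
noncomputable def qfam : SeminormFamily ℂ (Qt V S) {p : Seminorm ℂ V // Continuous p} :=
  fun p => qsemi S p.1

lemma qfam_withSeminorms : WithSeminorms (qfam S) := by
  rw [SeminormFamily.withSeminorms_iff_nhds_eq_iInf]
  apply le_antisymm
  · rw [le_iInf_iff]
    intro p
    rw [← tendsto_iff_comap]
    rw [Metric.tendsto_nhds]
    intro ε hε
    have h1 : {v : V | p.1 v < ε} ∈ 𝓝 (0 : V) := by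
      have : {v : V | p.1 v < ε} = p.1 ⁻¹' Set.Iio ε := rfl
      rw [this]
      exact p.2.continuousAt.preimage_mem_nhds (by rw [map_zero]; exact Iio_mem_nhds hε)
    have h2 := (qmk_open S).isOpenMap.image_mem_nhds h1
    rw [map_zero] at h2
    filter_upwards [h2] with z hz
    obtain ⟨v, hv, rfl⟩ := hz
    rw [Real.dist_eq, sub_zero, abs_of_nonneg (apply_nonneg _ _)]
    exact (qsemi_mk_le S p.1 v).trans_lt hv
  · intro U hU
    have h1 : (qmk S) ⁻¹' U ∈ 𝓝 (0 : V) :=
      (qmk S).continuous.continuousAt.preimage_mem_nhds (by rwa [map_zero])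
    obtain ⟨p, hp, hpU⟩ := exists_seminorm_of_mem_nhds h1
    apply Filter.mem_iInf_of_mem (⟨p, hp⟩ : {p : Seminorm ℂ V // Continuous p})
    refine ⟨Set.Iio 1, Iio_mem_nhds one_pos, ?_⟩
    intro z hz
    obtain ⟨v, rfl, hv⟩ := qsemi_lt S p (show qsemi S p z < 1 from hz)
    exact hpU v hv

instance : IsFre (Qt V S) where
  uniformAddGroup := inferInstance
  continuousSMul := inferInstance
  polynormable := (qfam_withSeminorms S).toPolynormableSpace
  t2 := by
    have : IsClosed (S.topologicalClosure : Set V) := S.isClosed_topologicalClosure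
    have : T3Space (V ⧸ S.topologicalClosure) := inferInstance
    exact (inferInstance : T2Space (V ⧸ S.topologicalClosure))
  complete := by
    exact QuotientAddGroup.completeSpace_right V S.topologicalClosure.toAddSubgroup
  firstCountable := by
    apply firstCountable_of_nhds_zero
    have h := (qmk_open S).isOpenMap.nhds_le (0 : V)
    have h2 : 𝓝 (0 : Qt V S) = map (qmk S) (𝓝 (0 : V)) := by
      apply le_antisymm
      · rwa [map_zero] at h
      · have := (qmk S).continuous.tendsto (0 : V)
        rwa [map_zero] at this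
    rw [h2]
    infer_instance

variable {S}

/-- lifting to the quotient -/
noncomputable def qLift {Z : Type w} [AddCommGroup Z] [Module ℂ Z] [TopologicalSpace Z] [T1Space Z]
    (f : V →L[ℂ] Z) (h : ∀ v ∈ S, f v = 0) : Qt V S →L[ℂ] Z :=
  S.topologicalClosure.liftQL f (by
    apply Submodule.topologicalClosure_minimal
    · intro v hv
      exact h v hv
    · exact f.isClosed_ker)

@[simp] lemma qLift_mk {Z : Type w} [AddCommGroup Z] [Module ℂ Z] [TopologicalSpace Z] [T1Space Z]
    (f : V →L[ℂ] Z) (h : ∀ v ∈ S, f v = 0) (v : V) : qLift f h (qmk S v) = f v := rfl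

/-- bilinear maps descend -/
lemma qBilin {W : Type v} {Z : Type w} [AddCommGroup W] [Module ℂ W] [TopologicalSpace W]
    [AddCommGroup Z] [Module ℂ Z] [TopologicalSpace Z] [T1Space Z] {B : V → W → Z}
    (hB : IsContBilin B) (q : Qt V S → W → Z) (hq : ∀ v w, q (qmk S v) w = B v w) :
    IsContBilin q where
  add_left := by
    intro x x' w
    obtain ⟨v, rfl⟩ := qmk_surj S x
    obtain ⟨v', rfl⟩ := qmk_surj S x'
    rw [← map_add, hq, hq, hq, hB.add_left]
  smul_left := by
    intro c x w
    obtain ⟨v, rfl⟩ := qmk_surj S x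
    rw [← map_smul, hq, hq, hB.smul_left]
  add_right := by
    intro x w w'
    obtain ⟨v, rfl⟩ := qmk_surj S x
    rw [hq, hq, hq, hB.add_right]
  smul_right := by
    intro c x w
    obtain ⟨v, rfl⟩ := qmk_surj S x
    rw [hq, hq, hB.smul_right]
  cont := by
    have h1 : IsOpenQuotientMap (Prod.map (qmk S) (id : W → W)) :=
      (qmk_open S).prodMap IsOpenQuotientMap.id
    rw [← h1.continuous_comp_iff]
    have : ((fun p : Qt V S × W => q p.1 p.2) ∘ Prod.map (qmk S) id) =
        fun p : V × W => B p.1 p.2 := by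
      funext p
      exact hq p.1 p.2
    rw [this]
    exact hB.cont

end Quot

end Pool.Agent.Q19.Fre
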