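import Mathlib
import Pool.Agent.Q19.Fre.Base

/-!
Fréchet modules, the projective module tensor product and flatness.
-/

set_option autoImplicit false

namespace Pool.Agent.Q19.Fre

open Pool.Agent.Helper5 Filter Topology
open Pool.Agent.Q19.FreS (IsFre)

universe u v

noncomputable section

/-- A Fréchet space together with a family of continuous linear operators indexed by `ι`.
Modules over an algebra `A` are obtained for `ι = A` (`IsLeftMod`, `IsRightMod`), bimodules for
`ι = A ⊕ A` (`IsBimod`). -/
structure FMod (ι : Type v) where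
  /-- the underlying Fréchet space -/
  carrier : Type u
  [grp : AddCommGroup carrier]
  [mod : Module ℂ carrier]
  [unif : UniformSpace carrier]
  [frechet : IsFre carrier]
  /-- the operators -/
  op : ι → carrier →L[ℂ] carrier

attribute [instance] FMod.grp FMod.mod FMod.unif FMod.frechet

instance {ι : Type v} : CoeSort (FMod.{u, v} ι) (Type u) := ⟨FMod.carrier⟩

variable {ι : Type v}

/-- Morphisms: continuous linear maps commuting with the operators. -/
structure FHom (M N : FMod.{u, v} ι) where
  /-- the underlying continuous linear map -/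
  toCLM : M →L[ℂ] N
  comm : ∀ i m, toCLM (M.op i m) = N.op i (toCLM m)

/-- the identity morphism -/
def FHom.id (M : FMod.{u, v} ι) : FHom M M := ⟨ContinuousLinearMap.id ℂ M, fun _ _ => rfl⟩

/-- The linear span of the elements `(n i) ⊗ x - n ⊗ (i x)`. -/
def relSub (N X : FMod.{u, v} ι) : Submodule ℂ (PT N X) :=
  Submodule.span ℂ {z | ∃ (i : ι) (n : N) (x : X), z = pt (N.op i n) x - pt n (X.op i x)}

/-- The quotient of the completed projective tensor product `N ⊗̂ X` by the closed linear span of
the elements `(n i) ⊗ x - n ⊗ (i x)`. -/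
abbrev Tens (N X : FMod.{u, v} ι) : Type u := Qt (PT N X) (relSub N X)

/-- The class of the elementary tensor `n ⊗ x`. -/
def te {N X : FMod.{u, v} ι} (n : N) (x : X) : Tens N X := qmk _ (pt n x)

lemma te_isContBilin {N X : FMod.{u, v} ι} : IsContBilin (te : N → X → Tens N X) where
  add_left x x' y := by
    unfold te
    rw [pt_isContBilin.add_left, map_add]
  smul_left c x y := by
    unfold te
    rw [pt_isContBilin.smul_left, map_smul]
  add_right x y y' := by
    unfold te
    rw [pt_isContBilin.add_right, map_add]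
  smul_right c x y := by
    unfold te
    rw [pt_isContBilin.smul_right, map_smul]
  cont := (qmk _).continuous.comp pt_isContBilin.cont

lemma te_op {N X : FMod.{u, v} ι} (i : ι) (n : N) (x : X) :
    te (N.op i n) x = te n (X.op i x) := by
  rw [← sub_eq_zero]
  unfold te
  rw [← map_sub, qmk_eq_zero]
  exact Submodule.le_topologicalClosure _ (Submodule.subset_span ⟨i, n, x, rfl⟩)

/-- Continuous linear maps out of `Tens N X` given by balanced continuous bilinear maps. -/
def teLift {N X : FMod.{u, v} ι} {Z : Type u} [AddCommGroup Z] [Module ℂ Z] [UniformSpace Z]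
    [IsPolynormed Z] {B : N → X → Z} (hB : IsContBilin B)
    (h : ∀ i n x, B (N.op i n) x = B n (X.op i x)) : Tens N X →L[ℂ] Z :=
  qLift (ptLift hB) (by
    intro v hv
    unfold relSub at hv
    refine Submodule.span_induction (p := fun v _ => ptLift hB v = 0) ?_ ?_ ?_ ?_ hv
    · rintro _ ⟨i, n, x, rfl⟩
      rw [map_sub, ptLift_pt, ptLift_pt, h, sub_self]
    · exact map_zero _
    · intro x y _ _ hx hy
      rw [map_add, hx, hy, add_zero]
    · intro c x _ hx
      rw [map_smul, hx, smul_zero])

@[simp] lemma teLift_te {N X : FMod.{u, v} ι} {Z : Type u} [AddCommGroup Z] [Module ℂ Z]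
    [UniformSpace Z] [IsPolynormed Z] {B : N → X → Z} (hB : IsContBilin B)
    (h : ∀ i n x, B (N.op i n) x = B n (X.op i x)) (n : N) (x : X) :
    teLift hB h (te n x) = B n x := by
  unfold teLift te
  rw [qLift_mk, ptLift_pt]

/-- The map `N ⊗̂_A X → N' ⊗̂_A X'` induced by two morphisms: `n ⊗ x ↦ f n ⊗ g x`. -/
def tmap {N N' X X' : FMod.{u, v} ι} (f : FHom N N') (g : FHom X X') :
    Tens N X →L[ℂ] Tens N' X' :=
  teLift (B := fun n x => te (f.toCLM n) (g.toCLM x))
    { add_left := fun x x' y => by rw [map_add, te_isContBilin.add_left]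
      smul_left := fun c x y => by rw [map_smul, te_isContBilin.smul_left]
      add_right := fun x y y' => by rw [map_add, te_isContBilin.add_right]
      smul_right := fun c x y => by rw [map_smul, te_isContBilin.smul_right]
      cont := te_isContBilin.cont.comp
        ((f.toCLM.continuous.comp continuous_fst).prodMk (g.toCLM.continuous.comp continuous_snd)) }
    (fun i n x => by rw [f.comm, g.comm, te_op])

@[simp] lemma tmap_te {N N' X X' : FMod.{u, v} ι} (f : FHom N N') (g : FHom X X') (n : N) (x : X) :
    tmap f g (te n x) = te (f.toCLM n) (g.toCLM x) := teLift_te _ _ _ _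

/-- Exactness of `0 → E → F → G → 0`. -/
def ShortExact {E F G : Type u} [AddCommGroup E] [AddCommGroup F] [AddCommGroup G]
    (i : E → F) (p : F → G) : Prop :=
  Function.Injective i ∧ (∀ y, p y = 0 ↔ ∃ x, i x = y) ∧ Function.Surjective p

/-- `0 → E → F → G → 0` is exact and splits as a sequence of topological vector spaces. -/
def Admissible {E F G : FMod.{u, v} ι} (i : FHom E F) (p : FHom F G) : Prop :=
  ShortExact (fun x => i.toCLM x) (fun y => p.toCLM y) ∧
    ∃ (r : F →L[ℂ] E) (s : G →L[ℂ] F), (∀ x, r (i.toCLM x) = x) ∧ (∀ z, p.toCLM (s z) = z) ∧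
      ∀ y, i.toCLM (r y) + s (p.toCLM y) = y

section Modules

variable (A : Type u) [NonUnitalRing A] [Module ℂ A] [UniformSpace A] [IsFre A]

/-- `A` is a Fréchet algebra: the multiplication is a jointly continuous bilinear map of the
Fréchet space `A` (associativity is part of `NonUnitalRing`). -/
def IsFAlg : Prop := IsContBilin (fun a b : A => a * b)

/-- The left Fréchet `A`-modules; `M.op a m` is `a m`. -/
structure IsLeftMod (M : FMod.{u, u} A) : Prop where
  cont : IsContBilin (fun (a : A) (m : M) => M.op a m)
  mul : ∀ a b m, M.op (a * b) m = M.op a (M.op b m)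

/-- The right Fréchet `A`-modules; `M.op a m` is `m a`. -/
structure IsRightMod (M : FMod.{u, u} A) : Prop where
  cont : IsContBilin (fun (a : A) (m : M) => M.op a m)
  mul : ∀ a b m, M.op (a * b) m = M.op b (M.op a m)

variable {A}

/-- the operators indexed by the first copy of `A` -/
abbrev FMod.left (M : FMod.{u, u} (A ⊕ A)) : FMod.{u, u} A where
  carrier := M
  op a := M.op (Sum.inl a)

/-- the operators indexed by the second copy of `A` -/
abbrev FMod.right (M : FMod.{u, u} (A ⊕ A)) : FMod.{u, u} A where
  carrier := M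
  op a := M.op (Sum.inr a)

/-- the two families of operators interchanged -/
abbrev FMod.swap (M : FMod.{u, u} (A ⊕ A)) : FMod.{u, u} (A ⊕ A) where
  carrier := M
  op i := M.op i.swap

/-- a morphism of bimodules after interchanging the two families of operators -/
def FHom.swap {M N : FMod.{u, u} (A ⊕ A)} (f : FHom M N) : FHom M.swap N.swap :=
  ⟨f.toCLM, fun i m => f.comm i.swap m⟩

variable (A)

/-- The Fréchet `A`-bimodules; `M.op (inl a) m` is `a m`, `M.op (inr b) m` is `m b`. -/
structure IsBimod (M : FMod.{u, u} (A ⊕ A)) : Prop where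
  left : IsLeftMod A M.left
  right : IsRightMod A M.right
  comm : ∀ a b m, M.op (Sum.inl a) (M.op (Sum.inr b) m) = M.op (Sum.inr b) (M.op (Sum.inl a) m)

/-- `X` is flat in `A`-mod: tensoring admissible sequences of right modules by `X` gives exact
sequences. -/
def FlatLeft (X : FMod.{u, u} A) : Prop :=
  ∀ (E F G : FMod.{u, u} A), IsRightMod A E → IsRightMod A F → IsRightMod A G →
    ∀ (i : FHom E F) (p : FHom F G), Admissible i p →
      ShortExact (fun z => tmap i (FHom.id X) z) (fun z => tmap p (FHom.id X) z)

/-- `Y` is flat in mod-`A`: tensoring admissible sequences of left modules by `Y` gives exact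
sequences. -/
def FlatRight (Y : FMod.{u, u} A) : Prop :=
  ∀ (E F G : FMod.{u, u} A), IsLeftMod A E → IsLeftMod A F → IsLeftMod A G →
    ∀ (i : FHom E F) (p : FHom F G), Admissible i p →
      ShortExact (fun z => tmap (FHom.id Y) i z) (fun z => tmap (FHom.id Y) p z)

/-- `Z` is flat in `A`-mod-`A`. A bimodule `N` is a right module over `A_+ ⊗̂ A_+^op` by
`n (a ⊗ b) = b n a`, so `N ⊗̂_{A^e} Z` is the quotient of `N ⊗̂ Z` by the closed linear span of the
elements `(n a) ⊗ z - n ⊗ (a z)` and `(b n) ⊗ z - n ⊗ (z b)`, that is `Tens N.swap Z`. -/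
def FlatBi (Z : FMod.{u, u} (A ⊕ A)) : Prop :=
  ∀ (E F G : FMod.{u, u} (A ⊕ A)), IsBimod A E → IsBimod A F → IsBimod A G →
    ∀ (i : FHom E F) (p : FHom F G), Admissible i p →
      ShortExact (fun z => tmap i.swap (FHom.id Z) z) (fun z => tmap p.swap (FHom.id Z) z)

end Modules

/-- the map `f ⊗ g` between completed projective tensor products -/
def ptMap {X X' Y Y' : Type u} [AddCommGroup X] [Module ℂ X] [UniformSpace X] [IsFre X]
    [AddCommGroup Y] [Module ℂ Y] [UniformSpace Y] [IsFre Y]
    [AddCommGroup X'] [Module ℂ X'] [UniformSpace X'] [IsFre X']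
    [AddCommGroup Y'] [Module ℂ Y'] [UniformSpace Y'] [IsFre Y']
    (f : X →L[ℂ] X') (g : Y →L[ℂ] Y') : PT X Y →L[ℂ] PT X' Y' :=
  ptLift (β := fun x y => pt (f x) (g y))
    { add_left := fun x x' y => by rw [map_add, pt_isContBilin.add_left]
      smul_left := fun c x y => by rw [map_smul, pt_isContBilin.smul_left]
      add_right := fun x y y' => by rw [map_add, pt_isContBilin.add_right]
      smul_right := fun c x y => by rw [map_smul, pt_isContBilin.smul_right]
      cont := pt_isContBilin.cont.comp
        ((f.continuous.comp continuous_fst).prodMk (g.continuous.comp continuous_snd)) }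

/-- The bimodule `X ⊗̂ Y` with `a (x ⊗ y) b = (a x) ⊗ (y b)`. -/
abbrev outer {A : Type u} (X Y : FMod.{u, u} A) : FMod.{u, u} (A ⊕ A) where
  carrier := PT X Y
  op := Sum.elim (fun a => ptMap (X.op a) (ContinuousLinearMap.id ℂ Y))
    (fun b => ptMap (ContinuousLinearMap.id ℂ X) (Y.op b))

end

end Pool.Agent.Q19.Fre
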