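import Mathlib
import Pool.Agent.Q19.Fre.Defs

/-!
Bilinear and trilinear maps, extension to (module) tensor products.
-/

set_option autoImplicit false

namespace Pool.Agent.Q19.Fre

open Pool.Agent.Helper5 Filter Topology
open Pool.Agent.Q19.FreS (IsFre)

universe u v

noncomputable section

/-! ### bilinear maps -/

section Bil

variable {X Y Z X' Y' Z' : Type u}
  [AddCommGroup X] [Module ℂ X] [TopologicalSpace X]
  [AddCommGroup Y] [Module ℂ Y] [TopologicalSpace Y]
  [AddCommGroup Z] [Module ℂ Z] [TopologicalSpace Z]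
  [AddCommGroup X'] [Module ℂ X'] [TopologicalSpace X']
  [AddCommGroup Y'] [Module ℂ Y'] [TopologicalSpace Y']
  [AddCommGroup Z'] [Module ℂ Z'] [TopologicalSpace Z']

lemma bil_comp {B : X → Y → Z} (h : IsContBilin B) (f : X' →L[ℂ] X) (g : Y' →L[ℂ] Y)
    (k : Z →L[ℂ] Z') : IsContBilin (fun x y => k (B (f x) (g y))) where
  add_left x x' y := by rw [map_add, h.add_left, map_add]
  smul_left c x y := by rw [map_smul, h.smul_left, map_smul]
  add_right x y y' := by rw [map_add, h.add_right, map_add]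
  smul_right c x y := by rw [map_smul, h.smul_right, map_smul]
  cont := k.continuous.comp (h.cont.comp
    ((f.continuous.comp continuous_fst).prodMk (g.continuous.comp continuous_snd)))

lemma bil_pre {B : X → Y → Z} (h : IsContBilin B) (f : X' →L[ℂ] X) (g : Y' →L[ℂ] Y) :
    IsContBilin (fun x y => B (f x) (g y)) :=
  bil_comp h f g (ContinuousLinearMap.id ℂ Z)

lemma bil_post {B : X → Y → Z} (h : IsContBilin B) (k : Z →L[ℂ] Z') :
    IsContBilin (fun x y => k (B x y)) :=
  bil_comp h (ContinuousLinearMap.id ℂ X) (ContinuousLinearMap.id ℂ Y) k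

lemma bil_flip {B : X → Y → Z} (h : IsContBilin B) : IsContBilin (fun y x => B x y) where
  add_left y y' x := h.add_right x y y'
  smul_left c y x := h.smul_right c x y
  add_right y x x' := h.add_left x x' y
  smul_right c y x := h.smul_left c x y
  cont := h.cont.comp continuous_swap

lemma bil_add [IsTopologicalAddGroup Z] {B C : X → Y → Z} (h : IsContBilin B)
    (h' : IsContBilin C) : IsContBilin (fun x y => B x y + C x y) where
  add_left x x' y := by rw [h.add_left, h'.add_left]; abel
  smul_left c x y := by rw [h.smul_left, h'.smul_left, smul_add]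
  add_right x y y' := by rw [h.add_right, h'.add_right]; abel
  smul_right c x y := by rw [h.smul_right, h'.smul_right, smul_add]
  cont := h.cont.add h'.cont

lemma bil_sub [IsTopologicalAddGroup Z] {B C : X → Y → Z} (h : IsContBilin B)
    (h' : IsContBilin C) : IsContBilin (fun x y => B x y - C x y) where
  add_left x x' y := by rw [h.add_left, h'.add_left]; abel
  smul_left c x y := by rw [h.smul_left, h'.smul_left, smul_sub]
  add_right x y y' := by rw [h.add_right, h'.add_right]; abel
  smul_right c x y := by rw [h.smul_right, h'.smul_right, smul_sub]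
  cont := h.cont.sub h'.cont

/-- the partial map as a continuous linear map -/
def bilR {B : X → Y → Z} (h : IsContBilin B) (x : X) : Y →L[ℂ] Z := (h.isContLin_right x).toCLM

/-- the partial map as a continuous linear map -/
def bilL {B : X → Y → Z} (h : IsContBilin B) (y : Y) : X →L[ℂ] Z := (h.isContLin_left y).toCLM

@[simp] lemma bilR_apply {B : X → Y → Z} (h : IsContBilin B) (x : X) (y : Y) :
    bilR h x y = B x y := rfl

@[simp] lemma bilL_apply {B : X → Y → Z} (h : IsContBilin B) (x : X) (y : Y) :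
    bilL h y x = B x y := rfl

end Bil

/-! ### trilinear maps -/

/-- Trilinear maps with product seminorm estimates. -/
structure IsTri {V X Y Z : Type u} [AddCommGroup V] [Module ℂ V] [TopologicalSpace V]
    [AddCommGroup X] [Module ℂ X] [TopologicalSpace X]
    [AddCommGroup Y] [Module ℂ Y] [TopologicalSpace Y]
    [AddCommGroup Z] [Module ℂ Z] [TopologicalSpace Z] (T : V → X → Y → Z) : Prop where
  add1 : ∀ v v' x y, T (v + v') x y = T v x y + T v' x y
  smul1 : ∀ (c : ℂ) v x y, T (c • v) x y = c • T v x y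
  add2 : ∀ v x x' y, T v (x + x') y = T v x y + T v x' y
  smul2 : ∀ (c : ℂ) v x y, T v (c • x) y = c • T v x y
  add3 : ∀ v x y y', T v x (y + y') = T v x y + T v x y'
  smul3 : ∀ (c : ℂ) v x y, T v x (c • y) = c • T v x y
  bound : ∀ r : Seminorm ℂ Z, Continuous r → ∃ (s : Seminorm ℂ V) (p : Seminorm ℂ X)
    (q : Seminorm ℂ Y), Continuous s ∧ Continuous p ∧ Continuous q ∧
      ∀ v x y, r (T v x y) ≤ s v * (p x * q y)

section Tri

variable {V X Y Z W : Type u}
  [AddCommGroup V] [Module ℂ V] [UniformSpace V] [IsPolynormed V]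
  [AddCommGroup X] [Module ℂ X] [UniformSpace X] [IsPolynormed X]
  [AddCommGroup Y] [Module ℂ Y] [UniformSpace Y] [IsPolynormed Y]
  [AddCommGroup Z] [Module ℂ Z] [UniformSpace Z] [IsPolynormed Z]
  [AddCommGroup W] [Module ℂ W] [UniformSpace W] [IsPolynormed W]

lemma IsTri.swap12 {T : V → X → Y → Z} (h : IsTri T) : IsTri (fun x v y => T v x y) where
  add1 x x' v y := h.add2 v x x' y
  smul1 c x v y := h.smul2 c v x y
  add2 x v v' y := h.add1 v v' x y
  smul2 c x v y := h.smul1 c v x y
  add3 x v y y' := h.add3 v x y y'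
  smul3 c x v y := h.smul3 c v x y
  bound r hr := by
    obtain ⟨s, p, q, hs, hp, hq, hb⟩ := h.bound r hr
    refine ⟨p, s, q, hp, hs, hq, fun x v y => (hb v x y).trans (le_of_eq (by ring))⟩

lemma IsTri.swap23 {T : V → X → Y → Z} (h : IsTri T) : IsTri (fun v y x => T v x y) where
  add1 v v' y x := h.add1 v v' x y
  smul1 c v y x := h.smul1 c v x y
  add2 v y y' x := h.add3 v x y y'
  smul2 c v y x := h.smul3 c v x y
  add3 v y x x' := h.add2 v x x' y
  smul3 c v y x := h.smul2 c v x y
  bound r hr := by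
    obtain ⟨s, p, q, hs, hp, hq, hb⟩ := h.bound r hr
    refine ⟨s, q, p, hs, hq, hp, fun v y x => (hb v x y).trans (le_of_eq (by ring))⟩

lemma real_smul_semi_continuous {X : Type u} [AddCommGroup X] [Module ℂ X] [TopologicalSpace X]
    (p : Seminorm ℂ X) (hp : Continuous p) {c : ℝ} (hc : 0 ≤ c) :
    ∃ p' : Seminorm ℂ X, Continuous p' ∧ ∀ x, p' x = c * p x := by
  refine ⟨(Real.toNNReal c) • p, Continuous.const_smul hp _, fun x => ?_⟩
  rw [smul_apply, NNReal.smul_def, Real.coe_toNNReal _ hc]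
  rfl

lemma IsTri.bilin {T : V → X → Y → Z} (h : IsTri T) (v : V) : IsContBilin (T v) where
  add_left := h.add2 v
  smul_left c x y := h.smul2 c v x y
  add_right := h.add3 v
  smul_right c x y := h.smul3 c v x y
  cont := by
    refine continuous_of_bound (h.add2 v) (h.add3 v) fun r hr => ?_
    obtain ⟨s, p, q, hs, hp, hq, hb⟩ := h.bound r hr
    obtain ⟨p', hp', h2⟩ := real_smul_semi_continuous p hp (apply_nonneg s v)
    refine ⟨p', q, hp', hq, fun x y => ?_⟩
    rw [h2, mul_assoc]
    exact hb v x y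

/-- `B v (C x y)` -/
lemma tri_right {B : V → W → Z} {C : X → Y → W} (hB : IsContBilin B) (hC : IsContBilin C) :
    IsTri (fun v x y => B v (C x y)) where
  add1 v v' x y := hB.add_left _ _ _
  smul1 c v x y := hB.smul_left _ _ _
  add2 v x x' y := by rw [hC.add_left, hB.add_right]
  smul2 c v x y := by rw [hC.smul_left, hB.smul_right]
  add3 v x y y' := by rw [hC.add_right, hB.add_right]
  smul3 c v x y := by rw [hC.smul_right, hB.smul_right]
  bound r hr := by
    obtain ⟨s, t, hs, ht, hst⟩ := hB.exists_bound r hr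
    obtain ⟨p, q, hp, hq, hpq⟩ := hC.exists_bound t ht
    exact ⟨s, p, q, hs, hp, hq, fun v x y =>
      (hst _ _).trans (mul_le_mul_of_nonneg_left (hpq x y) (apply_nonneg s v))⟩

/-- `B (C v x) y` -/
lemma tri_left {B : W → Y → Z} {C : V → X → W} (hB : IsContBilin B) (hC : IsContBilin C) :
    IsTri (fun v x y => B (C v x) y) :=
  (tri_right (bil_flip hB) hC).swap12.swap23

lemma IsTri.add {T T' : V → X → Y → Z} (h : IsTri T) (h' : IsTri T') :
    IsTri (fun v x y => T v x y + T' v x y) where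
  add1 v v' x y := by rw [h.add1, h'.add1]; abel
  smul1 c v x y := by rw [h.smul1, h'.smul1, smul_add]
  add2 v x x' y := by rw [h.add2, h'.add2]; abel
  smul2 c v x y := by rw [h.smul2, h'.smul2, smul_add]
  add3 v x y y' := by rw [h.add3, h'.add3]; abel
  smul3 c v x y := by rw [h.smul3, h'.smul3, smul_add]
  bound r hr := by
    obtain ⟨s, p, q, hs, hp, hq, hb⟩ := h.bound r hr
    obtain ⟨s', p', q', hs', hp', hq', hb'⟩ := h'.bound r hr
    obtain ⟨S, hS, h1, h2⟩ := exists_seminorm_ge s s' hs hs'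
    obtain ⟨P, hP, h3, h4⟩ := exists_seminorm_ge p p' hp hp'
    obtain ⟨Q, hQ, h5, h6⟩ := exists_seminorm_ge q q' hq hq'
    obtain ⟨S2, hS2, h7⟩ := real_smul_semi_continuous S hS (c := 2) zero_le_two
    refine ⟨S2, P, Q, hS2, hP, hQ, fun v x y => ?_⟩
    have e1 : s v * (p x * q y) ≤ S v * (P x * Q y) :=
      mul_le_mul (h1 v) (mul_le_mul (h3 x) (h5 y) (apply_nonneg _ _) (apply_nonneg _ _))
        (mul_nonneg (apply_nonneg _ _) (apply_nonneg _ _)) (apply_nonneg _ _)
    have e2 : s' v * (p' x * q' y) ≤ S v * (P x * Q y) :=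
      mul_le_mul (h2 v) (mul_le_mul (h4 x) (h6 y) (apply_nonneg _ _) (apply_nonneg _ _))
        (mul_nonneg (apply_nonneg _ _) (apply_nonneg _ _)) (apply_nonneg _ _)
    rw [h7]
    calc r (T v x y + T' v x y) ≤ r (T v x y) + r (T' v x y) := map_add_le_add _ _ _
      _ ≤ S v * (P x * Q y) + S v * (P x * Q y) :=
          add_le_add ((hb v x y).trans e1) ((hb' v x y).trans e2)
      _ = 2 * S v * (P x * Q y) := by ring

lemma IsTri.neg {T : V → X → Y → Z} (h : IsTri T) : IsTri (fun v x y => - T v x y) where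
  add1 v v' x y := by rw [h.add1]; abel
  smul1 c v x y := by rw [h.smul1, smul_neg]
  add2 v x x' y := by rw [h.add2]; abel
  smul2 c v x y := by rw [h.smul2, smul_neg]
  add3 v x y y' := by rw [h.add3]; abel
  smul3 c v x y := by rw [h.smul3, smul_neg]
  bound r hr := by
    obtain ⟨s, p, q, hs, hp, hq, hb⟩ := h.bound r hr
    refine ⟨s, p, q, hs, hp, hq, fun v x y => ?_⟩
    rw [map_neg_eq_map]
    exact hb v x y

/-- the extension of a trilinear map to the completed tensor product of the last two variables -/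
def ptTri {T : V → X → Y → Z} (h : IsTri T) (v : V) (z : PT X Y) : Z := ptLift (h.bilin v) z

@[simp] lemma ptTri_pt {T : V → X → Y → Z} (h : IsTri T) (v : V) (x : X) (y : Y) :
    ptTri h v (pt x y) = T v x y := ptLift_pt _ _ _

lemma ptTri_bilin {T : V → X → Y → Z} (h : IsTri T) : IsContBilin (ptTri h) := by
  refine bil_flip (triExt (fun v => h.bilin v) h.add1 h.smul1 fun r hr => ?_)
  obtain ⟨s, p, q, hs, hp, hq, hb⟩ := h.bound r hr
  exact ⟨p, q, s, hp, hq, hs, hb⟩

end Tri

section TriTe

variable {ι : Type v} {V Z : Type u}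
  [AddCommGroup V] [Module ℂ V] [UniformSpace V] [IsPolynormed V]
  [AddCommGroup Z] [Module ℂ Z] [UniformSpace Z] [IsPolynormed Z]
  {N X : FMod.{u, v} ι}

/-- the extension of a balanced trilinear map to the module tensor product of the last two
variables -/
def teTri {T : V → N → X → Z} (h : IsTri T)
    (hb : ∀ v i n x, T v (N.op i n) x = T v n (X.op i x)) (v : V) (z : Tens N X) : Z :=
  teLift (h.bilin v) (hb v) z

@[simp] lemma teTri_te {T : V → N → X → Z} (h : IsTri T)
    (hb : ∀ v i n x, T v (N.op i n) x = T v n (X.op i x)) (v : V) (n : N) (x : X) :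
    teTri h hb v (te n x) = T v n x := teLift_te _ _ _ _

lemma teTri_bilin {T : V → N → X → Z} (h : IsTri T)
    (hb : ∀ v i n x, T v (N.op i n) x = T v n (X.op i x)) : IsContBilin (teTri h hb) := by
  apply bil_flip
  exact qBilin (bil_flip (ptTri_bilin h)) (fun z v => teTri h hb v z) (fun w v => rfl)

end TriTe

/-! ### extensionality -/

section Ext

variable {ι κ : Type v}

lemma clm_pt_ext {X Y Z : Type u} [AddCommGroup X] [Module ℂ X] [TopologicalSpace X]
    [PolynormableSpace ℂ X] [AddCommGroup Y] [Module ℂ Y] [TopologicalSpace Y]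
    [PolynormableSpace ℂ Y] [AddCommGroup Z] [Module ℂ Z] [UniformSpace Z] [IsPolynormed Z]
    {f g : PT X Y →L[ℂ] Z} (h : ∀ x y, f (pt x y) = g (pt x y)) (z : PT X Y) : f z = g z :=
  congrFun (pt_ext (isContLin_clm f) (isContLin_clm g) h) z

lemma clm_te_ext {N X : FMod.{u, v} ι} {Z : Type u} [AddCommGroup Z] [Module ℂ Z]
    [UniformSpace Z] [IsPolynormed Z] {f g : Tens N X →L[ℂ] Z}
    (h : ∀ n x, f (te n x) = g (te n x)) (z : Tens N X) : f z = g z := by
  obtain ⟨w, rfl⟩ := qmk_surj _ z
  exact clm_pt_ext (f := f.comp (qmk _)) (g := g.comp (qmk _)) h w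

/-- extensionality for bilinear maps on `V × (X ⊗̂ Y)` -/
lemma bil_pt_ext {V X Y Z : Type u} [AddCommGroup V] [Module ℂ V] [TopologicalSpace V]
    [AddCommGroup X] [Module ℂ X] [TopologicalSpace X]
    [PolynormableSpace ℂ X] [AddCommGroup Y] [Module ℂ Y] [TopologicalSpace Y]
    [PolynormableSpace ℂ Y] [AddCommGroup Z] [Module ℂ Z] [UniformSpace Z] [IsPolynormed Z]
    {B C : V → PT X Y → Z} (hB : IsContBilin B) (hC : IsContBilin C)
    (h : ∀ v x y, B v (pt x y) = C v (pt x y)) (v : V) (z : PT X Y) : B v z = C v z :=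
  clm_pt_ext (f := bilR hB v) (g := bilR hC v) (h v) z

lemma bil_te_ext {V : Type u} [AddCommGroup V] [Module ℂ V] [TopologicalSpace V]
    {N X : FMod.{u, v} ι} {Z : Type u} [AddCommGroup Z] [Module ℂ Z]
    [UniformSpace Z] [IsPolynormed Z] {B C : V → Tens N X → Z} (hB : IsContBilin B)
    (hC : IsContBilin C) (h : ∀ v n x, B v (te n x) = C v (te n x)) (v : V) (z : Tens N X) :
    B v z = C v z :=
  clm_te_ext (f := bilR hB v) (g := bilR hC v) (h v) z

end Ext

/-! ### the functoriality of tensor products -/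

section Func

lemma FHom.ext' {ι : Type v} {M N : FMod.{u, v} ι} {f g : FHom M N}
    (h : ∀ m, f.toCLM m = g.toCLM m) : f = g := by
  obtain ⟨f, hf⟩ := f
  obtain ⟨g, hg⟩ := g
  have : f = g := ContinuousLinearMap.ext h
  subst this
  rfl

/-- composition of morphisms -/
def FHom.comp {ι : Type v} {M N P : FMod.{u, v} ι} (g : FHom N P) (f : FHom M N) : FHom M P :=
  ⟨g.toCLM.comp f.toCLM, fun i m => by
    rw [ContinuousLinearMap.comp_apply, f.comm, g.comm]; rfl⟩

lemma FHom.comp_apply {ι : Type v} {M N P : FMod.{u, v} ι} (g : FHom N P) (f : FHom M N) (m : M) :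
    (g.comp f).toCLM m = g.toCLM (f.toCLM m) := rfl

@[simp] lemma FHom.id_apply {ι : Type v} {M : FMod.{u, v} ι} (m : M) :
    (FHom.id M).toCLM m = m := rfl

section PM

variable {X X' X'' Y Y' Y'' : Type u} [AddCommGroup X] [Module ℂ X] [UniformSpace X] [IsFre X]
    [AddCommGroup Y] [Module ℂ Y] [UniformSpace Y] [IsFre Y]
    [AddCommGroup X'] [Module ℂ X'] [UniformSpace X'] [IsFre X']
    [AddCommGroup Y'] [Module ℂ Y'] [UniformSpace Y'] [IsFre Y']
    [AddCommGroup X''] [Module ℂ X''] [UniformSpace X''] [IsFre X'']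
    [AddCommGroup Y''] [Module ℂ Y''] [UniformSpace Y''] [IsFre Y'']

@[simp] lemma ptMap_pt (f : X →L[ℂ] X') (g : Y →L[ℂ] Y') (x : X) (y : Y) :
    ptMap f g (pt x y) = pt (f x) (g y) := ptLift_pt _ _ _

lemma ptMap_comp (f : X →L[ℂ] X') (g : Y →L[ℂ] Y') (f' : X' →L[ℂ] X'') (g' : Y' →L[ℂ] Y'')
    (z : PT X Y) : ptMap f' g' (ptMap f g z) = ptMap (f'.comp f) (g'.comp g) z := by
  refine clm_pt_ext (f := (ptMap f' g').comp (ptMap f g)) (g := ptMap (f'.comp f) (g'.comp g))
    (fun x y => ?_) z
  simp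

lemma ptMap_id (z : PT X Y) :
    ptMap (ContinuousLinearMap.id ℂ X) (ContinuousLinearMap.id ℂ Y) z = z := by
  refine clm_pt_ext (f := ptMap (ContinuousLinearMap.id ℂ X) (ContinuousLinearMap.id ℂ Y))
    (g := ContinuousLinearMap.id ℂ _) (fun x y => ?_) z
  simp

end PM

lemma tmap_comp {ι : Type v} {N N' N'' X X' X'' : FMod.{u, v} ι} (f : FHom N N') (g : FHom X X')
    (f' : FHom N' N'') (g' : FHom X' X'') (z : Tens N X) :
    tmap f' g' (tmap f g z) = tmap (f'.comp f) (g'.comp g) z := by
  refine clm_te_ext (f := (tmap f' g').comp (tmap f g)) (g := tmap (f'.comp f) (g'.comp g))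
    (fun x y => ?_) z
  simp [FHom.comp]

lemma tmap_id {ι : Type v} {N X : FMod.{u, v} ι} (z : Tens N X) :
    tmap (FHom.id N) (FHom.id X) z = z := by
  refine clm_te_ext (f := tmap (FHom.id N) (FHom.id X)) (g := ContinuousLinearMap.id ℂ _)
    (fun x y => ?_) z
  simp

end Func

end

end Pool.Agent.Q19.Fre
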