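import Mathlib
import Pool.Agent.Q19.Fre.Tri

/-!
Module constructions: `V ⊗̂ E`, the sequence `0 → A ⊗̂ M → A_+ ⊗̂ M → M → 0`, the left module
`E ⊗̂_A X`, and the natural isomorphisms.
-/

set_option autoImplicit false

namespace Pool.Agent.Q19.Fre

open Pool.Agent.Helper5 Filter Topology
open Pool.Agent.Q19.FreS (IsFre)

universe u v

noncomputable section

section TensV

variable {ι : Type v} (V : Type u) [AddCommGroup V] [Module ℂ V] [UniformSpace V] [IsFre V]

/-- `V ⊗̂ E` with the operators acting on `E`. -/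
abbrev tensV (E : FMod.{u, v} ι) : FMod.{u, v} ι where
  carrier := PT V E
  op i := ptMap (ContinuousLinearMap.id ℂ V) (E.op i)

variable {V}

lemma tensV_op {E : FMod.{u, v} ι} (i : ι) (v : V) (e : E) :
    (tensV V E).op i (pt v e) = pt v (E.op i e) := ptMap_pt _ _ _ _

/-- `1 ⊗ f` -/
def tensVHom {E F : FMod.{u, v} ι} (f : FHom E F) : FHom (tensV V E) (tensV V F) where
  toCLM := ptMap (ContinuousLinearMap.id ℂ V) f.toCLM
  comm i m := by
    have := clm_pt_ext (f := (ptMap (ContinuousLinearMap.id ℂ V) f.toCLM).comp ((tensV V E).op i))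
      (g := ((tensV V F).op i).comp (ptMap (ContinuousLinearMap.id ℂ V) f.toCLM)) (fun v e => by
        rw [ContinuousLinearMap.comp_apply, ContinuousLinearMap.comp_apply, tensV_op, ptMap_pt,
          ptMap_pt, tensV_op, f.comm]) m
    exact this

lemma tensVHom_pt {E F : FMod.{u, v} ι} (f : FHom E F) (v : V) (e : E) :
    (tensVHom f).toCLM (pt v e) = pt v (f.toCLM e) := ptMap_pt _ _ _ _

variable {E X : FMod.{u, v} ι}

lemma alphaTri : IsTri (fun (x : X) (v : V) (e : E) => pt v (te (N := E) (X := X) e x)) :=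
  (tri_right (pt_isContBilin (X := V) (Y := Tens E X)) (te_isContBilin (N := E) (X := X))).swap23.swap12

/-- `(V ⊗̂ E) ⊗̂_A X → V ⊗̂ (E ⊗̂_A X)` -/
def alpha (V : Type u) [AddCommGroup V] [Module ℂ V] [UniformSpace V] [IsFre V]
    (E X : FMod.{u, v} ι) : Tens (tensV V E) X →L[ℂ] PT V (Tens E X) :=
  teLift (N := tensV V E) (X := X)
    (B := fun (t : PT V E) (x : X) => ptTri (alphaTri (V := V) (E := E) (X := X)) x t)
    (bil_flip (ptTri_bilin _)) (by
      intro i t x
      refine clm_pt_ext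
        (f := (bilR (ptTri_bilin (alphaTri (V := V) (E := E) (X := X))) x).comp
          (ptMap (ContinuousLinearMap.id ℂ V) (E.op i)))
        (g := bilR (ptTri_bilin (alphaTri (V := V) (E := E) (X := X))) (X.op i x))
        (fun v e => ?_) t
      rw [ContinuousLinearMap.comp_apply, ptMap_pt, bilR_apply, bilR_apply, ptTri_pt, ptTri_pt,
        te_op]
      rfl)

lemma alpha_te (v : V) (e : E) (x : X) :
    alpha V E X (te (N := tensV V E) (pt v e) x) = pt v (te e x) := by
  unfold alpha
  rw [teLift_te, ptTri_pt]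

lemma alphaTri' : IsTri (fun (v : V) (e : E) (x : X) =>
    te (N := tensV V E) (X := X) (pt v e) x) :=
  tri_left (te_isContBilin (N := tensV V E) (X := X)) (pt_isContBilin (X := V) (Y := E))

/-- `V ⊗̂ (E ⊗̂_A X) → (V ⊗̂ E) ⊗̂_A X` -/
def alphaInv (V : Type u) [AddCommGroup V] [Module ℂ V] [UniformSpace V] [IsFre V]
    (E X : FMod.{u, v} ι) : PT V (Tens E X) →L[ℂ] Tens (tensV V E) X :=
  ptLift (teTri_bilin (alphaTri' (V := V) (E := E) (X := X)) (fun v i e x => by
    rw [← tensV_op, te_op]))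

lemma alphaInv_te (v : V) (e : E) (x : X) :
    alphaInv V E X (pt v (te e x)) = te (N := tensV V E) (pt v e) x := by
  unfold alphaInv
  rw [ptLift_pt, teTri_te]

lemma alpha_alphaInv (z : PT V (Tens E X)) : alpha V E X (alphaInv V E X z) = z := by
  refine clm_pt_ext (f := (alpha V E X).comp (alphaInv V E X))
    (g := ContinuousLinearMap.id ℂ _) (fun v w => ?_) z
  refine bil_te_ext (bil_post (pt_isContBilin (X := V) (Y := Tens E X))
    ((alpha V E X).comp (alphaInv V E X))) (pt_isContBilin (X := V) (Y := Tens E X))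
    (fun v e x => ?_) v w
  rw [ContinuousLinearMap.comp_apply, alphaInv_te, alpha_te]

lemma alphaInv_alpha (z : Tens (tensV V E) X) : alphaInv V E X (alpha V E X z) = z := by
  refine clm_te_ext (f := (alphaInv V E X).comp (alpha V E X))
    (g := ContinuousLinearMap.id ℂ _) (fun t x => ?_) z
  refine bil_pt_ext (bil_flip (bil_post (te_isContBilin (N := tensV V E) (X := X))
    ((alphaInv V E X).comp (alpha V E X)))) (bil_flip (te_isContBilin (N := tensV V E) (X := X)))
    (fun x v e => ?_) x t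
  rw [ContinuousLinearMap.comp_apply, alpha_te, alphaInv_te]

end TensV

section Left

variable {A : Type u} [NonUnitalRing A] [Module ℂ A] [UniformSpace A] [IsFre A]

/-- left multiplication -/
def mulL (hA : IsFAlg A) (b : A) : A →L[ℂ] A := bilR hA b

@[simp] lemma mulL_apply (hA : IsFAlg A) (b a : A) : mulL hA b a = b * a := rfl

section M

variable {M : FMod.{u, u} A}

/-- the action map `A ⊗̂ M → M` -/
def act (hM : IsLeftMod A M) : PT A M →L[ℂ] M := ptLift hM.cont

@[simp] lemma act_pt (hM : IsLeftMod A M) (a : A) (m : M) : act hM (pt a m) = M.op a m :=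
  ptLift_pt _ _ _

/-- `b • (a ⊗ m) = ba ⊗ m` -/
lemma lmulTri (hA : IsFAlg A) (W : Type u) [AddCommGroup W] [Module ℂ W] [UniformSpace W]
    [IsFre W] : IsTri (fun (b a : A) (m : W) => pt (b * a) m) :=
  tri_left (pt_isContBilin (X := A) (Y := W)) hA

lemma lmul_bilin (hA : IsFAlg A) (W : Type u) [AddCommGroup W] [Module ℂ W] [UniformSpace W]
    [IsFre W] : IsContBilin (fun (b : A) (t : PT A W) =>
      ptMap (mulL hA b) (ContinuousLinearMap.id ℂ W) t) := by
  have h := ptTri_bilin (lmulTri hA W)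
  have e : (fun (b : A) (t : PT A W) => ptMap (mulL hA b) (ContinuousLinearMap.id ℂ W) t) =
      ptTri (lmulTri hA W) := by
    funext b t
    refine clm_pt_ext (f := ptMap (mulL hA b) (ContinuousLinearMap.id ℂ W))
      (g := bilR h b) (fun a m => ?_) t
    rw [ptMap_pt, bilR_apply, ptTri_pt]
    rfl
  rw [e]
  exact h

/-- the operator `t ↦ b t - b ⊗ μ t` on `A ⊗̂ M` -/
def kOp (hA : IsFAlg A) (hM : IsLeftMod A M) (b : A) : PT A M →L[ℂ] PT A M :=
  ptMap (mulL hA b) (ContinuousLinearMap.id ℂ M) - (bilR pt_isContBilin b).comp (act hM)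

lemma kOp_pt (hA : IsFAlg A) (hM : IsLeftMod A M) (b a : A) (m : M) :
    kOp hA hM b (pt a m) = pt (b * a) m - pt b (M.op a m) := by
  unfold kOp
  rw [ContinuousLinearMap.sub_apply, ptMap_pt, ContinuousLinearMap.comp_apply, act_pt]
  rfl

lemma kOp_bilin (hA : IsFAlg A) (hM : IsLeftMod A M) :
    IsContBilin (fun (b : A) (t : PT A M) => kOp hA hM b t) :=
  bil_sub (lmul_bilin hA M) (bil_pre (pt_isContBilin (X := A) (Y := M))
    (ContinuousLinearMap.id ℂ A) (act hM))

lemma kOp_mul (hA : IsFAlg A) (hM : IsLeftMod A M) (a b : A) (t : PT A M) :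
    kOp hA hM (a * b) t = kOp hA hM a (kOp hA hM b t) := by
  refine clm_pt_ext (f := kOp hA hM (a * b)) (g := (kOp hA hM a).comp (kOp hA hM b))
    (fun c m => ?_) t
  rw [ContinuousLinearMap.comp_apply, kOp_pt, kOp_pt, map_sub, kOp_pt, kOp_pt, mul_assoc, hM.mul]
  abel

/-- the left module `A ⊗̂ M` with `b (a ⊗ m) = ba ⊗ m - b ⊗ am` (the kernel of `A_+ ⊗̂ M → M`) -/
abbrev Km (hA : IsFAlg A) (hM : IsLeftMod A M) : FMod.{u, u} A where
  carrier := PT A M
  op b := kOp hA hM b

lemma Km_isLeft (hA : IsFAlg A) (hM : IsLeftMod A M) : IsLeftMod A (Km hA hM) :=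
  ⟨kOp_bilin hA hM, kOp_mul hA hM⟩

instance prodFrechet {X Y : Type u} [AddCommGroup X] [Module ℂ X] [UniformSpace X]
    [IsFre X] [AddCommGroup Y] [Module ℂ Y] [UniformSpace Y] [IsFre Y] :
    IsFre (X × Y) where
  uniformAddGroup := inferInstance
  continuousSMul := inferInstance
  polynormable := inferInstance
  t2 := inferInstance
  complete := inferInstance
  firstCountable := inferInstance

/-- the operator `(m, t) ↦ (0, b ⊗ m + b t)` -/
def pOp (hA : IsFAlg A) (M : FMod.{u, u} A) (b : A) : (M × PT A M) →L[ℂ] (M × PT A M) :=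
  (ContinuousLinearMap.inr ℂ M (PT A M)).comp
    ((bilR pt_isContBilin b).comp (ContinuousLinearMap.fst ℂ M (PT A M)) +
      (ptMap (mulL hA b) (ContinuousLinearMap.id ℂ M)).comp
        (ContinuousLinearMap.snd ℂ M (PT A M)))

lemma pOp_apply (hA : IsFAlg A) (b : A) (m : M) (t : PT A M) :
    pOp hA M b (m, t) = (0, pt b m + ptMap (mulL hA b) (ContinuousLinearMap.id ℂ M) t) := rfl

/-- the left module `A_+ ⊗̂ M = M ⊕ (A ⊗̂ M)` -/
abbrev Pm (hA : IsFAlg A) (M : FMod.{u, u} A) : FMod.{u, u} A where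
  carrier := M × PT A M
  op b := pOp hA M b

lemma Pm_isLeft (hA : IsFAlg A) (M : FMod.{u, u} A) : IsLeftMod A (Pm hA M) where
  cont := by
    have h1 : IsContBilin (fun (b : A) (z : M × PT A M) => pt b z.1) :=
      bil_pre (pt_isContBilin (X := A) (Y := M)) (ContinuousLinearMap.id ℂ A)
        (ContinuousLinearMap.fst ℂ M (PT A M))
    have h2 : IsContBilin (fun (b : A) (z : M × PT A M) =>
        ptMap (mulL hA b) (ContinuousLinearMap.id ℂ M) z.2) :=
      bil_pre (lmul_bilin hA M) (ContinuousLinearMap.id ℂ A)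
        (ContinuousLinearMap.snd ℂ M (PT A M))
    exact bil_post (bil_add h1 h2) (ContinuousLinearMap.inr ℂ M (PT A M))
  mul := by
    rintro a b ⟨m, t⟩
    change pOp hA M (a * b) (m, t) = pOp hA M a (pOp hA M b (m, t))
    rw [pOp_apply, pOp_apply, pOp_apply, pt_isContBilin.zero_right, zero_add, map_add, ptMap_pt,
      ptMap_comp]
    have : mulL hA (a * b) = (mulL hA a).comp (mulL hA b) :=
      ContinuousLinearMap.ext fun c => mul_assoc a b c
    rw [this]
    rfl

/-- `A ⊗̂ M → A_+ ⊗̂ M`, `t ↦ (-μ t, t)` -/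
def kap (hA : IsFAlg A) (hM : IsLeftMod A M) : FHom (Km hA hM) (Pm hA M) where
  toCLM := (-(act hM)).prod (ContinuousLinearMap.id ℂ (PT A M))
  comm b t := by
    change (-(act hM (kOp hA hM b t)), kOp hA hM b t) = pOp hA M b (-(act hM t), t)
    rw [pOp_apply]
    refine Prod.ext ?_ ?_
    · change -(act hM (kOp hA hM b t)) = 0
      rw [neg_eq_zero]
      refine clm_pt_ext (f := (act hM).comp (kOp hA hM b)) (g := 0) (fun a m => ?_) t
      rw [ContinuousLinearMap.comp_apply, kOp_pt, map_sub, act_pt, act_pt, hM.mul, sub_self]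
      rfl
    · change kOp hA hM b t = pt b (-(act hM t)) + _
      unfold kOp
      rw [pt_isContBilin.neg_right, ContinuousLinearMap.sub_apply, ContinuousLinearMap.comp_apply,
        bilR_apply]
      abel

lemma kap_apply (hA : IsFAlg A) (hM : IsLeftMod A M) (t : PT A M) :
    (kap hA hM).toCLM t = (-(act hM t), t) := rfl

/-- `A_+ ⊗̂ M → M`, `(m, t) ↦ m + μ t` -/
def pim (hA : IsFAlg A) (hM : IsLeftMod A M) : FHom (Pm hA M) M where
  toCLM := ContinuousLinearMap.fst ℂ M (PT A M) + (act hM).comp (ContinuousLinearMap.snd ℂ M (PT A M))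
  comm b z := by
    obtain ⟨m, t⟩ := z
    change 0 + act hM (pt b m + ptMap (mulL hA b) (ContinuousLinearMap.id ℂ M) t) =
      M.op b (m + act hM t)
    rw [zero_add, map_add, map_add, act_pt]
    congr 1
    refine clm_pt_ext (f := (act hM).comp (ptMap (mulL hA b) (ContinuousLinearMap.id ℂ M)))
      (g := (M.op b).comp (act hM)) (fun a m => ?_) t
    rw [ContinuousLinearMap.comp_apply, ContinuousLinearMap.comp_apply, ptMap_pt, act_pt, act_pt,
      mulL_apply, hM.mul]
    rfl

lemma pim_apply (hA : IsFAlg A) (hM : IsLeftMod A M) (m : M) (t : PT A M) :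
    (pim hA hM).toCLM (m, t) = m + act hM t := rfl

/-- a convenient criterion -/
lemma admissible_of {ι : Type v} {E F G : FMod.{u, v} ι} {i : FHom E F} {p : FHom F G}
    (r : F →L[ℂ] E) (s : G →L[ℂ] F) (h1 : ∀ x, r (i.toCLM x) = x)
    (h2 : ∀ z, p.toCLM (s z) = z) (h3 : ∀ y, i.toCLM (r y) + s (p.toCLM y) = y) :
    Admissible i p := by
  have h4 : ∀ x, p.toCLM (i.toCLM x) = 0 := by
    intro x
    have := h3 (i.toCLM x)
    rw [h1] at this
    have h5 : s (p.toCLM (i.toCLM x)) = 0 := by
      rwa [add_eq_left] at this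
    have h6 := h2 (p.toCLM (i.toCLM x))
    rw [h5, map_zero] at h6
    exact h6.symm
  refine ⟨⟨?_, ?_, ?_⟩, r, s, h1, h2, h3⟩
  · intro x y hxy
    have : r (i.toCLM x) = r (i.toCLM y) := congrArg r hxy
    rwa [h1, h1] at this
  · intro y
    constructor
    · intro hy
      refine ⟨r y, ?_⟩
      have := h3 y
      have hy' : p.toCLM y = 0 := hy
      rw [hy', map_zero, add_zero] at this
      exact this
    · rintro ⟨x, rfl⟩
      exact h4 x
  · intro z
    exact ⟨s z, h2 z⟩

lemma kap_pim_admissible (hA : IsFAlg A) (hM : IsLeftMod A M) :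
    Admissible (kap hA hM) (pim hA hM) :=
  admissible_of (ContinuousLinearMap.snd ℂ M (PT A M)) (ContinuousLinearMap.inl ℂ M (PT A M))
    (fun _ => rfl) (fun z => by
      change (pim hA hM).toCLM (z, 0) = z
      rw [pim_apply, map_zero, add_zero]) (by
      rintro ⟨m, t⟩
      change (-(act hM t), t) + ((m + act hM t, 0) : M × PT A M) = (m, t)
      refine Prod.ext ?_ ?_
      · change -(act hM t) + (m + act hM t) = m
        abel
      · change t + 0 = t
        rw [add_zero])

end M

end Left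

end

end Pool.Agent.Q19.Fre
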