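import Mathlib
import Pool.Agent.Q19.Fre.Mods

/-!
Bimodule constructions and the exact rows and columns.
-/

set_option autoImplicit false

namespace Pool.Agent.Q19.Fre

open Pool.Agent.Helper5 Filter Topology
open Pool.Agent.Q19.FreS (IsFre)

universe u v

noncomputable section

section Gamma

variable {A : Type u} [NonUnitalRing A] [Module ℂ A] [UniformSpace A] [IsFre A]
variable {Y M : FMod.{u, u} A}

lemma gTri (hY : IsRightMod A Y) (M : FMod.{u, u} A) :
    IsTri (fun (y : Y) (a : A) (m : M) => pt (Y.op a y) m) :=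
  tri_left (pt_isContBilin (X := Y) (Y := M)) (bil_flip hY.cont)

lemma gBil (hY : IsRightMod A Y) (M : FMod.{u, u} A) :
    IsContBilin (fun (y : Y) (z : M × PT A M) => pt y z.1 + ptTri (gTri hY M) y z.2) :=
  bil_add (bil_pre (pt_isContBilin (X := Y) (Y := M)) (ContinuousLinearMap.id ℂ Y)
      (ContinuousLinearMap.fst ℂ M (PT A M)))
    (bil_pre (ptTri_bilin (gTri hY M)) (ContinuousLinearMap.id ℂ Y)
      (ContinuousLinearMap.snd ℂ M (PT A M)))

/-- `Y ⊗̂_A (A_+ ⊗̂ M) → Y ⊗̂ M` -/
def gam (hA : IsFAlg A) (hY : IsRightMod A Y) (M : FMod.{u, u} A) :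
    Tens Y (Pm hA M) →L[ℂ] PT Y M :=
  teLift (N := Y) (X := Pm hA M) (gBil hY M) (by
    rintro b y ⟨m, t⟩
    change pt (Y.op b y) m + ptTri (gTri hY M) (Y.op b y) t =
      pt y (0 : M) + ptTri (gTri hY M) y (pt b m + ptMap (mulL hA b) (ContinuousLinearMap.id ℂ M) t)
    rw [pt_isContBilin.zero_right, zero_add, (ptTri_bilin (gTri hY M)).add_right, ptTri_pt]
    congr 1
    refine clm_pt_ext (f := bilR (ptTri_bilin (gTri hY M)) (Y.op b y))
      (g := (bilR (ptTri_bilin (gTri hY M)) y).comp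
        (ptMap (mulL hA b) (ContinuousLinearMap.id ℂ M))) (fun a m => ?_) t
    rw [ContinuousLinearMap.comp_apply, ptMap_pt, bilR_apply, bilR_apply, ptTri_pt, ptTri_pt,
      mulL_apply, hY.mul]
    rfl)

lemma gam_te (hA : IsFAlg A) (hY : IsRightMod A Y) (y : Y) (m : M) (t : PT A M) :
    gam hA hY M (te (X := Pm hA M) y (m, t)) = pt y m + ptTri (gTri hY M) y t := by
  unfold gam
  rw [teLift_te]

lemma mt_bil (hA : IsFAlg A) (Y M : FMod.{u, u} A) :
    IsContBilin (fun (y : Y) (m : M) => te (N := Y) (X := Pm hA M) y (m, 0)) :=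
  bil_pre (te_isContBilin (N := Y) (X := Pm hA M)) (ContinuousLinearMap.id ℂ Y)
    (ContinuousLinearMap.inl ℂ M (PT A M))

/-- the inverse of `gam` -/
def gamInv (hA : IsFAlg A) (Y M : FMod.{u, u} A) :
    PT Y M →L[ℂ] Tens Y (Pm hA M) := ptLift (mt_bil hA Y M)

lemma gamInv_pt (hA : IsFAlg A) (y : Y) (m : M) :
    gamInv hA Y M (pt y m) = te (X := Pm hA M) y (m, 0) := ptLift_pt _ _ _

lemma gam_gamInv (hA : IsFAlg A) (hY : IsRightMod A Y) (z : PT Y M) :
    gam hA hY M (gamInv hA Y M z) = z := by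
  refine clm_pt_ext (f := (gam hA hY M).comp (gamInv hA Y M)) (g := ContinuousLinearMap.id ℂ _)
    (fun y m => ?_) z
  rw [ContinuousLinearMap.comp_apply, gamInv_pt, gam_te, (ptTri_bilin (gTri hY M)).zero_right,
    add_zero]
  rfl

lemma gamInv_tri (hA : IsFAlg A) (hY : IsRightMod A Y) (y : Y) (t : PT A M) :
    gamInv hA Y M (ptTri (gTri hY M) y t) = te (X := Pm hA M) y (0, t) := by
  refine clm_pt_ext (f := (gamInv hA Y M).comp (bilR (ptTri_bilin (gTri hY M)) y))
    (g := (bilR (te_isContBilin (N := Y) (X := Pm hA M)) y).comp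
      (ContinuousLinearMap.inr ℂ M (PT A M))) (fun a m => ?_) t
  rw [ContinuousLinearMap.comp_apply, ContinuousLinearMap.comp_apply, bilR_apply, ptTri_pt,
    gamInv_pt, te_op]
  change te (X := Pm hA M) y (0, pt a m + ptMap (mulL hA a) (ContinuousLinearMap.id ℂ M) 0) =
    te (X := Pm hA M) y (0, pt a m)
  rw [map_zero, add_zero]

lemma gamInv_gam (hA : IsFAlg A) (hY : IsRightMod A Y) (z : Tens Y (Pm hA M)) :
    gamInv hA Y M (gam hA hY M z) = z := by
  refine clm_te_ext (N := Y) (X := Pm hA M) (f := (gamInv hA Y M).comp (gam hA hY M))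
    (g := ContinuousLinearMap.id ℂ _) (fun y z => ?_) z
  obtain ⟨m, t⟩ := z
  rw [ContinuousLinearMap.comp_apply, gam_te, map_add, gamInv_pt, gamInv_tri hA hY,
    ← (te_isContBilin (N := Y) (X := Pm hA M)).add_right, Prod.mk_add_mk, add_zero, zero_add]
  rfl

lemma qmk_tri (hY : IsRightMod A Y) (hM : IsLeftMod A M) (y : Y) (t : PT A M) :
    qmk (relSub Y M) (ptTri (gTri hY M) y t) = te y (act hM t) := by
  refine clm_pt_ext (f := (qmk (relSub Y M)).comp (bilR (ptTri_bilin (gTri hY M)) y))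
    (g := (bilR (te_isContBilin (N := Y) (X := M)) y).comp (act hM)) (fun a m => ?_) t
  rw [ContinuousLinearMap.comp_apply, ContinuousLinearMap.comp_apply, bilR_apply, ptTri_pt,
    act_pt]
  exact te_op a y m

lemma qmk_gam (hA : IsFAlg A) (hY : IsRightMod A Y) (hM : IsLeftMod A M)
    (z : Tens Y (Pm hA M)) :
    qmk (relSub Y M) (gam hA hY M z) = tmap (FHom.id Y) (pim hA hM) z := by
  refine clm_te_ext (N := Y) (X := Pm hA M) (f := (qmk (relSub Y M)).comp (gam hA hY M))
    (g := tmap (FHom.id Y) (pim hA hM)) (fun y z => ?_) z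
  obtain ⟨m, t⟩ := z
  rw [ContinuousLinearMap.comp_apply, gam_te, map_add, qmk_tri hY hM, tmap_te, pim_apply,
    te_isContBilin.add_right]
  rfl

/-- the map `Y ⊗̂_A (A ⊗̂ M) → Y ⊗̂ M` -/
def rowM (hA : IsFAlg A) (hY : IsRightMod A Y) (hM : IsLeftMod A M) :
    Tens Y (Km hA hM) →L[ℂ] PT Y M :=
  (gam hA hY M).comp (tmap (FHom.id Y) (kap hA hM))

/-- the row is exact -/
theorem rowM_exact (hA : IsFAlg A) (hY : IsRightMod A Y) (hYf : FlatRight A Y)
    (hM : IsLeftMod A M) :
    Function.Injective (rowM hA hY hM) ∧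
      ∀ d, qmk (relSub Y M) d = 0 ↔ ∃ w, rowM hA hY hM w = d := by
  obtain ⟨h1, h2, h3⟩ := hYf _ _ _ (Km_isLeft hA hM) (Pm_isLeft hA M) hM _ _
    (kap_pim_admissible hA hM)
  constructor
  · intro x y hxy
    apply h1
    have := congrArg (gamInv hA Y M) hxy
    unfold rowM at this
    rw [ContinuousLinearMap.comp_apply, ContinuousLinearMap.comp_apply, gamInv_gam,
      gamInv_gam] at this
    exact this
  · intro d
    have e : qmk (relSub Y M) d = tmap (FHom.id Y) (pim hA hM) (gamInv hA Y M d) := by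
      rw [← qmk_gam hA hY hM, gam_gamInv]
    rw [e]
    refine (h2 (gamInv hA Y M d)).trans ?_
    constructor
    · rintro ⟨w, hw⟩
      refine ⟨w, ?_⟩
      unfold rowM
      have hw' : tmap (FHom.id Y) (kap hA hM) w = gamInv hA Y M d := hw
      rw [ContinuousLinearMap.comp_apply, hw', gam_gamInv]
    · rintro ⟨w, rfl⟩
      refine ⟨w, ?_⟩
      unfold rowM
      rw [ContinuousLinearMap.comp_apply, gamInv_gam]

end Gamma

section Bi

variable {A : Type u} [NonUnitalRing A] [Module ℂ A] [UniformSpace A] [IsFre A]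
variable {E F G : FMod.{u, u} (A ⊕ A)}

/-- the left multiplication by `b` is an endomorphism of the right module -/
def lHom (hE : IsBimod A E) (b : A) : FHom E.right E.right :=
  ⟨E.op (Sum.inl b), fun a m => hE.comm b a m⟩

/-- the underlying morphism of right modules -/
def FHom.right (f : FHom E F) : FHom E.right F.right :=
  ⟨f.toCLM, fun a m => f.comm (Sum.inr a) m⟩

/-- the underlying morphism of left modules -/
def FHom.left (f : FHom E F) : FHom E.left F.left :=
  ⟨f.toCLM, fun a m => f.comm (Sum.inl a) m⟩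

/-- `E ⊗̂_A X` as a left module -/
abbrev ME (hE : IsBimod A E) (X : FMod.{u, u} A) : FMod.{u, u} A where
  carrier := Tens E.right X
  op b := tmap (lHom hE b) (FHom.id X)

lemma meTri (hE : IsBimod A E) (X : FMod.{u, u} A) :
    IsTri (fun (b : A) (e : E) (x : X) => te (N := E.right) (X := X) (E.op (Sum.inl b) e) x) :=
  tri_left (te_isContBilin (N := E.right) (X := X)) hE.left.cont

lemma ME_op_te (hE : IsBimod A E) (X : FMod.{u, u} A) (b : A) (n : E.right) (x : X) :
    (ME hE X).op b (te (N := E.right) n x) = te (N := E.right) (E.left.op b n) x :=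
  tmap_te (lHom hE b) (FHom.id X) n x

lemma ME_isLeft (hE : IsBimod A E) (X : FMod.{u, u} A) : IsLeftMod A (ME hE X) where
  cont := by
    have hb : ∀ (v : A) (i : A) (n : E.right) (x : X),
        te (N := E.right) (X := X) (E.op (Sum.inl v) (E.right.op i n)) x =
        te (N := E.right) (X := X) (E.op (Sum.inl v) n) (X.op i x) := by
      intro v i n x
      change te (N := E.right) (X := X) (E.op (Sum.inl v) (E.op (Sum.inr i) n)) x = _
      rw [hE.comm]
      exact te_op (N := E.right) i _ x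
    have h := teTri_bilin (N := E.right) (X := X) (meTri hE X) hb
    have e : (fun (b : A) (z : ME hE X) => (ME hE X).op b z) =
        teTri (N := E.right) (X := X) (meTri hE X) hb := by
      funext b z
      refine clm_te_ext (f := (ME hE X).op b) (g := bilR h b) (fun n x => ?_) z
      rw [bilR_apply, teTri_te]
      exact tmap_te _ _ _ _
    rw [e]
    exact h
  mul := by
    intro a b z
    refine clm_te_ext (f := (ME hE X).op (a * b)) (g := ((ME hE X).op a).comp ((ME hE X).op b))
      (fun n x => ?_) z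
    rw [ContinuousLinearMap.comp_apply, ME_op_te, ME_op_te, ME_op_te, hE.left.mul]

/-- functoriality of `E ↦ E ⊗̂_A X` -/
def MEhom (hE : IsBimod A E) (hF : IsBimod A F) (f : FHom E F) (X : FMod.{u, u} A) :
    FHom (ME hE X) (ME hF X) where
  toCLM := tmap f.right (FHom.id X)
  comm b z := by
    refine clm_te_ext (f := (tmap f.right (FHom.id X)).comp ((ME hE X).op b))
      (g := ((ME hF X).op b).comp (tmap f.right (FHom.id X))) (fun n x => ?_) z
    rw [ContinuousLinearMap.comp_apply, ContinuousLinearMap.comp_apply, ME_op_te, tmap_te, tmap_te,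
      ME_op_te]
    exact congrArg (fun e => te (N := F.right) (X := X) e x) (f.comm (Sum.inl b) n)

/-- the bimodule `A ⊗̂ E` with `b (a ⊗ e) = ba ⊗ e - b ⊗ ae` and `(a ⊗ e) b = a ⊗ eb` -/
abbrev Kb (hA : IsFAlg A) (hE : IsBimod A E) : FMod.{u, u} (A ⊕ A) where
  carrier := PT A E
  op := Sum.elim (fun b => kOp hA hE.left b)
    (fun b => ptMap (ContinuousLinearMap.id ℂ A) (E.op (Sum.inr b)))

lemma tensV_isRight {V : Type u} [AddCommGroup V] [Module ℂ V] [UniformSpace V] [IsFre V]
    {N : FMod.{u, u} A} (hN : IsRightMod A N) : IsRightMod A (tensV V N) where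
  cont := by
    have hT : IsTri (fun (b : A) (v : V) (n : N) => pt v (N.op b n)) :=
      (tri_right (pt_isContBilin (X := V) (Y := N)) hN.cont).swap12
    have h := ptTri_bilin hT
    have e : (fun (b : A) (z : tensV V N) => (tensV V N).op b z) = ptTri hT := by
      funext b z
      refine clm_pt_ext (f := (tensV V N).op b) (g := bilR h b) (fun v n => ?_) z
      rw [bilR_apply, ptTri_pt]
      exact tensV_op _ _ _
    rw [e]
    exact h
  mul := by
    intro a b z
    refine clm_pt_ext (f := (tensV V N).op (a * b))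
      (g := ((tensV V N).op b).comp ((tensV V N).op a)) (fun v n => ?_) z
    rw [ContinuousLinearMap.comp_apply, tensV_op, tensV_op, tensV_op, hN.mul]

lemma Kb_isBimod (hA : IsFAlg A) (hE : IsBimod A E) : IsBimod A (Kb hA hE) where
  left := ⟨kOp_bilin hA hE.left, kOp_mul hA hE.left⟩
  right := tensV_isRight (V := A) hE.right
  comm := by
    intro a b t
    change kOp hA hE.left a (ptMap (ContinuousLinearMap.id ℂ A) (E.op (Sum.inr b)) t) =
      ptMap (ContinuousLinearMap.id ℂ A) (E.op (Sum.inr b)) (kOp hA hE.left a t)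
    refine clm_pt_ext
      (f := (kOp hA hE.left a).comp (ptMap (ContinuousLinearMap.id ℂ A) (E.op (Sum.inr b))))
      (g := (ptMap (ContinuousLinearMap.id ℂ A) (E.op (Sum.inr b))).comp (kOp hA hE.left a))
      (fun c e => ?_) t
    rw [ContinuousLinearMap.comp_apply, ContinuousLinearMap.comp_apply, ptMap_pt, kOp_pt, kOp_pt,
      map_sub, ptMap_pt, ptMap_pt]
    have key : E.left.op c (E.op (Sum.inr b) e) = E.op (Sum.inr b) (E.left.op c e) :=
      hE.comm c b e
    rw [← key]
    rfl

/-- functoriality of `K` -/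
def KbHom (hA : IsFAlg A) (hE : IsBimod A E) (hF : IsBimod A F) (f : FHom E F) :
    FHom (Kb hA hE) (Kb hA hF) where
  toCLM := ptMap (ContinuousLinearMap.id ℂ A) f.toCLM
  comm := by
    rintro (b | b) t
    · change ptMap (ContinuousLinearMap.id ℂ A) f.toCLM (kOp hA hE.left b t) =
        kOp hA hF.left b (ptMap (ContinuousLinearMap.id ℂ A) f.toCLM t)
      refine clm_pt_ext
        (f := (ptMap (ContinuousLinearMap.id ℂ A) f.toCLM).comp (kOp hA hE.left b))
        (g := (kOp hA hF.left b).comp (ptMap (ContinuousLinearMap.id ℂ A) f.toCLM))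
        (fun c e => ?_) t
      rw [ContinuousLinearMap.comp_apply, ContinuousLinearMap.comp_apply, ptMap_pt, kOp_pt, kOp_pt,
        map_sub, ptMap_pt, ptMap_pt]
      have key : f.toCLM (E.left.op c e) = F.left.op c (f.toCLM e) := f.comm (Sum.inl c) e
      rw [key]
      rfl
    · exact (tensVHom (V := A) f.right).comm b t

lemma KbHom_pt (hA : IsFAlg A) (hE : IsBimod A E) (hF : IsBimod A F) (f : FHom E F) (a : A)
    (e : E) : (KbHom hA hE hF f).toCLM (pt a e) = pt a (f.toCLM e) := ptMap_pt _ _ _ _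

end Bi

section Adm

variable {V : Type u} [AddCommGroup V] [Module ℂ V] [UniformSpace V] [IsFre V]

/-- the tensor product by `V` preserves splittings -/
lemma tens_split {E F G : Type u} [AddCommGroup E] [Module ℂ E] [UniformSpace E] [IsFre E]
    [AddCommGroup F] [Module ℂ F] [UniformSpace F] [IsFre F]
    [AddCommGroup G] [Module ℂ G] [UniformSpace G] [IsFre G]
    (i : E →L[ℂ] F) (p : F →L[ℂ] G) (r : F →L[ℂ] E) (s : G →L[ℂ] F)
    (h1 : ∀ x, r (i x) = x) (h2 : ∀ z, p (s z) = z) (h3 : ∀ y, i (r y) + s (p y) = y) :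
    (∀ x, ptMap (ContinuousLinearMap.id ℂ V) r (ptMap (ContinuousLinearMap.id ℂ V) i x) = x) ∧
    (∀ x, ptMap (ContinuousLinearMap.id ℂ V) p (ptMap (ContinuousLinearMap.id ℂ V) s x) = x) ∧
    (∀ x, ptMap (ContinuousLinearMap.id ℂ V) i (ptMap (ContinuousLinearMap.id ℂ V) r x) +
      ptMap (ContinuousLinearMap.id ℂ V) s (ptMap (ContinuousLinearMap.id ℂ V) p x) = x) := by
  refine ⟨fun z => ?_, fun z => ?_, fun z => ?_⟩
  · refine clm_pt_ext (f := (ptMap (ContinuousLinearMap.id ℂ V) r).comp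
      (ptMap (ContinuousLinearMap.id ℂ V) i)) (g := ContinuousLinearMap.id ℂ _) (fun v x => ?_) z
    rw [ContinuousLinearMap.comp_apply, ptMap_pt, ptMap_pt, h1]
    rfl
  · refine clm_pt_ext (f := (ptMap (ContinuousLinearMap.id ℂ V) p).comp
      (ptMap (ContinuousLinearMap.id ℂ V) s)) (g := ContinuousLinearMap.id ℂ _) (fun v x => ?_) z
    rw [ContinuousLinearMap.comp_apply, ptMap_pt, ptMap_pt, h2]
    rfl
  · refine clm_pt_ext (f := (ptMap (ContinuousLinearMap.id ℂ V) i).comp
      (ptMap (ContinuousLinearMap.id ℂ V) r) + (ptMap (ContinuousLinearMap.id ℂ V) s).comp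
      (ptMap (ContinuousLinearMap.id ℂ V) p)) (g := ContinuousLinearMap.id ℂ _) (fun v x => ?_) z
    rw [add_apply, ContinuousLinearMap.comp_apply, ContinuousLinearMap.comp_apply, ptMap_pt,
      ptMap_pt, ptMap_pt, ptMap_pt, ← pt_isContBilin.add_right, ContinuousLinearMap.id_apply, h3]
    rfl

lemma tensV_admissible {ι : Type v} {E F G : FMod.{u, v} ι} {i : FHom E F} {p : FHom F G}
    (h : Admissible i p) : Admissible (tensVHom (V := V) i) (tensVHom (V := V) p) := by
  obtain ⟨_, r, s, h1, h2, h3⟩ := h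
  obtain ⟨k1, k2, k3⟩ := tens_split (V := V) i.toCLM p.toCLM r s h1 h2 h3
  exact admissible_of (ptMap (ContinuousLinearMap.id ℂ V) r) (ptMap (ContinuousLinearMap.id ℂ V) s)
    k1 k2 k3

variable {A : Type u} [NonUnitalRing A] [Module ℂ A] [UniformSpace A] [IsFre A]
variable {E F G : FMod.{u, u} (A ⊕ A)}

lemma Kb_admissible (hA : IsFAlg A) (hE : IsBimod A E) (hF : IsBimod A F) (hG : IsBimod A G)
    {i : FHom E F} {p : FHom F G} (h : Admissible i p) :
    Admissible (KbHom hA hE hF i) (KbHom hA hF hG p) := by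
  obtain ⟨_, r, s, h1, h2, h3⟩ := h
  obtain ⟨k1, k2, k3⟩ := tens_split (V := A) i.toCLM p.toCLM r s h1 h2 h3
  exact admissible_of (ptMap (ContinuousLinearMap.id ℂ A) r) (ptMap (ContinuousLinearMap.id ℂ A) s)
    k1 k2 k3

lemma right_admissible {i : FHom E F} {p : FHom F G} (h : Admissible i p) :
    Admissible i.right p.right := h

end Adm

end

end Pool.Agent.Q19.Fre
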