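import Mathlib
import Pool.Agent.Q19.Fre.Mods2

/-!
The diagram chase.
-/

set_option autoImplicit false

namespace Pool.Agent.Q19.Fre

open Pool.Agent.Helper5 Filter Topology
open Pool.Agent.Q19.FreS (IsFre)

universe u v

noncomputable section

variable {A : Type u} [NonUnitalRing A] [Module ℂ A] [UniformSpace A] [IsFre A]
variable {E F G : FMod.{u, u} (A ⊕ A)} {X Y : FMod.{u, u} A}

/-- `(A ⊗̂ E) ⊗̂_A X → A ⊗̂ (E ⊗̂_A X)` as a morphism of left modules -/
def aHom (hA : IsFAlg A) (hE : IsBimod A E) (X : FMod.{u, u} A) :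
    FHom (ME (Kb_isBimod hA hE) X) (Km hA (ME_isLeft hE X)) where
  toCLM := alpha A E.right X
  comm b z := by
    refine clm_te_ext (N := tensV A E.right)
      (f := (alpha A E.right X).comp ((ME (Kb_isBimod hA hE) X).op b))
      (g := (kOp hA (ME_isLeft hE X) b).comp (alpha A E.right X)) (fun t x => ?_) z
    refine bil_pt_ext (V := X) (X := A) (Y := E)
      (B := fun x t => ((alpha A E.right X).comp ((ME (Kb_isBimod hA hE) X).op b))
        (te (N := tensV A E.right) t x))
      (C := fun x t => ((kOp hA (ME_isLeft hE X) b).comp (alpha A E.right X))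
        (te (N := tensV A E.right) t x))
      (bil_flip (bil_post (te_isContBilin (N := tensV A E.right) (X := X)) _))
      (bil_flip (bil_post (te_isContBilin (N := tensV A E.right) (X := X)) _))
      (fun x a e => ?_) x t
    have e1 : ((alpha A E.right X).comp ((ME (Kb_isBimod hA hE) X).op b))
        (te (N := tensV A E.right) (pt a e) x) =
        alpha A E.right X (te (N := tensV A E.right) (kOp hA hE.left b (pt a e)) x) :=
      congrArg (alpha A E.right X) (ME_op_te (Kb_isBimod hA hE) X b (pt a e) x)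
    refine e1.trans ?_
    rw [kOp_pt, te_isContBilin.sub_left, map_sub, alpha_te, alpha_te,
      ContinuousLinearMap.comp_apply, alpha_te, kOp_pt, ME_op_te]

/-- the inverse of `aHom` -/
def aHomInv (hA : IsFAlg A) (hE : IsBimod A E) (X : FMod.{u, u} A) :
    FHom (Km hA (ME_isLeft hE X)) (ME (Kb_isBimod hA hE) X) where
  toCLM := alphaInv A E.right X
  comm b z := by
    have h := (aHom hA hE X).comm b (alphaInv A E.right X z)
    have h2 : (aHom hA hE X).toCLM (alphaInv A E.right X z) = z := alpha_alphaInv z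
    rw [h2] at h
    have h3 := congrArg (alphaInv A E.right X) h
    have h4 : alphaInv A E.right X ((aHom hA hE X).toCLM
        ((ME (Kb_isBimod hA hE) X).op b (alphaInv A E.right X z))) =
        (ME (Kb_isBimod hA hE) X).op b (alphaInv A E.right X z) := alphaInv_alpha _
    rw [h4] at h3
    exact h3.symm

/-- the map `Y ⊗̂_A ((A ⊗̂ E) ⊗̂_A X) → Y ⊗̂ (E ⊗̂_A X)` -/
def rowE (hA : IsFAlg A) (hY : IsRightMod A Y) (hE : IsBimod A E) (X : FMod.{u, u} A) :
    Tens Y (ME (Kb_isBimod hA hE) X) →L[ℂ] PT Y (Tens E.right X) :=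
  (rowM hA hY (ME_isLeft hE X)).comp (tmap (FHom.id Y) (aHom hA hE X))

theorem rowE_exact (hA : IsFAlg A) (hY : IsRightMod A Y) (hYf : FlatRight A Y)
    (hE : IsBimod A E) (X : FMod.{u, u} A) :
    Function.Injective (rowE hA hY hE X) ∧
      ∀ d, qmk (relSub Y (ME hE X)) d = 0 ↔ ∃ w, rowE hA hY hE X w = d := by
  obtain ⟨h1, h2⟩ := rowM_exact hA hY hYf (ME_isLeft hE X)
  have k1 : ∀ z, tmap (FHom.id Y) (aHomInv hA hE X) (tmap (FHom.id Y) (aHom hA hE X) z) = z := by
    intro z
    rw [tmap_comp]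
    have : (aHomInv hA hE X).comp (aHom hA hE X) = FHom.id _ :=
      FHom.ext' fun m => alphaInv_alpha _
    rw [this]
    exact tmap_id z
  have k2 : ∀ z, tmap (FHom.id Y) (aHom hA hE X) (tmap (FHom.id Y) (aHomInv hA hE X) z) = z := by
    intro z
    rw [tmap_comp]
    have : (aHom hA hE X).comp (aHomInv hA hE X) = FHom.id _ :=
      FHom.ext' fun m => alpha_alphaInv _
    rw [this]
    exact tmap_id z
  constructor
  · intro z w hzw
    have h5 : tmap (FHom.id Y) (aHom hA hE X) z = tmap (FHom.id Y) (aHom hA hE X) w := h1 hzw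
    have := congrArg (tmap (FHom.id Y) (aHomInv hA hE X)) h5
    rwa [k1, k1] at this
  · intro d
    rw [h2]
    constructor
    · rintro ⟨w, hw⟩
      refine ⟨tmap (FHom.id Y) (aHomInv hA hE X) w, ?_⟩
      unfold rowE
      rw [ContinuousLinearMap.comp_apply, k2, hw]
    · rintro ⟨w, hw⟩
      exact ⟨_, hw⟩

lemma rowE_te (hA : IsFAlg A) (hY : IsRightMod A Y) (hE : IsBimod A E) (X : FMod.{u, u} A)
    (y : Y) (a : A) (e : E) (x : X) :
    rowE hA hY hE X (te (X := ME (Kb_isBimod hA hE) X) y (te (N := tensV A E.right) (pt a e) x)) =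
      pt (Y.op a y) (te (N := E.right) e x) - pt y (te (N := E.right) (E.left.op a e) x) := by
  unfold rowE rowM
  rw [ContinuousLinearMap.comp_apply, ContinuousLinearMap.comp_apply, tmap_te, tmap_te]
  have e1 : (aHom hA hE X).toCLM (te (N := tensV A E.right) (pt a e) x) =
      pt a (te (N := E.right) e x) := alpha_te (V := A) (E := E.right) (X := X) a e x
  rw [e1, kap_apply, gam_te, ptTri_pt, act_pt, ME_op_te, pt_isContBilin.neg_right]
  rw [sub_eq_add_neg, add_comm]
  rfl

/-- the map `Y ⊗̂ (E ⊗̂_A X) → Y ⊗̂ (F ⊗̂_A X)` -/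
def dMap (Y : FMod.{u, u} A) (f : FHom E F) (X : FMod.{u, u} A) :
    PT Y (Tens E.right X) →L[ℂ] PT Y (Tens F.right X) :=
  ptMap (ContinuousLinearMap.id ℂ Y) (tmap f.right (FHom.id X))

lemma dMap_pt (f : FHom E F) (y : Y) (w : Tens E.right X) :
    dMap Y f X (pt y w) = pt y (tmap f.right (FHom.id X) w) := ptMap_pt _ _ _ _

/-- the map `Y ⊗̂_A (E ⊗̂_A X) → Y ⊗̂_A (F ⊗̂_A X)` -/
def uMap (Y : FMod.{u, u} A) (hE : IsBimod A E) (hF : IsBimod A F) (f : FHom E F)
    (X : FMod.{u, u} A) : Tens Y (ME hE X) →L[ℂ] Tens Y (ME hF X) :=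
  tmap (FHom.id Y) (MEhom hE hF f X)

lemma uMap_qmk (hE : IsBimod A E) (hF : IsBimod A F) (f : FHom E F)
    (d : PT Y (Tens E.right X)) :
    uMap Y hE hF f X (qmk (relSub Y (ME hE X)) d) =
      qmk (relSub Y (ME hF X)) (dMap Y f X d) := by
  refine clm_pt_ext (f := (uMap Y hE hF f X).comp (qmk (relSub Y (ME hE X))))
    (g := (qmk (relSub Y (ME hF X))).comp (dMap Y f X)) (fun y w => ?_) d
  rw [ContinuousLinearMap.comp_apply, ContinuousLinearMap.comp_apply, dMap_pt]
  exact tmap_te (FHom.id Y) (MEhom hE hF f X) y w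

/-- naturality of the rows -/
lemma row_nat (hA : IsFAlg A) (hY : IsRightMod A Y) (hE : IsBimod A E) (hF : IsBimod A F)
    (f : FHom E F) (w : Tens Y (ME (Kb_isBimod hA hE) X)) :
    dMap Y f X (rowE hA hY hE X w) =
      rowE hA hY hF X (uMap Y (Kb_isBimod hA hE) (Kb_isBimod hA hF) (KbHom hA hE hF f) X w) := by
  refine clm_te_ext (N := Y) (X := ME (Kb_isBimod hA hE) X)
    (f := (dMap Y f X).comp (rowE hA hY hE X))
    (g := (rowE hA hY hF X).comp
      (uMap Y (Kb_isBimod hA hE) (Kb_isBimod hA hF) (KbHom hA hE hF f) X)) (fun y z => ?_) w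
  refine bil_te_ext (V := Y) (N := tensV A E.right) (X := X)
    (B := fun y z => ((dMap Y f X).comp (rowE hA hY hE X)) (te (X := ME (Kb_isBimod hA hE) X) y z))
    (C := fun y z => ((rowE hA hY hF X).comp
      (uMap Y (Kb_isBimod hA hE) (Kb_isBimod hA hF) (KbHom hA hE hF f) X))
        (te (X := ME (Kb_isBimod hA hE) X) y z))
    (bil_post (te_isContBilin (N := Y) (X := ME (Kb_isBimod hA hE) X)) _)
    (bil_post (te_isContBilin (N := Y) (X := ME (Kb_isBimod hA hE) X)) _) (fun y t x => ?_) y z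
  -- now `t : A ⊗̂ E`
  have hb : IsContBilin (fun (t : PT A E) (x : X) => te (N := tensV A E.right) (X := X) t x) :=
    te_isContBilin (N := tensV A E.right) (X := X)
  refine clm_pt_ext (X := A) (Y := E)
    (f := ((dMap Y f X).comp (rowE hA hY hE X)).comp
      ((bilR (te_isContBilin (N := Y) (X := ME (Kb_isBimod hA hE) X)) y).comp (bilL hb x)))
    (g := ((rowE hA hY hF X).comp
      (uMap Y (Kb_isBimod hA hE) (Kb_isBimod hA hF) (KbHom hA hE hF f) X)).comp
      ((bilR (te_isContBilin (N := Y) (X := ME (Kb_isBimod hA hE) X)) y).comp (bilL hb x)))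
    (fun a e => ?_) t
  rw [ContinuousLinearMap.comp_apply, ContinuousLinearMap.comp_apply,
    ContinuousLinearMap.comp_apply, ContinuousLinearMap.comp_apply,
    ContinuousLinearMap.comp_apply, bilL_apply, bilR_apply, rowE_te, map_sub, dMap_pt, dMap_pt,
    tmap_te, tmap_te]
  have e1 : uMap Y (Kb_isBimod hA hE) (Kb_isBimod hA hF) (KbHom hA hE hF f) X
      (te (X := ME (Kb_isBimod hA hE) X) y (te (N := tensV A E.right) (pt a e) x)) =
      te (X := ME (Kb_isBimod hA hF) X) y (te (N := tensV A F.right) (pt a (f.toCLM e)) x) := by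
    unfold uMap
    rw [tmap_te]
    have e2 : (MEhom (Kb_isBimod hA hE) (Kb_isBimod hA hF) (KbHom hA hE hF f) X).toCLM
        (te (N := tensV A E.right) (pt a e) x) =
        te (N := tensV A F.right) ((KbHom hA hE hF f).toCLM (pt a e)) x :=
      tmap_te (N := tensV A E.right) (N' := tensV A F.right) (KbHom hA hE hF f).right
        (FHom.id X) (pt a e) x
    rw [e2, KbHom_pt]
    rfl
  refine Eq.trans ?_ (congrArg (rowE hA hY hF X) e1).symm
  rw [rowE_te]
  have e3 : F.left.op a (f.toCLM e) = f.toCLM (E.left.op a e) := (f.comm (Sum.inl a) e).symm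
  rw [e3]
  rfl

/-- the columns `Y ⊗̂ (E ⊗̂_A X)` are exact -/
theorem dMap_exact (hXf : FlatLeft A X)
    (hE : IsBimod A E) (hF : IsBimod A F) (hG : IsBimod A G) {i : FHom E F} {p : FHom F G}
    (h : Admissible i p) :
    ShortExact (fun z => dMap Y i X z) (fun z => dMap Y p X z) := by
  obtain ⟨h1, h2, h3⟩ := hXf _ _ _ (tensV_isRight (V := Y) hE.right)
    (tensV_isRight (V := Y) hF.right) (tensV_isRight (V := Y) hG.right) _ _
    (tensV_admissible (V := Y) (right_admissible h))
  have nat : ∀ {E F : FMod.{u, u} (A ⊕ A)} (f : FHom E F) (z : Tens (tensV Y E.right) X),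
      dMap Y f X (alpha Y E.right X z) =
        alpha Y F.right X (tmap (tensVHom (V := Y) f.right) (FHom.id X) z) := by
    intro E F f z
    refine clm_te_ext (N := tensV Y E.right)
      (f := (dMap Y f X).comp (alpha Y E.right X))
      (g := (alpha Y F.right X).comp (tmap (tensVHom (V := Y) f.right) (FHom.id X)))
      (fun t x => ?_) z
    refine clm_pt_ext (X := Y) (Y := E.right)
      (f := ((dMap Y f X).comp (alpha Y E.right X)).comp
        (bilL (te_isContBilin (N := tensV Y E.right) (X := X)) x))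
      (g := ((alpha Y F.right X).comp (tmap (tensVHom (V := Y) f.right) (FHom.id X))).comp
        (bilL (te_isContBilin (N := tensV Y E.right) (X := X)) x))
      (fun y e => ?_) t
    rw [ContinuousLinearMap.comp_apply, ContinuousLinearMap.comp_apply,
      ContinuousLinearMap.comp_apply, ContinuousLinearMap.comp_apply, bilL_apply, alpha_te,
      dMap_pt, tmap_te, tmap_te, tensVHom_pt, alpha_te]
  have nat' : ∀ {E F : FMod.{u, u} (A ⊕ A)} (f : FHom E F) (z : PT Y (Tens E.right X)),
      alphaInv Y F.right X (dMap Y f X z) =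
        tmap (tensVHom (V := Y) f.right) (FHom.id X) (alphaInv Y E.right X z) := by
    intro E F f z
    have := nat f (alphaInv Y E.right X z)
    rw [alpha_alphaInv] at this
    rw [this, alphaInv_alpha]
  have injE : ∀ {E : FMod.{u, u} (A ⊕ A)} {z w : PT Y (Tens E.right X)},
      alphaInv Y E.right X z = alphaInv Y E.right X w → z = w := by
    intro E z w h
    have := congrArg (alpha Y E.right X) h
    rwa [alpha_alphaInv, alpha_alphaInv] at this
  refine ⟨?_, ?_, ?_⟩
  · intro z w hzw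
    have hzw' : dMap Y i X z = dMap Y i X w := hzw
    have := congrArg (alphaInv Y F.right X) hzw'
    rw [nat', nat'] at this
    exact injE (h1 this)
  · intro z
    have e1 : dMap Y p X z = 0 ↔ tmap (tensVHom (V := Y) p.right) (FHom.id X)
        (alphaInv Y F.right X z) = 0 := by
      rw [← nat']
      constructor
      · intro h
        rw [h, map_zero]
      · intro h
        apply injE
        rw [h, map_zero]
    refine e1.trans ((h2 _).trans ?_)
    constructor
    · rintro ⟨w, hw⟩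
      refine ⟨alpha Y E.right X w, ?_⟩
      have hw' : tmap (tensVHom (V := Y) i.right) (FHom.id X) w = alphaInv Y F.right X z := hw
      change dMap Y i X (alpha Y E.right X w) = z
      rw [nat, hw', alpha_alphaInv]
    · rintro ⟨w, hw⟩
      refine ⟨alphaInv Y E.right X w, ?_⟩
      have hw' : dMap Y i X w = z := hw
      change tmap (tensVHom (V := Y) i.right) (FHom.id X) (alphaInv Y E.right X w) = _
      rw [← nat', hw']
  · intro z
    obtain ⟨w, hw⟩ := h3 (alphaInv Y G.right X z)
    refine ⟨alpha Y F.right X w, ?_⟩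
    have hw' : tmap (tensVHom (V := Y) p.right) (FHom.id X) w = alphaInv Y G.right X z := hw
    change dMap Y p X (alpha Y F.right X w) = z
    rw [nat, hw', alpha_alphaInv]

section Chase

variable (hA : IsFAlg A) (hX : IsLeftMod A X) (hY : IsRightMod A Y) (hXf : FlatLeft A X)
  (hYf : FlatRight A Y)

include hXf in
/-- surjectivity -/
theorem u_surj (hE : IsBimod A E) (hF : IsBimod A F) (hG : IsBimod A G) {i : FHom E F}
    {p : FHom F G} (h : Admissible i p) : Function.Surjective (uMap Y hF hG p X) := by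
  intro z
  obtain ⟨d, rfl⟩ := qmk_surj _ z
  obtain ⟨d', hd'⟩ := (dMap_exact hXf hE hF hG h).2.2 d
  have hd2 : dMap Y p X d' = d := hd'
  refine ⟨qmk _ d', ?_⟩
  rw [uMap_qmk, hd2]

lemma uMap_comp_zero (hE : IsBimod A E) (hF : IsBimod A F) (hG : IsBimod A G) {i : FHom E F}
    {p : FHom F G} (h : Admissible i p) (z : Tens Y (ME hE X)) :
    uMap Y hF hG p X (uMap Y hE hF i X z) = 0 := by
  have h0 : ∀ e, p.toCLM (i.toCLM e) = 0 := fun e => (h.1.2.1 (i.toCLM e)).2 ⟨e, rfl⟩
  unfold uMap
  rw [tmap_comp]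
  refine clm_te_ext (f := tmap ((FHom.id Y).comp (FHom.id Y))
    ((MEhom hF hG p X).comp (MEhom hE hF i X))) (g := 0) (fun y w => ?_) z
  rw [tmap_te]
  have : ((MEhom hF hG p X).comp (MEhom hE hF i X)).toCLM w = 0 := by
    refine clm_te_ext (N := E.right) (X := X)
      (f := ((MEhom hF hG p X).comp (MEhom hE hF i X)).toCLM) (g := 0) (fun e x => ?_) w
    change tmap p.right (FHom.id X) (tmap i.right (FHom.id X) (te e x)) = 0
    rw [tmap_te, tmap_te]
    have e2 : p.right.toCLM (i.right.toCLM e) = 0 := h0 e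
    rw [e2, te_isContBilin.zero_left]
  rw [this, te_isContBilin.zero_right]
  rfl

include hA hY hXf hYf in
/-- exactness in the middle -/
theorem u_mid (hE : IsBimod A E) (hF : IsBimod A F) (hG : IsBimod A G) {i : FHom E F}
    {p : FHom F G} (h : Admissible i p) (z : Tens Y (ME hF X))
    (hz : uMap Y hF hG p X z = 0) : ∃ w, uMap Y hE hF i X w = z := by
  obtain ⟨w, rfl⟩ := qmk_surj _ z
  rw [uMap_qmk] at hz
  obtain ⟨v', hv'⟩ := ((rowE_exact hA hY hYf hG X).2 _).1 hz
  obtain ⟨v, hv⟩ := u_surj hXf (Kb_isBimod hA hE) (Kb_isBimod hA hF) (Kb_isBimod hA hG)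
    (Kb_admissible hA hE hF hG h) v'
  have h1 : dMap Y p X (w - rowE hA hY hF X v) = 0 := by
    rw [map_sub, row_nat hA hY hF hG p v, hv, hv', sub_self]
  obtain ⟨d, hd⟩ := ((dMap_exact hXf hE hF hG h).2.1 _).1 h1
  refine ⟨qmk _ d, ?_⟩
  have hd' : dMap Y i X d = w - rowE hA hY hF X v := hd
  rw [uMap_qmk, hd', map_sub, ((rowE_exact hA hY hYf hF X).2 _).2 ⟨v, rfl⟩, sub_zero]

include hA hY hXf hYf in
/-- injectivity -/
theorem u_inj (hE : IsBimod A E) (hF : IsBimod A F) (hG : IsBimod A G) {i : FHom E F}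
    {p : FHom F G} (h : Admissible i p) : Function.Injective (uMap Y hE hF i X) := by
  rw [injective_iff_map_eq_zero]
  intro z hz
  obtain ⟨w, rfl⟩ := qmk_surj _ z
  rw [uMap_qmk] at hz
  obtain ⟨v', hv'⟩ := ((rowE_exact hA hY hYf hF X).2 _).1 hz
  have h1 : uMap Y (Kb_isBimod hA hF) (Kb_isBimod hA hG) (KbHom hA hF hG p) X v' = 0 := by
    apply (rowE_exact hA hY hYf hG X).1
    rw [← row_nat, hv', map_zero]
    exact ((dMap_exact hXf hE hF hG h).2.1 _).2 ⟨w, rfl⟩
  obtain ⟨v, hv⟩ := u_mid hA hY hXf hYf (Kb_isBimod hA hE) (Kb_isBimod hA hF)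
    (Kb_isBimod hA hG) (Kb_admissible hA hE hF hG h) v' h1
  have h2 : dMap Y i X (rowE hA hY hE X v) = dMap Y i X w := by
    rw [row_nat hA hY hE hF i v, hv, hv']
  have h3 : rowE hA hY hE X v = w := (dMap_exact hXf hE hF hG h).1 h2
  exact ((rowE_exact hA hY hYf hE X).2 _).2 ⟨v, h3⟩

end Chase

end

end Pool.Agent.Q19.Fre
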