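import Mathlib
import Pool.Agent.Q19.Fre.Chase

/-!
The natural isomorphism `E ⊗̂_{A^e} (X ⊗̂ Y) = Y ⊗̂_A (E ⊗̂_A X)` and the theorem on flatness of
`X ⊗̂ Y`.
-/

set_option autoImplicit false

namespace Pool.Agent.Q19.Fre

open Pool.Agent.Helper5 Filter Topology
open Pool.Agent.Q19.FreS (IsFre)

universe u v

noncomputable section

variable {A : Type u} [NonUnitalRing A] [Module ℂ A] [UniformSpace A] [IsFre A]
variable {E F G : FMod.{u, u} (A ⊕ A)} {X Y : FMod.{u, u} A}

lemma psiTri (hE : IsBimod A E) (X Y : FMod.{u, u} A) : IsTri (fun (e : E) (x : X) (y : Y) =>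
    te (N := Y) (X := ME hE X) y (te (N := E.right) (X := X) e x)) :=
  tri_left (bil_flip (te_isContBilin (N := Y) (X := ME hE X)))
    (te_isContBilin (N := E.right) (X := X))

lemma outer_inl (a : A) (x : X) (y : Y) :
    (outer X Y).op (Sum.inl a) (pt x y) = pt (X.op a x) y := ptMap_pt _ _ _ _

lemma outer_inr (a : A) (x : X) (y : Y) :
    (outer X Y).op (Sum.inr a) (pt x y) = pt x (Y.op a y) := ptMap_pt _ _ _ _

/-- `E ⊗̂_{A^e} (X ⊗̂ Y) → Y ⊗̂_A (E ⊗̂_A X)` -/
def psi (hE : IsBimod A E) (X Y : FMod.{u, u} A) :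
    Tens E.swap (outer X Y) →L[ℂ] Tens Y (ME hE X) :=
  teLift (N := E.swap) (X := outer X Y) (ptTri_bilin (psiTri hE X Y)) (by
    rintro (a | b) e z
    · refine clm_pt_ext (X := X) (Y := Y)
        (f := bilR (ptTri_bilin (psiTri hE X Y)) (E.op (Sum.inr a) e))
        (g := (bilR (ptTri_bilin (psiTri hE X Y)) e).comp
          (ptMap (X.op a) (ContinuousLinearMap.id ℂ Y))) (fun x y => ?_) z
      rw [ContinuousLinearMap.comp_apply, bilR_apply, bilR_apply, ptTri_pt, ptMap_pt, ptTri_pt]
      exact congrArg (te (N := Y) (X := ME hE X) y) (te_op (N := E.right) a e x)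
    · refine clm_pt_ext (X := X) (Y := Y)
        (f := bilR (ptTri_bilin (psiTri hE X Y)) (E.op (Sum.inl b) e))
        (g := (bilR (ptTri_bilin (psiTri hE X Y)) e).comp
          (ptMap (ContinuousLinearMap.id ℂ X) (Y.op b))) (fun x y => ?_) z
      rw [ContinuousLinearMap.comp_apply, bilR_apply, bilR_apply, ptTri_pt, ptMap_pt, ptTri_pt,
        te_op]
      exact congrArg (te (N := Y) (X := ME hE X) y) (ME_op_te hE X b e x).symm)

lemma psi_te (hE : IsBimod A E) (e : E) (x : X) (y : Y) :
    psi hE X Y (te (N := E.swap) (X := outer X Y) e (pt x y)) =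
      te (N := Y) (X := ME hE X) y (te (N := E.right) e x) := by
  unfold psi
  rw [teLift_te, ptTri_pt]

lemma psiTri' (E : FMod.{u, u} (A ⊕ A)) (X Y : FMod.{u, u} A) :
    IsTri (fun (y : Y) (e : E) (x : X) =>
      te (N := E.swap) (X := outer X Y) e (pt x y)) :=
  (tri_right (te_isContBilin (N := E.swap) (X := outer X Y))
    (pt_isContBilin (X := X) (Y := Y))).swap23.swap12

lemma psiBal (E : FMod.{u, u} (A ⊕ A)) (X Y : FMod.{u, u} A) (y : Y) (a : A) (e : E.right)
    (x : X) : te (N := E.swap) (X := outer X Y) (E.right.op a e) (pt x y) =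
      te (N := E.swap) (X := outer X Y) e (pt (X.op a x) y) := by
  rw [← outer_inl]
  exact te_op (N := E.swap) (X := outer X Y) (Sum.inl a) e (pt x y)

/-- the inverse of `psi` -/
def psiInv (hE : IsBimod A E) (X Y : FMod.{u, u} A) :
    Tens Y (ME hE X) →L[ℂ] Tens E.swap (outer X Y) :=
  teLift (N := Y) (X := ME hE X)
    (teTri_bilin (N := E.right) (X := X) (psiTri' E X Y) (psiBal E X Y)) (by
    intro b y w
    refine clm_te_ext (N := E.right) (X := X)
      (f := bilR (teTri_bilin (N := E.right) (X := X) (psiTri' E X Y) (psiBal E X Y)) (Y.op b y))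
      (g := (bilR (teTri_bilin (N := E.right) (X := X) (psiTri' E X Y) (psiBal E X Y)) y).comp
        ((ME hE X).op b)) (fun e x => ?_) w
    rw [ContinuousLinearMap.comp_apply, bilR_apply, bilR_apply, ME_op_te, teTri_te, teTri_te,
      ← outer_inr]
    exact (te_op (N := E.swap) (X := outer X Y) (Sum.inr b) e (pt x y)).symm)

lemma psiInv_te (hE : IsBimod A E) (e : E) (x : X) (y : Y) :
    psiInv hE X Y (te (N := Y) (X := ME hE X) y (te (N := E.right) e x)) =
      te (N := E.swap) (X := outer X Y) e (pt x y) := by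
  unfold psiInv
  rw [teLift_te, teTri_te]

lemma psi_psiInv (hE : IsBimod A E) (z : Tens Y (ME hE X)) :
    psi hE X Y (psiInv hE X Y z) = z := by
  refine clm_te_ext (N := Y) (X := ME hE X) (f := (psi hE X Y).comp (psiInv hE X Y))
    (g := ContinuousLinearMap.id ℂ _) (fun y w => ?_) z
  refine bil_te_ext (V := Y) (N := E.right) (X := X)
    (B := fun y w => ((psi hE X Y).comp (psiInv hE X Y)) (te (N := Y) (X := ME hE X) y w))
    (C := fun y w => te (N := Y) (X := ME hE X) y w)
    (bil_post (te_isContBilin (N := Y) (X := ME hE X)) _)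
    (te_isContBilin (N := Y) (X := ME hE X)) (fun y e x => ?_) y w
  rw [ContinuousLinearMap.comp_apply, psiInv_te, psi_te]

lemma psiInv_psi (hE : IsBimod A E) (z : Tens E.swap (outer X Y)) :
    psiInv hE X Y (psi hE X Y z) = z := by
  refine clm_te_ext (N := E.swap) (X := outer X Y) (f := (psiInv hE X Y).comp (psi hE X Y))
    (g := ContinuousLinearMap.id ℂ _) (fun e t => ?_) z
  refine bil_pt_ext (V := E) (X := X) (Y := Y)
    (B := fun e t => ((psiInv hE X Y).comp (psi hE X Y)) (te (N := E.swap) (X := outer X Y) e t))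
    (C := fun e t => te (N := E.swap) (X := outer X Y) e t)
    (bil_post (te_isContBilin (N := E.swap) (X := outer X Y)) _)
    (te_isContBilin (N := E.swap) (X := outer X Y)) (fun e x y => ?_) e t
  rw [ContinuousLinearMap.comp_apply, psi_te, psiInv_te]

lemma psi_nat (hE : IsBimod A E) (hF : IsBimod A F) (f : FHom E F)
    (z : Tens E.swap (outer X Y)) :
    psi hF X Y (tmap f.swap (FHom.id (outer X Y)) z) = uMap Y hE hF f X (psi hE X Y z) := by
  refine clm_te_ext (N := E.swap) (X := outer X Y)
    (f := (psi hF X Y).comp (tmap f.swap (FHom.id (outer X Y))))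
    (g := (uMap Y hE hF f X).comp (psi hE X Y)) (fun e t => ?_) z
  refine bil_pt_ext (V := E) (X := X) (Y := Y)
    (B := fun e t => ((psi hF X Y).comp (tmap f.swap (FHom.id (outer X Y))))
      (te (N := E.swap) (X := outer X Y) e t))
    (C := fun e t => ((uMap Y hE hF f X).comp (psi hE X Y))
      (te (N := E.swap) (X := outer X Y) e t))
    (bil_post (te_isContBilin (N := E.swap) (X := outer X Y)) _)
    (bil_post (te_isContBilin (N := E.swap) (X := outer X Y)) _) (fun e x y => ?_) e t
  rw [ContinuousLinearMap.comp_apply, ContinuousLinearMap.comp_apply, psi_te, tmap_te]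
  have e1 : uMap Y hE hF f X (te (N := Y) (X := ME hE X) y (te (N := E.right) e x)) =
      te (N := Y) (X := ME hF X) y (te (N := F.right) (f.toCLM e) x) := by
    unfold uMap
    rw [tmap_te]
    have e2 : (MEhom hE hF f X).toCLM (te (N := E.right) e x) =
        te (N := F.right) (f.toCLM e) x := tmap_te f.right (FHom.id X) e x
    rw [e2]
    rfl
  rw [e1]
  exact psi_te hF (f.toCLM e) x y

/-- **Theorem.** If `X` is a flat left module and `Y` is a flat right module over the Fréchet
algebra `A`, then the bimodule `X ⊗̂ Y` is flat. -/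
theorem flat_outer (hA : IsFAlg A) (hY : IsRightMod A Y) (hXf : FlatLeft A X)
    (hYf : FlatRight A Y) : FlatBi A (outer X Y) := by
  intro E F G hE hF hG i p h
  refine ⟨?_, ?_, ?_⟩
  · intro z w hzw
    have hzw' : tmap i.swap (FHom.id (outer X Y)) z = tmap i.swap (FHom.id (outer X Y)) w := hzw
    have h1 := congrArg (psi hF X Y) hzw'
    rw [psi_nat hE hF, psi_nat hE hF] at h1
    have h2 := u_inj hA hY hXf hYf hE hF hG h h1
    have h3 := congrArg (psiInv hE X Y) h2
    rwa [psiInv_psi, psiInv_psi] at h3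
  · intro z
    constructor
    · intro hz
      have hz' : tmap p.swap (FHom.id (outer X Y)) z = 0 := hz
      have h1 := congrArg (psi hG X Y) hz'
      rw [psi_nat hF hG, map_zero] at h1
      obtain ⟨w, hw⟩ := u_mid hA hY hXf hYf hE hF hG h _ h1
      refine ⟨psiInv hE X Y w, ?_⟩
      change tmap i.swap (FHom.id (outer X Y)) (psiInv hE X Y w) = z
      have h2 := psi_nat hE hF i (psiInv hE X Y w)
      rw [psi_psiInv, hw] at h2
      have h3 := congrArg (psiInv hF X Y) h2
      rwa [psiInv_psi, psiInv_psi] at h3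
    · rintro ⟨w, rfl⟩
      change tmap p.swap (FHom.id (outer X Y)) (tmap i.swap (FHom.id (outer X Y)) w) = 0
      have h1 : psi hG X Y (tmap p.swap (FHom.id (outer X Y))
          (tmap i.swap (FHom.id (outer X Y)) w)) = 0 := by
        rw [psi_nat hF hG, psi_nat hE hF]
        exact uMap_comp_zero hE hF hG h _
      have h2 := congrArg (psiInv hG X Y) h1
      rwa [psiInv_psi, map_zero] at h2
  · intro z
    obtain ⟨w, hw⟩ := u_surj hXf hE hF hG h (psi hG X Y z)
    refine ⟨psiInv hF X Y w, ?_⟩
    change tmap p.swap (FHom.id (outer X Y)) (psiInv hF X Y w) = z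
    have h2 := psi_nat hF hG p (psiInv hF X Y w)
    rw [psi_psiInv, hw] at h2
    have h3 := congrArg (psiInv hG X Y) h2
    rwa [psiInv_psi, psiInv_psi] at h3

end

end Pool.Agent.Q19.Fre
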