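import Mathlib
import Pool.Agent.Q19.Fre.Psi

/-!
`X ⊗̂ Y` is a bimodule.
-/

set_option autoImplicit false

namespace Pool.Agent.Q19.Fre

open Pool.Agent.Helper5 Filter Topology
open Pool.Agent.Q19.FreS (IsFre)

universe u v

noncomputable section

variable {A : Type u} [NonUnitalRing A] [Module ℂ A] [UniformSpace A] [IsFre A]
variable {X Y : FMod.{u, u} A}

/-- `X ⊗̂ V` is a left module -/
lemma leftTens_isLeft {X : FMod.{u, u} A} (hX : IsLeftMod A X) (V : Type u) [AddCommGroup V]
    [Module ℂ V] [UniformSpace V] [IsFre V] :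
    IsContBilin (fun (a : A) (z : PT X V) => ptMap (X.op a) (ContinuousLinearMap.id ℂ V) z) ∧
    ∀ a b (z : PT X V), ptMap (X.op (a * b)) (ContinuousLinearMap.id ℂ V) z =
      ptMap (X.op a) (ContinuousLinearMap.id ℂ V) (ptMap (X.op b) (ContinuousLinearMap.id ℂ V) z) := by
  constructor
  · have hT : IsTri (fun (a : A) (x : X) (v : V) => pt (X.op a x) v) :=
      tri_left (pt_isContBilin (X := X) (Y := V)) hX.cont
    have h := ptTri_bilin hT
    have e : (fun (a : A) (z : PT X V) => ptMap (X.op a) (ContinuousLinearMap.id ℂ V) z) =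
        ptTri hT := by
      funext b z
      refine clm_pt_ext (f := ptMap (X.op b) (ContinuousLinearMap.id ℂ V)) (g := bilR h b)
        (fun x y => ?_) z
      rw [bilR_apply, ptTri_pt, ptMap_pt]
      rfl
    rw [e]
    exact h
  · intro a b z
    rw [ptMap_comp]
    have : X.op (a * b) = (X.op a).comp (X.op b) := ContinuousLinearMap.ext fun x => hX.mul a b x
    rw [this]
    rfl

theorem outer_isBimod (hX : IsLeftMod A X) (hY : IsRightMod A Y) : IsBimod A (outer X Y) where
  left := ⟨(leftTens_isLeft hX Y).1, (leftTens_isLeft hX Y).2⟩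
  right := tensV_isRight (V := X) hY
  comm := by
    intro a b z
    change ptMap (X.op a) (ContinuousLinearMap.id ℂ Y)
      (ptMap (ContinuousLinearMap.id ℂ X) (Y.op b) z) =
      ptMap (ContinuousLinearMap.id ℂ X) (Y.op b)
        (ptMap (X.op a) (ContinuousLinearMap.id ℂ Y) z)
    rw [ptMap_comp, ptMap_comp]
    rfl

end

end Pool.Agent.Q19.Fre
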