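import Mathlib
import Pool.Agent.Q19.Fre.Outer

/-!
Transfer between the concrete tensor products and the universal property.
-/

set_option autoImplicit false

namespace Pool.Agent.Q19.Fre

open Pool.Agent.Helper5 Filter Topology
open Pool.Agent.Q19.FreS

universe u v

noncomputable section

section Gen

variable {ι : Type v}

/-- bundled form -/
abbrev toF (M : FM.{u, v} ι) : FMod.{u, v} ι where
  carrier := M.carrier
  op i := (M.lin i).toCLM

/-- unbundled form -/
abbrev ofF (M : FMod.{u, v} ι) : FM.{u, v} ι where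
  carrier := M.carrier
  op i m := M.op i m
  lin i := isContLin_clm _

/-- a morphism as a bundled morphism -/
def morF {M N : FM.{u, v} ι} {f : M.carrier → N.carrier} (h : IsMor f) : FHom (toF M) (toF N) :=
  ⟨h.lin.toCLM, fun i m => h.comm i m⟩

lemma isMor_of {M N : FMod.{u, v} ι} (f : FHom M N) :
    IsMor (M := ofF M) (N := ofF N) (fun x => f.toCLM x) :=
  ⟨isContLin_clm _, fun i m => f.comm i m⟩

/-- the concrete tensor product is a model -/
def model (N X : FMod.{u, v} ι) : Tensor (ofF N) (ofF X) where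
  T := Tens N X
  t := te
  bil := te_isContBilin
  bal := te_op
  univ := by
    intro Z _ _ _ _ β hβ hb
    refine ⟨fun z => teLift hβ hb z, ⟨isContLin_clm _, fun n x => teLift_te _ _ _ _⟩, ?_⟩
    rintro φ ⟨h1, h2⟩
    funext z
    refine clm_te_ext (f := h1.toCLM) (g := teLift hβ hb) (fun n x => ?_) z
    rw [teLift_te]
    exact h2 n x

variable {N X : FM.{u, v} ι}

/-- comparison map -/
def tphi (TE : Tensor N X) : TE.T →L[ℂ] Tens (toF N) (toF X) :=
  (TE.univ (Tens (toF N) (toF X)) (te (N := toF N) (X := toF X)) te_isContBilin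
    (fun i n x => te_op (N := toF N) (X := toF X) i n x)).choose_spec.1.1.toCLM

lemma tphi_t (TE : Tensor N X) (n : N.carrier) (x : X.carrier) :
    tphi TE (TE.t n x) = te (N := toF N) (X := toF X) n x :=
  (TE.univ (Tens (toF N) (toF X)) (te (N := toF N) (X := toF X)) te_isContBilin
    (fun i n x => te_op (N := toF N) (X := toF X) i n x)).choose_spec.1.2 n x

/-- comparison map -/
def tpsi (TE : Tensor N X) : Tens (toF N) (toF X) →L[ℂ] TE.T :=
  teLift (N := toF N) (X := toF X) TE.bil TE.bal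

lemma tpsi_te (TE : Tensor N X) (n : N.carrier) (x : X.carrier) :
    tpsi TE (te (N := toF N) (X := toF X) n x) = TE.t n x := teLift_te _ _ _ _

/-- uniqueness of maps out of a model -/
lemma Tensor_ext (TE : Tensor N X) {Z : Type u} [AddCommGroup Z] [Module ℂ Z] [UniformSpace Z]
    [IsFre Z] {f g : TE.T → Z} (hf : IsContLin f) (hg : IsContLin g)
    (h : ∀ n x, f (TE.t n x) = g (TE.t n x)) (z : TE.T) : f z = g z := by
  have hb : IsContBilin (fun n x => g (TE.t n x)) := bil_post TE.bil hg.toCLM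
  obtain ⟨φ, _, h2⟩ := TE.univ Z (fun n x => g (TE.t n x)) hb (fun i n x => by
    rw [TE.bal])
  rw [h2 f ⟨hf, h⟩, h2 g ⟨hg, fun _ _ => rfl⟩]

lemma tpsi_tphi (TE : Tensor N X) (z : TE.T) : tpsi TE (tphi TE z) = z :=
  Tensor_ext TE (f := fun z => tpsi TE (tphi TE z)) (g := fun z => z)
    (isContLin_clm ((tpsi TE).comp (tphi TE))) ⟨fun _ _ => rfl, fun _ _ => rfl, continuous_id⟩
    (fun n x => by rw [tphi_t, tpsi_te]) z

lemma tphi_tpsi (TE : Tensor N X) (z : Tens (toF N) (toF X)) : tphi TE (tpsi TE z) = z := by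
  refine clm_te_ext (f := (tphi TE).comp (tpsi TE)) (g := ContinuousLinearMap.id ℂ _)
    (fun n x => ?_) z
  rw [ContinuousLinearMap.comp_apply, tpsi_te, tphi_t]
  rfl

end Gen

lemma exact3_transfer {E F G E' F' G' : Type u} [AddCommGroup E] [AddCommGroup F]
    [AddCommGroup G] [AddCommGroup E'] [AddCommGroup F'] [AddCommGroup G'] {I : E → F} {P : F → G}
    {I' : E' → F'} {P' : F' → G'} (a : E → E') (b : F → F') (c : G → G') (a' : E' → E)
    (b' : F' → F) (c' : G' → G) (haa : ∀ z, a' (a z) = z) (haa' : ∀ z, a (a' z) = z)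
    (hbb : ∀ z, b' (b z) = z) (hbb' : ∀ z, b (b' z) = z) (hcc : ∀ z, c' (c z) = z)
    (hcc' : ∀ z, c (c' z) = z) (hc : c 0 = 0) (hI : ∀ z, b (I z) = I' (a z))
    (hP : ∀ z, c (P z) = P' (b z)) (h : Exact3 I' P') : Exact3 I P := by
  obtain ⟨h1, h2, h3⟩ := h
  refine ⟨?_, ?_, ?_⟩
  · intro x y hxy
    have : I' (a x) = I' (a y) := by rw [← hI, ← hI, hxy]
    have := h1 this
    rw [← haa x, ← haa y, this]
  · intro y
    have e1 : P y = 0 ↔ P' (b y) = 0 := by
      rw [← hP]
      constructor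
      · intro h
        rw [h, hc]
      · intro h
        rw [← hcc (P y), h, ← hc, hcc]
    rw [e1, h2]
    constructor
    · rintro ⟨x, hx⟩
      refine ⟨a' x, ?_⟩
      rw [← hbb (I (a' x)), hI, haa', hx, hbb]
    · rintro ⟨x, rfl⟩
      exact ⟨a x, (hI x).symm⟩
  · intro z
    obtain ⟨y, hy⟩ := h3 (c z)
    refine ⟨b' y, ?_⟩
    rw [← hcc (P (b' y)), hP, hbb', hy, hcc]

section Alg

variable {A : Type u} [NonUnitalRing A] [Module ℂ A] [UniformSpace A] [IsFre A]

lemma isLeft_to {M : FM.{u, u} A} (h : IsLeft A M) : IsLeftMod A (toF M) := ⟨h.bil, h.mul⟩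

lemma isRight_to {M : FM.{u, u} A} (h : IsRight A M) : IsRightMod A (toF M) := ⟨h.bil, h.mul⟩

lemma isLeft_of {M : FMod.{u, u} A} (h : IsLeftMod A M) : IsLeft A (ofF M) := ⟨h.cont, h.mul⟩

lemma isRight_of {M : FMod.{u, u} A} (h : IsRightMod A M) : IsRight A (ofF M) := ⟨h.cont, h.mul⟩

lemma isBi_to {M : FM.{u, u} (A ⊕ A)} (h : IsBi A M) : IsBimod A (toF M) :=
  ⟨⟨h.bil_left, h.mul_left⟩, ⟨h.bil_right, h.mul_right⟩, h.comm⟩

lemma isBi_of {M : FMod.{u, u} (A ⊕ A)} (h : IsBimod A M) : IsBi A (ofF M) :=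
  ⟨h.left.cont, h.left.mul, h.right.cont, h.right.mul, h.comm⟩

lemma adm_of {ι : Type v} {E F G : FMod.{u, v} ι} {i : FHom E F} {p : FHom F G}
    (h : Admissible i p) :
    Adm (E := ofF E) (F := ofF F) (G := ofF G) (fun x => i.toCLM x) (fun x => p.toCLM x) := by
  obtain ⟨h0, r, s, h1, h2, h3⟩ := h
  exact ⟨isMor_of i, isMor_of p, h0, fun y => r y, fun z => s z, isContLin_clm r, isContLin_clm s,
    h1, h2, h3⟩

lemma adm_to {ι : Type v} {E F G : FM.{u, v} ι} {i : E.carrier → F.carrier}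
    {p : F.carrier → G.carrier} (h : Adm i p) : Admissible (morF h.1) (morF h.2.1) := by
  obtain ⟨h1, h2, h3, r, s, hr, hs, h4, h5, h6⟩ := h
  exact ⟨h3, hr.toCLM, hs.toCLM, h4, h5, h6⟩

theorem flatLeft_to {X : FM.{u, u} A} (h : FlatL A X) : FlatLeft A (toF X) := by
  intro E F G hE hF hG i p hadm
  exact h (ofF E) (ofF F) (ofF G) (isRight_of hE) (isRight_of hF) (isRight_of hG) _ _ (adm_of hadm)
    (model E (toF X)) (model F (toF X)) (model G (toF X)) _ _ (isContLin_clm _) (isContLin_clm _)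
    (fun e x => tmap_te i (FHom.id (toF X)) e x) (fun e x => tmap_te p (FHom.id (toF X)) e x)

theorem flatRight_to {Y : FM.{u, u} A} (h : FlatR A Y) : FlatRight A (toF Y) := by
  intro E F G hE hF hG i p hadm
  exact h (ofF E) (ofF F) (ofF G) (isLeft_of hE) (isLeft_of hF) (isLeft_of hG) _ _ (adm_of hadm)
    (model (toF Y) E) (model (toF Y) F) (model (toF Y) G) _ _ (isContLin_clm _) (isContLin_clm _)
    (fun e x => tmap_te (FHom.id (toF Y)) i e x) (fun e x => tmap_te (FHom.id (toF Y)) p e x)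

theorem flatBi_to {Z : FM.{u, u} (A ⊕ A)} (h : FlatB A Z) : FlatBi A (toF Z) := by
  intro E F G hE hF hG i p hadm
  exact h (ofF E) (ofF F) (ofF G) (isBi_of hE) (isBi_of hF) (isBi_of hG) _ _ (adm_of hadm)
    (model E.swap (toF Z)) (model F.swap (toF Z)) (model G.swap (toF Z)) _ _ (isContLin_clm _)
    (isContLin_clm _) (fun e x => tmap_te i.swap (FHom.id (toF Z)) e x)
    (fun e x => tmap_te p.swap (FHom.id (toF Z)) e x)

/-- flatness is transported by isomorphisms -/
theorem flatB_of {Z : FMod.{u, u} (A ⊕ A)} {Z' : FM.{u, u} (A ⊕ A)} (θ : FHom Z (toF Z'))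
    (θ' : FHom (toF Z') Z) (h1 : ∀ z, θ'.toCLM (θ.toCLM z) = z)
    (h2 : ∀ z, θ.toCLM (θ'.toCLM z) = z) (h : FlatBi A Z) : FlatB A Z' := by
  intro E F G hE hF hG i p hadm TE TF TG I P hI hP hIt hPt
  have H := h (toF E) (toF F) (toF G) (isBi_to hE) (isBi_to hF) (isBi_to hG) _ _ (adm_to hadm)
  have e1 : θ'.comp θ = FHom.id _ := FHom.ext' h1
  have e2 : θ.comp θ' = FHom.id _ := FHom.ext' h2
  have idc : ∀ {M : FMod.{u, u} (A ⊕ A)}, (FHom.id M).comp (FHom.id M) = FHom.id M := fun {M} =>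
    FHom.ext' fun m => rfl
  have k1 : ∀ {N : FM.{u, u} (A ⊕ A)} (TN : Tensor N.swap Z') (z : TN.T),
      tpsi TN (tmap (FHom.id (toF N.swap)) θ
        (tmap (FHom.id (toF N.swap)) θ' (tphi TN z))) = z := by
    intro N TN z
    rw [tmap_comp, e2, idc, tmap_id, tpsi_tphi]
  have k2 : ∀ {N : FM.{u, u} (A ⊕ A)} (TN : Tensor N.swap Z') (z : Tens (toF N.swap) Z),
      tmap (FHom.id (toF N.swap)) θ' (tphi TN (tpsi TN (tmap (FHom.id (toF N.swap)) θ z))) = z := by
    intro N TN z
    rw [tphi_tpsi, tmap_comp, e1, idc, tmap_id]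
  refine exact3_transfer
    (fun z => tmap (FHom.id (toF E.swap)) θ' (tphi TE z))
    (fun z => tmap (FHom.id (toF F.swap)) θ' (tphi TF z))
    (fun z => tmap (FHom.id (toF G.swap)) θ' (tphi TG z))
    (fun z => tpsi TE (tmap (FHom.id (toF E.swap)) θ z))
    (fun z => tpsi TF (tmap (FHom.id (toF F.swap)) θ z))
    (fun z => tpsi TG (tmap (FHom.id (toF G.swap)) θ z))
    (k1 TE) (k2 TE) (k1 TF) (k2 TF) (k1 TG) (k2 TG) ?_ ?_ ?_ H
  · change tmap (FHom.id (toF G.swap)) θ' (tphi TG 0) = 0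
    rw [map_zero, map_zero]
  · refine Tensor_ext TE
      (isContLin_clm ((tmap (FHom.id (toF F.swap)) θ').comp ((tphi TF).comp hI.toCLM)))
      (isContLin_clm ((tmap (morF hadm.1).swap (FHom.id Z)).comp
        ((tmap (FHom.id (toF E.swap)) θ').comp (tphi TE)))) (fun e x => ?_)
    change tmap (FHom.id (toF F.swap)) θ' (tphi TF (I (TE.t e x))) =
      tmap (morF hadm.1).swap (FHom.id Z) (tmap (FHom.id (toF E.swap)) θ' (tphi TE (TE.t e x)))
    rw [hIt, tphi_t, tphi_t, tmap_te, tmap_te]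
    exact (tmap_te (morF hadm.1).swap (FHom.id Z) e (θ'.toCLM x)).symm
  · refine Tensor_ext TF
      (isContLin_clm ((tmap (FHom.id (toF G.swap)) θ').comp ((tphi TG).comp hP.toCLM)))
      (isContLin_clm ((tmap (morF hadm.2.1).swap (FHom.id Z)).comp
        ((tmap (FHom.id (toF F.swap)) θ').comp (tphi TF)))) (fun e x => ?_)
    change tmap (FHom.id (toF G.swap)) θ' (tphi TG (P (TF.t e x))) =
      tmap (morF hadm.2.1).swap (FHom.id Z) (tmap (FHom.id (toF F.swap)) θ' (tphi TF (TF.t e x)))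
    rw [hPt, tphi_t, tphi_t, tmap_te, tmap_te]
    exact (tmap_te (morF hadm.2.1).swap (FHom.id Z) e (θ'.toCLM x)).symm

/-- **Theorem.** -/
theorem flat_outer' (hA : IsFreAlg A) {X Y : FM.{u, u} A} (hX : IsLeft A X)
    (hXf : FlatL A X) (hY : IsRight A Y) (hYf : FlatR A Y) {Z : FM.{u, u} (A ⊕ A)}
    {t : X.carrier → Y.carrier → Z.carrier} (hZ : IsOuter X Y Z t) : IsBi A Z ∧ FlatB A Z := by
  have hX' := isLeft_to hX
  have hY' := isRight_to hY
  -- comparison maps
  obtain ⟨φ, ⟨hφ1, hφ2⟩, _⟩ := hZ.proj.2 (PT X.carrier Y.carrier) pt pt_isContBilin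
  have hψ := hZ.proj.1
  have c1 : ∀ z, ptLift hψ (φ z) = z := by
    obtain ⟨χ, _, hu⟩ := hZ.proj.2 Z.carrier t hψ
    have a1 := hu (fun z => ptLift hψ (φ z)) ⟨isContLin_clm ((ptLift hψ).comp hφ1.toCLM),
      fun x y => by
        change ptLift hψ (φ (t x y)) = t x y
        rw [hφ2, ptLift_pt]⟩
    have a2 := hu (fun z => z) ⟨⟨fun _ _ => rfl, fun _ _ => rfl, continuous_id⟩, fun _ _ => rfl⟩
    intro z
    exact congrFun (a1.trans a2.symm) z
  have c2 : ∀ z, φ (ptLift hψ z) = z := by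
    intro z
    refine clm_pt_ext (f := hφ1.toCLM.comp (ptLift hψ)) (g := ContinuousLinearMap.id ℂ _)
      (fun x y => ?_) z
    rw [ContinuousLinearMap.comp_apply, ptLift_pt]
    exact hφ2 x y
  let θ : FHom (outer (toF X) (toF Y)) (toF Z) := ⟨ptLift hψ, by
    rintro (a | b) z
    · refine clm_pt_ext
        (f := (ptLift hψ).comp ((outer (toF X) (toF Y)).op (Sum.inl a)))
        (g := ((toF Z).op (Sum.inl a)).comp (ptLift hψ)) (fun x y => ?_) z
      rw [ContinuousLinearMap.comp_apply, ContinuousLinearMap.comp_apply, outer_inl, ptLift_pt,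
        ptLift_pt]
      exact (hZ.left a x y).symm
    · refine clm_pt_ext
        (f := (ptLift hψ).comp ((outer (toF X) (toF Y)).op (Sum.inr b)))
        (g := ((toF Z).op (Sum.inr b)).comp (ptLift hψ)) (fun x y => ?_) z
      rw [ContinuousLinearMap.comp_apply, ContinuousLinearMap.comp_apply, outer_inr, ptLift_pt,
        ptLift_pt]
      exact (hZ.right b x y).symm⟩
  let θ' : FHom (toF Z) (outer (toF X) (toF Y)) := ⟨hφ1.toCLM, by
    intro i z
    have h1 := θ.comm i (φ z)
    have h2 : θ.toCLM (φ z) = z := c1 z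
    rw [h2] at h1
    have h3 := congrArg φ h1
    have h4 : φ (θ.toCLM ((outer (toF X) (toF Y)).op i (φ z))) =
      (outer (toF X) (toF Y)).op i (φ z) := c2 _
    rw [h4] at h3
    exact h3.symm⟩
  have hB := outer_isBimod hX' hY'
  constructor
  · -- transport the bimodule structure
    have key : ∀ i z, Z.op i z = θ.toCLM ((outer (toF X) (toF Y)).op i (φ z)) := by
      intro i z
      have h1 := θ.comm i (φ z)
      have h2 : θ.toCLM (φ z) = z := c1 z
      rw [h2] at h1
      exact h1.symm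
    have key2 : ∀ w, φ (θ.toCLM w) = w := c2
    refine ⟨?_, ?_, ?_, ?_, ?_⟩
    · have e : (fun a m => Z.op (Sum.inl a) m) = fun a m =>
          θ.toCLM ((outer (toF X) (toF Y)).op (Sum.inl a) (hφ1.toCLM m)) := by
        funext a m
        exact key _ _
      rw [e]
      exact bil_comp hB.left.cont (ContinuousLinearMap.id ℂ A) hφ1.toCLM θ.toCLM
    · intro a b m
      rw [key, key, key (Sum.inl b), key2]
      exact congrArg θ.toCLM (hB.left.mul a b (φ m))
    · have e : (fun a m => Z.op (Sum.inr a) m) = fun a m =>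
          θ.toCLM ((outer (toF X) (toF Y)).op (Sum.inr a) (hφ1.toCLM m)) := by
        funext a m
        exact key _ _
      rw [e]
      exact bil_comp hB.right.cont (ContinuousLinearMap.id ℂ A) hφ1.toCLM θ.toCLM
    · intro a b m
      rw [key, key, key (Sum.inr a), key2]
      exact congrArg θ.toCLM (hB.right.mul a b (φ m))
    · intro a b m
      rw [key, key (Sum.inr b), key2, key (Sum.inr b), key (Sum.inl a), key2]
      exact congrArg θ.toCLM (hB.comm a b (φ m))
  · exact flatB_of θ θ' c2 c1 (flat_outer hA hY' (flatLeft_to hXf) (flatRight_to hYf))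

end Alg

end

end Pool.Agent.Q19.Fre
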