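import Mathlib
import Pool.Agent.Q19.Fre.Bridge

/-!
The unitization as a module, flatness of `A_+`, one-sided flatness from flatness of bimodules,
direct sums.
-/

set_option autoImplicit false

namespace Pool.Agent.Q19.Fre

open Pool.Agent.Helper5 Filter Topology
open Pool.Agent.Q19.FreS (IsFre Exact3)

universe u v w

noncomputable section

instance fre_complex : IsFre ℂ where
  uniformAddGroup := inferInstance
  continuousSMul := inferInstance
  polynormable := inferInstance
  t2 := inferInstance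
  complete := inferInstance
  firstCountable := inferInstance

instance fre_prod {X : Type u} {Y : Type v} [AddCommGroup X] [Module ℂ X] [UniformSpace X]
    [IsFre X] [AddCommGroup Y] [Module ℂ Y] [UniformSpace Y] [IsFre Y] :
    IsFre (X × Y) where
  uniformAddGroup := inferInstance
  continuousSMul := inferInstance
  polynormable := inferInstance
  t2 := inferInstance
  complete := inferInstance
  firstCountable := inferInstance

variable {A : Type u} [NonUnitalRing A] [Module ℂ A] [UniformSpace A] [IsFre A]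

lemma smul_bilin (V : Type u) [AddCommGroup V] [Module ℂ V] [UniformSpace V] [IsFre V] :
    IsContBilin (fun (c : ℂ × A) (v : V) => c.1 • v) where
  add_left x x' y := add_smul _ _ _
  smul_left c x y := mul_smul _ _ _
  add_right x y y' := smul_add _ _ _
  smul_right c x y := smul_comm _ _ _
  cont := (continuous_fst.comp continuous_fst).smul continuous_snd

/-- right multiplication -/
def mulR (hA : IsFAlg A) (b : A) : A →L[ℂ] A := bilL hA b

@[simp] lemma mulR_apply (hA : IsFAlg A) (b a : A) : mulR hA b a = a * b := rfl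

/-- left multiplication by `b` on `A_+` -/
def plL (hA : IsFAlg A) (b : A) : (ℂ × A) →L[ℂ] (ℂ × A) :=
  (ContinuousLinearMap.inr ℂ ℂ A).comp
    ((ContinuousLinearMap.toSpanSingleton ℂ b).comp (ContinuousLinearMap.fst ℂ ℂ A) +
      (mulL hA b).comp (ContinuousLinearMap.snd ℂ ℂ A))

/-- right multiplication by `b` on `A_+` -/
def plR (hA : IsFAlg A) (b : A) : (ℂ × A) →L[ℂ] (ℂ × A) :=
  (ContinuousLinearMap.inr ℂ ℂ A).comp
    ((ContinuousLinearMap.toSpanSingleton ℂ b).comp (ContinuousLinearMap.fst ℂ ℂ A) +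
      (mulR hA b).comp (ContinuousLinearMap.snd ℂ ℂ A))

lemma plL_apply (hA : IsFAlg A) (b : A) (c : ℂ × A) : plL hA b c = (0, c.1 • b + b * c.2) := rfl

lemma plR_apply (hA : IsFAlg A) (b : A) (c : ℂ × A) : plR hA b c = (0, c.1 • b + c.2 * b) := rfl

/-- `A_+` as a left module -/
abbrev PlusL (hA : IsFAlg A) : FMod.{u, u} A where
  carrier := ℂ × A
  op b := plL hA b

/-- `A_+` as a right module -/
abbrev PlusR (hA : IsFAlg A) : FMod.{u, u} A where
  carrier := ℂ × A
  op b := plR hA b

/-- `A_+` as a bimodule -/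
abbrev PlusB (hA : IsFAlg A) : FMod.{u, u} (A ⊕ A) where
  carrier := ℂ × A
  op := Sum.elim (fun b => plL hA b) (fun b => plR hA b)

/-- `A` as a left module -/
abbrev regL (hA : IsFAlg A) : FMod.{u, u} A where
  carrier := A
  op b := mulL hA b

/-- `A` as a right module -/
abbrev regR (hA : IsFAlg A) : FMod.{u, u} A where
  carrier := A
  op b := mulR hA b

/-- `A` as a bimodule -/
abbrev regB (hA : IsFAlg A) : FMod.{u, u} (A ⊕ A) where
  carrier := A
  op := Sum.elim (fun b => mulL hA b) (fun b => mulR hA b)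

lemma plus_bilin : IsContBilin (fun (b : A) (c : ℂ × A) => c.1 • b) :=
  bil_flip (smul_bilin A)

lemma plusL_isLeft (hA : IsFAlg A) : IsLeftMod A (PlusL hA) where
  cont := by
    have h2 : IsContBilin (fun (b : A) (c : ℂ × A) => b * c.2) :=
      bil_pre hA (ContinuousLinearMap.id ℂ A) (ContinuousLinearMap.snd ℂ ℂ A)
    exact bil_post (bil_add plus_bilin h2) (ContinuousLinearMap.inr ℂ ℂ A)
  mul a b m := by
    change ((0 : ℂ), m.1 • (a * b) + a * b * m.2) = (0, (0 : ℂ) • a + a * (m.1 • b + b * m.2))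
    rw [zero_smul, zero_add, mul_add, mul_assoc]
    have : a * (m.1 • b) = m.1 • (a * b) := hA.smul_right m.1 a b
    rw [this]

lemma plusR_isRight (hA : IsFAlg A) : IsRightMod A (PlusR hA) where
  cont := by
    have h2 : IsContBilin (fun (b : A) (c : ℂ × A) => c.2 * b) :=
      bil_pre (bil_flip hA) (ContinuousLinearMap.id ℂ A) (ContinuousLinearMap.snd ℂ ℂ A)
    exact bil_post (bil_add plus_bilin h2) (ContinuousLinearMap.inr ℂ ℂ A)
  mul a b m := by
    change ((0 : ℂ), m.1 • (a * b) + m.2 * (a * b)) = (0, (0 : ℂ) • b + (m.1 • a + m.2 * a) * b)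
    rw [zero_smul, zero_add, add_mul, mul_assoc]
    have : (m.1 • a) * b = m.1 • (a * b) := hA.smul_left m.1 a b
    rw [this]

lemma regL_isLeft (hA : IsFAlg A) : IsLeftMod A (regL hA) := ⟨hA, fun a b m => mul_assoc a b m⟩

lemma regR_isRight (hA : IsFAlg A) : IsRightMod A (regR hA) :=
  ⟨bil_flip hA, fun a b m => (mul_assoc m a b).symm⟩

lemma regB_isBimod (hA : IsFAlg A) : IsBimod A (regB hA) where
  left := regL_isLeft hA
  right := regR_isRight hA
  comm a b m := (mul_assoc a m b).symm

lemma plusB_isBimod (hA : IsFAlg A) : IsBimod A (PlusB hA) where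
  left := plusL_isLeft hA
  right := plusR_isRight hA
  comm a b m := by
    change ((0 : ℂ), (0 : ℂ) • a + a * (m.1 • b + m.2 * b)) =
      (0, (0 : ℂ) • b + (m.1 • a + a * m.2) * b)
    rw [zero_smul, zero_smul, zero_add, zero_add, mul_add, add_mul, mul_assoc]
    have h1 : a * (m.1 • b) = m.1 • (a * b) := hA.smul_right m.1 a b
    have h2 : (m.1 • a) * b = m.1 • (a * b) := hA.smul_left m.1 a b
    rw [h1, h2]

/-- the action of `A_+` -/
def pAct (E : FMod.{u, u} A) (c : ℂ × A) (e : E) : E := c.1 • e + E.op c.2 e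

lemma pAct_bilin {E : FMod.{u, u} A} (h : IsContBilin (fun (a : A) (m : E) => E.op a m)) :
    IsContBilin (pAct E) :=
  bil_add (smul_bilin E) (bil_pre h (ContinuousLinearMap.snd ℂ ℂ A) (ContinuousLinearMap.id ℂ E))

lemma pAct_one (E : FMod.{u, u} A) (h : IsContBilin (fun (a : A) (m : E) => E.op a m)) (e : E) :
    pAct E (1, 0) e = e := by
  unfold pAct
  change (1 : ℂ) • e + E.op 0 e = e
  rw [one_smul, h.zero_left e, add_zero]

section L

variable {E : FMod.{u, u} A}

lemma pAct_left_L (hA : IsFAlg A) (hE : IsLeftMod A E) (b : A) (c : ℂ × A) (e : E) :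
    pAct E (plL hA b c) e = E.op b (pAct E c e) := by
  unfold pAct
  rw [plL_apply, map_add, map_smul]
  change (0 : ℂ) • e + E.op (c.1 • b + b * c.2) e = _
  rw [zero_smul, zero_add, hE.cont.add_left, hE.cont.smul_left, hE.mul]

lemma pAct_left_R (hA : IsFAlg A) (hE : IsLeftMod A E) (b : A) (c : ℂ × A) (e : E) :
    pAct E (plR hA b c) e = pAct E c (E.op b e) := by
  unfold pAct
  rw [plR_apply]
  change (0 : ℂ) • e + E.op (c.1 • b + c.2 * b) e = _
  rw [zero_smul, zero_add, hE.cont.add_left, hE.cont.smul_left, hE.mul]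

lemma pAct_right_R (hA : IsFAlg A) (hE : IsRightMod A E) (b : A) (c : ℂ × A) (e : E) :
    pAct E (plR hA b c) e = E.op b (pAct E c e) := by
  unfold pAct
  rw [plR_apply, map_add, map_smul]
  change (0 : ℂ) • e + E.op (c.1 • b + c.2 * b) e = _
  rw [zero_smul, zero_add, hE.cont.add_left, hE.cont.smul_left, hE.mul]

lemma pAct_right_L (hA : IsFAlg A) (hE : IsRightMod A E) (b : A) (c : ℂ × A) (e : E) :
    pAct E (plL hA b c) e = pAct E c (E.op b e) := by
  unfold pAct
  rw [plL_apply]
  change (0 : ℂ) • e + E.op (c.1 • b + b * c.2) e = _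
  rw [zero_smul, zero_add, hE.cont.add_left, hE.cont.smul_left, hE.mul]

lemma plL_one (hA : IsFAlg A) (b : A) : plL hA b (1, 0) = (0, b) := by
  rw [plL_apply]
  change ((0 : ℂ), (1 : ℂ) • b + b * 0) = (0, b)
  rw [one_smul, mul_zero, add_zero]

lemma plR_one (hA : IsFAlg A) (b : A) : plR hA b (1, 0) = (0, b) := by
  rw [plR_apply]
  change ((0 : ℂ), (1 : ℂ) • b + 0 * b) = (0, b)
  rw [one_smul, zero_mul, add_zero]

lemma prod_split (c : ℂ × A) : c = c.1 • ((1 : ℂ), (0 : A)) + ((0 : ℂ), c.2) := by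
  refine Prod.ext ?_ ?_
  · change c.1 = c.1 • (1 : ℂ) + 0
    rw [smul_eq_mul, mul_one, add_zero]
  · change c.2 = c.1 • (0 : A) + c.2
    rw [smul_zero, zero_add]

/-- `A_+` is flat as a left module -/
theorem plusL_flat (hA : IsFAlg A) : FlatLeft A (PlusL hA) := by
  intro E F G hE hF hG i p hadm
  -- comparison maps
  have hb : ∀ {N : FMod.{u, u} A} (hN : IsRightMod A N),
      IsContBilin (fun (e : N) (c : ℂ × A) => pAct N c e) := fun hN =>
    bil_flip (pAct_bilin hN.cont)
  let f : ∀ {N : FMod.{u, u} A} (hN : IsRightMod A N), Tens N (PlusL hA) →L[ℂ] N := fun {N} hN =>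
    teLift (N := N) (X := PlusL hA) (hb hN) (fun b e c => (pAct_right_L hA hN b c e).symm)
  let g : ∀ {N : FMod.{u, u} A}, N →L[ℂ] Tens N (PlusL hA) := fun {N} =>
    bilL (te_isContBilin (N := N) (X := PlusL hA)) (1, 0)
  have f_te : ∀ {N : FMod.{u, u} A} (hN : IsRightMod A N) (e : N) (c : ℂ × A),
      f hN (te (N := N) (X := PlusL hA) e c) = pAct N c e := fun hN e c => teLift_te _ _ _ _
  have fg : ∀ {N : FMod.{u, u} A} (hN : IsRightMod A N) (e : N), f hN (g e) = e := by
    intro N hN e
    change f hN (te e (1, 0)) = e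
    rw [f_te hN, pAct_one N hN.cont]
  have gf : ∀ {N : FMod.{u, u} A} (hN : IsRightMod A N) (z : Tens N (PlusL hA)),
      g (f hN z) = z := by
    intro N hN z
    refine clm_te_ext (N := N) (X := PlusL hA) (f := g.comp (f hN))
      (g := ContinuousLinearMap.id ℂ _) (fun e c => ?_) z
    rw [ContinuousLinearMap.comp_apply, f_te hN]
    change te (N := N) (X := PlusL hA) (c.1 • e + N.op c.2 e) (1, 0) = te (X := PlusL hA) e c
    rw [te_isContBilin.add_left, te_isContBilin.smul_left, te_op, ← te_isContBilin.smul_right,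
      ← te_isContBilin.add_right]
    congr 1
    change c.1 • ((1 : ℂ), (0 : A)) + plL hA c.2 (1, 0) = c
    rw [plL_one, ← prod_split]
  have nat : ∀ {N M : FMod.{u, u} A} (hN : IsRightMod A N) (hM : IsRightMod A M) (k : FHom N M)
      (z : Tens N (PlusL hA)), f hM (tmap k (FHom.id _) z) = k.toCLM (f hN z) := by
    intro N M hN hM k z
    refine clm_te_ext (N := N) (X := PlusL hA) (f := (f hM).comp (tmap k (FHom.id _)))
      (g := k.toCLM.comp (f hN)) (fun e c => ?_) z
    rw [ContinuousLinearMap.comp_apply, ContinuousLinearMap.comp_apply, tmap_te, f_te hM, f_te hN]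
    unfold pAct
    rw [map_add, map_smul, k.comm]
    rfl
  exact exact3_transfer (fun z => f hE z) (fun z => f hF z) (fun z => f hG z) (fun z => g z)
    (fun z => g z) (fun z => g z) (gf hE) (fg hE) (gf hF) (fg hF) (gf hG) (fg hG) (map_zero _)
    (nat hE hF i) (nat hF hG p) hadm.1

/-- `A_+` is flat as a right module -/
theorem plusR_flat (hA : IsFAlg A) : FlatRight A (PlusR hA) := by
  intro E F G hE hF hG i p hadm
  have hb : ∀ {N : FMod.{u, u} A} (hN : IsLeftMod A N),
      IsContBilin (fun (c : ℂ × A) (e : N) => pAct N c e) := fun hN => pAct_bilin hN.cont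
  let f : ∀ {N : FMod.{u, u} A} (hN : IsLeftMod A N), Tens (PlusR hA) N →L[ℂ] N := fun {N} hN =>
    teLift (N := PlusR hA) (X := N) (hb hN) (fun b c e => pAct_left_R hA hN b c e)
  let g : ∀ {N : FMod.{u, u} A}, N →L[ℂ] Tens (PlusR hA) N := fun {N} =>
    bilR (te_isContBilin (N := PlusR hA) (X := N)) (1, 0)
  have f_te : ∀ {N : FMod.{u, u} A} (hN : IsLeftMod A N) (e : N) (c : ℂ × A),
      f hN (te (N := PlusR hA) (X := N) c e) = pAct N c e := fun hN e c => teLift_te _ _ _ _
  have fg : ∀ {N : FMod.{u, u} A} (hN : IsLeftMod A N) (e : N), f hN (g e) = e := by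
    intro N hN e
    change f hN (te (1, 0) e) = e
    rw [f_te hN, pAct_one N hN.cont]
  have gf : ∀ {N : FMod.{u, u} A} (hN : IsLeftMod A N) (z : Tens (PlusR hA) N),
      g (f hN z) = z := by
    intro N hN z
    refine clm_te_ext (N := PlusR hA) (X := N) (f := g.comp (f hN))
      (g := ContinuousLinearMap.id ℂ _) (fun c e => ?_) z
    rw [ContinuousLinearMap.comp_apply, f_te hN]
    change te (N := PlusR hA) (X := N) (1, 0) (c.1 • e + N.op c.2 e) = te (N := PlusR hA) c e
    rw [te_isContBilin.add_right, te_isContBilin.smul_right, ← te_op,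
      ← te_isContBilin.smul_left, ← te_isContBilin.add_left]
    congr 1
    change c.1 • ((1 : ℂ), (0 : A)) + plR hA c.2 (1, 0) = c
    rw [plR_one, ← prod_split]
  have nat : ∀ {N M : FMod.{u, u} A} (hN : IsLeftMod A N) (hM : IsLeftMod A M) (k : FHom N M)
      (z : Tens (PlusR hA) N), f hM (tmap (FHom.id _) k z) = k.toCLM (f hN z) := by
    intro N M hN hM k z
    refine clm_te_ext (N := PlusR hA) (X := N) (f := (f hM).comp (tmap (FHom.id _) k))
      (g := k.toCLM.comp (f hN)) (fun c e => ?_) z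
    rw [ContinuousLinearMap.comp_apply, ContinuousLinearMap.comp_apply, tmap_te, f_te hM, f_te hN]
    unfold pAct
    rw [map_add, map_smul, k.comm]
    rfl
  exact exact3_transfer (fun z => f hE z) (fun z => f hF z) (fun z => f hG z) (fun z => g z)
    (fun z => g z) (fun z => g z) (gf hE) (fg hE) (gf hF) (fg hF) (gf hG) (fg hG) (map_zero _)
    (nat hE hF i) (nat hF hG p) hadm.1

end L

end

end Pool.Agent.Q19.Fre
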