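import Mathlib
import Pool.Agent.Q19.Fre.Plus

/-!
One-sided flatness from flatness of bimodules, direct sums.
-/

set_option autoImplicit false

namespace Pool.Agent.Q19.Fre

open Pool.Agent.Helper5 Filter Topology
open Pool.Agent.Q19.FreS (IsFre Exact3)

universe u v w

noncomputable section

variable {A : Type u} [NonUnitalRing A] [Module ℂ A] [UniformSpace A] [IsFre A]

/-- `f ⊗ g` as a morphism of bimodules -/
def outerHom {X X' Y Y' : FMod.{u, u} A} (f : FHom X X') (g : FHom Y Y') :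
    FHom (outer X Y) (outer X' Y') where
  toCLM := ptMap f.toCLM g.toCLM
  comm := by
    rintro (a | b) z
    · refine clm_pt_ext (f := (ptMap f.toCLM g.toCLM).comp ((outer X Y).op (Sum.inl a)))
        (g := ((outer X' Y').op (Sum.inl a)).comp (ptMap f.toCLM g.toCLM)) (fun x y => ?_) z
      rw [ContinuousLinearMap.comp_apply, ContinuousLinearMap.comp_apply, outer_inl, ptMap_pt,
        ptMap_pt, outer_inl, f.comm]
    · refine clm_pt_ext (f := (ptMap f.toCLM g.toCLM).comp ((outer X Y).op (Sum.inr b)))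
        (g := ((outer X' Y').op (Sum.inr b)).comp (ptMap f.toCLM g.toCLM)) (fun x y => ?_) z
      rw [ContinuousLinearMap.comp_apply, ContinuousLinearMap.comp_apply, outer_inr, ptMap_pt,
        ptMap_pt, outer_inr, g.comm]

lemma outerHom_pt {X X' Y Y' : FMod.{u, u} A} (f : FHom X X') (g : FHom Y Y') (x : X) (y : Y) :
    (outerHom f g).toCLM (pt x y) = pt (f.toCLM x) (g.toCLM y) := ptMap_pt _ _ _ _

/-- the tensor product by `V` on the right preserves splittings -/
lemma tens_split' {V : Type u} [AddCommGroup V] [Module ℂ V] [UniformSpace V] [IsFre V]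
    {E F G : Type u} [AddCommGroup E] [Module ℂ E] [UniformSpace E] [IsFre E]
    [AddCommGroup F] [Module ℂ F] [UniformSpace F] [IsFre F]
    [AddCommGroup G] [Module ℂ G] [UniformSpace G] [IsFre G]
    (i : E →L[ℂ] F) (p : F →L[ℂ] G) (r : F →L[ℂ] E) (s : G →L[ℂ] F)
    (h1 : ∀ x, r (i x) = x) (h2 : ∀ z, p (s z) = z) (h3 : ∀ y, i (r y) + s (p y) = y) :
    (∀ x, ptMap r (ContinuousLinearMap.id ℂ V) (ptMap i (ContinuousLinearMap.id ℂ V) x) = x) ∧
    (∀ x, ptMap p (ContinuousLinearMap.id ℂ V) (ptMap s (ContinuousLinearMap.id ℂ V) x) = x) ∧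
    (∀ x, ptMap i (ContinuousLinearMap.id ℂ V) (ptMap r (ContinuousLinearMap.id ℂ V) x) +
      ptMap s (ContinuousLinearMap.id ℂ V) (ptMap p (ContinuousLinearMap.id ℂ V) x) = x) := by
  refine ⟨fun z => ?_, fun z => ?_, fun z => ?_⟩
  · refine clm_pt_ext (f := (ptMap r (ContinuousLinearMap.id ℂ V)).comp
      (ptMap i (ContinuousLinearMap.id ℂ V))) (g := ContinuousLinearMap.id ℂ _) (fun x v => ?_) z
    rw [ContinuousLinearMap.comp_apply, ptMap_pt, ptMap_pt, h1]
    rfl
  · refine clm_pt_ext (f := (ptMap p (ContinuousLinearMap.id ℂ V)).comp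
      (ptMap s (ContinuousLinearMap.id ℂ V))) (g := ContinuousLinearMap.id ℂ _) (fun x v => ?_) z
    rw [ContinuousLinearMap.comp_apply, ptMap_pt, ptMap_pt, h2]
    rfl
  · refine clm_pt_ext (f := (ptMap i (ContinuousLinearMap.id ℂ V)).comp
      (ptMap r (ContinuousLinearMap.id ℂ V)) + (ptMap s (ContinuousLinearMap.id ℂ V)).comp
      (ptMap p (ContinuousLinearMap.id ℂ V))) (g := ContinuousLinearMap.id ℂ _) (fun x v => ?_) z
    rw [add_apply, ContinuousLinearMap.comp_apply, ContinuousLinearMap.comp_apply, ptMap_pt,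
      ptMap_pt, ptMap_pt, ptMap_pt, ← pt_isContBilin.add_left, ContinuousLinearMap.id_apply, h3]
    rfl

lemma outer_adm_right (X : FMod.{u, u} A) {E F G : FMod.{u, u} A} {i : FHom E F} {p : FHom F G}
    (h : Admissible i p) : Admissible (outerHom (FHom.id X) i) (outerHom (FHom.id X) p) := by
  obtain ⟨_, r, s, h1, h2, h3⟩ := h
  obtain ⟨k1, k2, k3⟩ := tens_split (V := X) i.toCLM p.toCLM r s h1 h2 h3
  exact admissible_of (ptMap (ContinuousLinearMap.id ℂ X) r) (ptMap (ContinuousLinearMap.id ℂ X) s)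
    k1 k2 k3

lemma outer_adm_left (Y : FMod.{u, u} A) {E F G : FMod.{u, u} A} {i : FHom E F} {p : FHom F G}
    (h : Admissible i p) : Admissible (outerHom i (FHom.id Y)) (outerHom p (FHom.id Y)) := by
  obtain ⟨_, r, s, h1, h2, h3⟩ := h
  obtain ⟨k1, k2, k3⟩ := tens_split' (V := Y) i.toCLM p.toCLM r s h1 h2 h3
  exact admissible_of (ptMap r (ContinuousLinearMap.id ℂ Y)) (ptMap s (ContinuousLinearMap.id ℂ Y))
    k1 k2 k3

section OneSided

variable {Z : FMod.{u, u} (A ⊕ A)}

/-! ### left -/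

lemma lfTri (hZ : IsBimod A Z) (E : FMod.{u, u} A) :
    IsTri (fun (z : Z) (c : ℂ × A) (e : E) =>
      te (N := E) (X := Z.left) e (pAct Z.right c z)) :=
  (tri_right (te_isContBilin (N := E) (X := Z.left))
    (pAct_bilin (E := Z.right) hZ.right.cont)).swap23.swap12.swap23

/-- `(A_+ ⊗̂ E) ⊗̂_{A^e} Z → E ⊗̂_A Z` -/
def lf (hA : IsFAlg A) (hZ : IsBimod A Z) (E : FMod.{u, u} A) :
    Tens (outer (PlusL hA) E).swap Z →L[ℂ] Tens E Z.left :=
  teLift (N := (outer (PlusL hA) E).swap) (X := Z)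
    (B := fun (w : PT (ℂ × A) E) (z : Z) => ptTri (lfTri hZ E) z w)
    (bil_flip (ptTri_bilin (lfTri hZ E))) (by
    rintro (a | b) w z
    · refine clm_pt_ext
        (f := (bilR (ptTri_bilin (lfTri hZ E)) z).comp
          (ptMap (ContinuousLinearMap.id ℂ (ℂ × A)) (E.op a)))
        (g := bilR (ptTri_bilin (lfTri hZ E)) (Z.op (Sum.inl a) z)) (fun c e => ?_) w
      rw [ContinuousLinearMap.comp_apply, ptMap_pt, bilR_apply, bilR_apply, ptTri_pt, ptTri_pt,
        te_op]
      congr 1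
      change Z.op (Sum.inl a) (pAct Z.right c z) = pAct Z.right c (Z.op (Sum.inl a) z)
      unfold pAct
      rw [map_add, map_smul]
      congr 1
      exact hZ.comm a c.2 z
    · refine clm_pt_ext
        (f := (bilR (ptTri_bilin (lfTri hZ E)) z).comp
          (ptMap (plL hA b) (ContinuousLinearMap.id ℂ E)))
        (g := bilR (ptTri_bilin (lfTri hZ E)) (Z.op (Sum.inr b) z)) (fun c e => ?_) w
      rw [ContinuousLinearMap.comp_apply, ptMap_pt, bilR_apply, bilR_apply, ptTri_pt, ptTri_pt,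
        pAct_right_L hA hZ.right]
      rfl)

lemma lf_te (hA : IsFAlg A) (hZ : IsBimod A Z) (E : FMod.{u, u} A) (c : ℂ × A) (e : E) (z : Z) :
    lf hA hZ E (te (N := (outer (PlusL hA) E).swap) (X := Z) (pt c e) z) =
      te (N := E) (X := Z.left) e (pAct Z.right c z) := by
  unfold lf
  rw [teLift_te, ptTri_pt]

/-- `E ⊗̂_A Z → (A_+ ⊗̂ E) ⊗̂_{A^e} Z` -/
def lg (hA : IsFAlg A) (Z : FMod.{u, u} (A ⊕ A)) (E : FMod.{u, u} A) :
    Tens E Z.left →L[ℂ] Tens (outer (PlusL hA) E).swap Z :=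
  teLift (N := E) (X := Z.left)
    (B := fun (e : E) (z : Z) =>
      te (N := (outer (PlusL hA) E).swap) (X := Z) (pt ((1 : ℂ), (0 : A)) e) z)
    (bil_pre (te_isContBilin (N := (outer (PlusL hA) E).swap) (X := Z))
      (bilR (pt_isContBilin (X := ℂ × A) (Y := E)) (1, 0)) (ContinuousLinearMap.id ℂ Z)) (by
    intro a e z
    have h1 : pt ((1 : ℂ), (0 : A)) (E.op a e) =
        (outer (PlusL hA) E).op (Sum.inr a) (pt ((1 : ℂ), (0 : A)) e) :=
      (outer_inr (X := PlusL hA) (Y := E) a _ e).symm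
    rw [h1]
    exact te_op (N := (outer (PlusL hA) E).swap) (X := Z) (Sum.inl a) (pt ((1 : ℂ), (0 : A)) e) z)

lemma lg_te (hA : IsFAlg A) (E : FMod.{u, u} A) (e : E) (z : Z) :
    lg hA Z E (te (N := E) (X := Z.left) e z) =
      te (N := (outer (PlusL hA) E).swap) (X := Z) (pt ((1 : ℂ), (0 : A)) e) z := by
  unfold lg
  rw [teLift_te]

lemma lf_lg (hA : IsFAlg A) (hZ : IsBimod A Z) (E : FMod.{u, u} A) (w : Tens E Z.left) :
    lf hA hZ E (lg hA Z E w) = w := by
  refine clm_te_ext (N := E) (X := Z.left) (f := (lf hA hZ E).comp (lg hA Z E))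
    (g := ContinuousLinearMap.id ℂ _) (fun e z => ?_) w
  rw [ContinuousLinearMap.comp_apply, lg_te, lf_te, pAct_one Z.right hZ.right.cont]
  rfl

lemma lg_lf (hA : IsFAlg A) (hZ : IsBimod A Z) (E : FMod.{u, u} A)
    (w : Tens (outer (PlusL hA) E).swap Z) : lg hA Z E (lf hA hZ E w) = w := by
  refine clm_te_ext (N := (outer (PlusL hA) E).swap) (X := Z) (f := (lg hA Z E).comp (lf hA hZ E))
    (g := ContinuousLinearMap.id ℂ _) (fun t z => ?_) w
  refine clm_pt_ext (X := ℂ × A) (Y := E)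
    (f := ((lg hA Z E).comp (lf hA hZ E)).comp
      (bilL (te_isContBilin (N := (outer (PlusL hA) E).swap) (X := Z)) z))
    (g := bilL (te_isContBilin (N := (outer (PlusL hA) E).swap) (X := Z)) z) (fun c e => ?_) t
  rw [ContinuousLinearMap.comp_apply, bilL_apply, ContinuousLinearMap.comp_apply, lf_te, lg_te]
  have h1 : te (N := (outer (PlusL hA) E).swap) (X := Z) (pt ((1 : ℂ), (0 : A)) e)
      (Z.op (Sum.inr c.2) z) =
      te (N := (outer (PlusL hA) E).swap) (X := Z) (pt ((0 : ℂ), c.2) e) z := by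
    have h2 : pt ((0 : ℂ), c.2) e =
        (outer (PlusL hA) E).op (Sum.inl c.2) (pt ((1 : ℂ), (0 : A)) e) := by
      rw [outer_inl]
      change _ = pt (plL hA c.2 (1, 0)) e
      rw [plL_one]
    rw [h2]
    exact (te_op (N := (outer (PlusL hA) E).swap) (X := Z) (Sum.inr c.2)
      (pt ((1 : ℂ), (0 : A)) e) z).symm
  have h3 : te (N := (outer (PlusL hA) E).swap) (X := Z) (pt ((1 : ℂ), (0 : A)) e)
      (pAct Z.right c z) = c.1 • te (N := (outer (PlusL hA) E).swap) (X := Z)
        (pt ((1 : ℂ), (0 : A)) e) z + te (N := (outer (PlusL hA) E).swap) (X := Z)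
        (pt ((1 : ℂ), (0 : A)) e) (Z.op (Sum.inr c.2) z) := by
    unfold pAct
    rw [← te_isContBilin.smul_right, ← te_isContBilin.add_right]
  refine h3.trans ?_
  rw [h1, ← te_isContBilin.smul_left, ← te_isContBilin.add_left, ← pt_isContBilin.smul_left,
    ← pt_isContBilin.add_left, ← prod_split]

lemma lf_nat (hA : IsFAlg A) (hZ : IsBimod A Z) {E F : FMod.{u, u} A} (k : FHom E F)
    (w : Tens (outer (PlusL hA) E).swap Z) :
    lf hA hZ F (tmap (outerHom (FHom.id (PlusL hA)) k).swap (FHom.id Z) w) =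
      tmap k (FHom.id Z.left) (lf hA hZ E w) := by
  refine clm_te_ext (N := (outer (PlusL hA) E).swap) (X := Z)
    (f := (lf hA hZ F).comp (tmap (outerHom (FHom.id (PlusL hA)) k).swap (FHom.id Z)))
    (g := (tmap k (FHom.id Z.left)).comp (lf hA hZ E)) (fun t z => ?_) w
  refine clm_pt_ext (X := ℂ × A) (Y := E)
    (f := ((lf hA hZ F).comp (tmap (outerHom (FHom.id (PlusL hA)) k).swap (FHom.id Z))).comp
      (bilL (te_isContBilin (N := (outer (PlusL hA) E).swap) (X := Z)) z))
    (g := ((tmap k (FHom.id Z.left)).comp (lf hA hZ E)).comp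
      (bilL (te_isContBilin (N := (outer (PlusL hA) E).swap) (X := Z)) z)) (fun c e => ?_) t
  rw [ContinuousLinearMap.comp_apply, ContinuousLinearMap.comp_apply, bilL_apply,
    ContinuousLinearMap.comp_apply, ContinuousLinearMap.comp_apply, bilL_apply, lf_te, tmap_te,
    tmap_te]
  have h1 : (outerHom (FHom.id (PlusL hA)) k).swap.toCLM (pt c e) = pt c (k.toCLM e) :=
    outerHom_pt (FHom.id (PlusL hA)) k c e
  refine (congrArg (fun t => lf hA hZ F (te (N := (outer (PlusL hA) F).swap) (X := Z) t z))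
    h1).trans ?_
  exact lf_te hA hZ F c (k.toCLM e) z

/-- a flat bimodule is flat as a left module -/
theorem flatLeft_of_flatBi (hA : IsFAlg A) (hZ : IsBimod A Z) (h : FlatBi A Z) :
    FlatLeft A Z.left := by
  intro E F G hE hF hG i p hadm
  have H := h _ _ _ (outer_isBimod (plusL_isLeft hA) hE) (outer_isBimod (plusL_isLeft hA) hF)
    (outer_isBimod (plusL_isLeft hA) hG) _ _ (outer_adm_right (PlusL hA) hadm)
  refine exact3_transfer (fun z => lg hA Z E z) (fun z => lg hA Z F z) (fun z => lg hA Z G z)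
    (fun z => lf hA hZ E z) (fun z => lf hA hZ F z) (fun z => lf hA hZ G z)
    (lf_lg hA hZ E) (lg_lf hA hZ E) (lf_lg hA hZ F) (lg_lf hA hZ F) (lf_lg hA hZ G)
    (lg_lf hA hZ G) (map_zero _) ?_ ?_ H
  · intro w
    have := lf_nat hA hZ i (lg hA Z E w)
    rw [lf_lg] at this
    have h2 := congrArg (lg hA Z F) this
    rw [lg_lf] at h2
    exact h2.symm
  · intro w
    have := lf_nat hA hZ p (lg hA Z F w)
    rw [lf_lg] at this
    have h2 := congrArg (lg hA Z G) this
    rw [lg_lf] at h2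
    exact h2.symm

/-! ### right -/

lemma rfTri (hZ : IsBimod A Z) (E : FMod.{u, u} A) :
    IsTri (fun (z : Z) (e : E) (c : ℂ × A) =>
      te (N := Z.right) (X := E) (pAct Z.left c z) e) :=
  (tri_left (te_isContBilin (N := Z.right) (X := E))
    (pAct_bilin (E := Z.left) hZ.left.cont)).swap12.swap23

/-- `(E ⊗̂ A_+) ⊗̂_{A^e} Z → Z ⊗̂_A E` -/
def rf (hA : IsFAlg A) (hZ : IsBimod A Z) (E : FMod.{u, u} A) :
    Tens (outer E (PlusR hA)).swap Z →L[ℂ] Tens Z.right E :=
  teLift (N := (outer E (PlusR hA)).swap) (X := Z)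
    (B := fun (w : PT E (ℂ × A)) (z : Z) => ptTri (rfTri hZ E) z w)
    (bil_flip (ptTri_bilin (rfTri hZ E))) (by
    rintro (b | b) w z
    · refine clm_pt_ext
        (f := (bilR (ptTri_bilin (rfTri hZ E)) z).comp
          (ptMap (ContinuousLinearMap.id ℂ E) (plR hA b)))
        (g := bilR (ptTri_bilin (rfTri hZ E)) (Z.op (Sum.inl b) z)) (fun e c => ?_) w
      rw [ContinuousLinearMap.comp_apply, ptMap_pt, bilR_apply, bilR_apply, ptTri_pt, ptTri_pt,
        pAct_left_R hA hZ.left]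
      rfl
    · refine clm_pt_ext
        (f := (bilR (ptTri_bilin (rfTri hZ E)) z).comp
          (ptMap (E.op b) (ContinuousLinearMap.id ℂ (ℂ × A))))
        (g := bilR (ptTri_bilin (rfTri hZ E)) (Z.op (Sum.inr b) z)) (fun e c => ?_) w
      rw [ContinuousLinearMap.comp_apply, ptMap_pt, bilR_apply, bilR_apply, ptTri_pt, ptTri_pt,
        ← te_op]
      congr 1
      change Z.op (Sum.inr b) (pAct Z.left c z) = pAct Z.left c (Z.op (Sum.inr b) z)
      unfold pAct
      rw [map_add, map_smul]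
      congr 1
      exact (hZ.comm c.2 b z).symm)

lemma rf_te (hA : IsFAlg A) (hZ : IsBimod A Z) (E : FMod.{u, u} A) (c : ℂ × A) (e : E) (z : Z) :
    rf hA hZ E (te (N := (outer E (PlusR hA)).swap) (X := Z) (pt e c) z) =
      te (N := Z.right) (X := E) (pAct Z.left c z) e := by
  unfold rf
  rw [teLift_te, ptTri_pt]

/-- `Z ⊗̂_A E → (E ⊗̂ A_+) ⊗̂_{A^e} Z` -/
def rg (hA : IsFAlg A) (Z : FMod.{u, u} (A ⊕ A)) (E : FMod.{u, u} A) :
    Tens Z.right E →L[ℂ] Tens (outer E (PlusR hA)).swap Z :=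
  teLift (N := Z.right) (X := E)
    (B := fun (z : Z) (e : E) =>
      te (N := (outer E (PlusR hA)).swap) (X := Z) (pt e ((1 : ℂ), (0 : A))) z)
    (bil_flip (bil_pre (te_isContBilin (N := (outer E (PlusR hA)).swap) (X := Z))
      (bilL (pt_isContBilin (X := E) (Y := ℂ × A)) (1, 0)) (ContinuousLinearMap.id ℂ Z))) (by
    intro a z e
    have h1 : pt (E.op a e) ((1 : ℂ), (0 : A)) =
        (outer E (PlusR hA)).op (Sum.inl a) (pt e ((1 : ℂ), (0 : A))) :=
      (outer_inl (X := E) (Y := PlusR hA) a e _).symm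
    rw [h1]
    exact (te_op (N := (outer E (PlusR hA)).swap) (X := Z) (Sum.inr a)
      (pt e ((1 : ℂ), (0 : A))) z).symm)

lemma rg_te (hA : IsFAlg A) (E : FMod.{u, u} A) (e : E) (z : Z) :
    rg hA Z E (te (N := Z.right) (X := E) z e) =
      te (N := (outer E (PlusR hA)).swap) (X := Z) (pt e ((1 : ℂ), (0 : A))) z := by
  unfold rg
  rw [teLift_te]

lemma rf_rg (hA : IsFAlg A) (hZ : IsBimod A Z) (E : FMod.{u, u} A) (w : Tens Z.right E) :
    rf hA hZ E (rg hA Z E w) = w := by
  refine clm_te_ext (N := Z.right) (X := E) (f := (rf hA hZ E).comp (rg hA Z E))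
    (g := ContinuousLinearMap.id ℂ _) (fun z e => ?_) w
  rw [ContinuousLinearMap.comp_apply, rg_te, rf_te, pAct_one Z.left hZ.left.cont]
  rfl

lemma rg_rf (hA : IsFAlg A) (hZ : IsBimod A Z) (E : FMod.{u, u} A)
    (w : Tens (outer E (PlusR hA)).swap Z) : rg hA Z E (rf hA hZ E w) = w := by
  refine clm_te_ext (N := (outer E (PlusR hA)).swap) (X := Z) (f := (rg hA Z E).comp (rf hA hZ E))
    (g := ContinuousLinearMap.id ℂ _) (fun t z => ?_) w
  refine clm_pt_ext (X := E) (Y := ℂ × A)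
    (f := ((rg hA Z E).comp (rf hA hZ E)).comp
      (bilL (te_isContBilin (N := (outer E (PlusR hA)).swap) (X := Z)) z))
    (g := bilL (te_isContBilin (N := (outer E (PlusR hA)).swap) (X := Z)) z) (fun e c => ?_) t
  rw [ContinuousLinearMap.comp_apply, bilL_apply, ContinuousLinearMap.comp_apply, rf_te, rg_te]
  have h1 : te (N := (outer E (PlusR hA)).swap) (X := Z) (pt e ((1 : ℂ), (0 : A)))
      (Z.op (Sum.inl c.2) z) =
      te (N := (outer E (PlusR hA)).swap) (X := Z) (pt e ((0 : ℂ), c.2)) z := by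
    have h2 : pt e ((0 : ℂ), c.2) =
        (outer E (PlusR hA)).op (Sum.inr c.2) (pt e ((1 : ℂ), (0 : A))) := by
      rw [outer_inr]
      change _ = pt e (plR hA c.2 (1, 0))
      rw [plR_one]
    rw [h2]
    exact (te_op (N := (outer E (PlusR hA)).swap) (X := Z) (Sum.inl c.2)
      (pt e ((1 : ℂ), (0 : A))) z).symm
  have h3 : te (N := (outer E (PlusR hA)).swap) (X := Z) (pt e ((1 : ℂ), (0 : A)))
      (pAct Z.left c z) = c.1 • te (N := (outer E (PlusR hA)).swap) (X := Z)
        (pt e ((1 : ℂ), (0 : A))) z + te (N := (outer E (PlusR hA)).swap) (X := Z)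
        (pt e ((1 : ℂ), (0 : A))) (Z.op (Sum.inl c.2) z) := by
    unfold pAct
    rw [← te_isContBilin.smul_right, ← te_isContBilin.add_right]
  refine h3.trans ?_
  rw [h1, ← te_isContBilin.smul_left, ← te_isContBilin.add_left, ← pt_isContBilin.smul_right,
    ← pt_isContBilin.add_right, ← prod_split]

lemma rf_nat (hA : IsFAlg A) (hZ : IsBimod A Z) {E F : FMod.{u, u} A} (k : FHom E F)
    (w : Tens (outer E (PlusR hA)).swap Z) :
    rf hA hZ F (tmap (outerHom k (FHom.id (PlusR hA))).swap (FHom.id Z) w) =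
      tmap (FHom.id Z.right) k (rf hA hZ E w) := by
  refine clm_te_ext (N := (outer E (PlusR hA)).swap) (X := Z)
    (f := (rf hA hZ F).comp (tmap (outerHom k (FHom.id (PlusR hA))).swap (FHom.id Z)))
    (g := (tmap (FHom.id Z.right) k).comp (rf hA hZ E)) (fun t z => ?_) w
  refine clm_pt_ext (X := E) (Y := ℂ × A)
    (f := ((rf hA hZ F).comp (tmap (outerHom k (FHom.id (PlusR hA))).swap (FHom.id Z))).comp
      (bilL (te_isContBilin (N := (outer E (PlusR hA)).swap) (X := Z)) z))
    (g := ((tmap (FHom.id Z.right) k).comp (rf hA hZ E)).comp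
      (bilL (te_isContBilin (N := (outer E (PlusR hA)).swap) (X := Z)) z)) (fun e c => ?_) t
  rw [ContinuousLinearMap.comp_apply, ContinuousLinearMap.comp_apply, bilL_apply,
    ContinuousLinearMap.comp_apply, ContinuousLinearMap.comp_apply, bilL_apply, rf_te, tmap_te,
    tmap_te]
  have h1 : (outerHom k (FHom.id (PlusR hA))).swap.toCLM (pt e c) = pt (k.toCLM e) c :=
    outerHom_pt k (FHom.id (PlusR hA)) e c
  refine (congrArg (fun t => rf hA hZ F (te (N := (outer F (PlusR hA)).swap) (X := Z) t z))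
    h1).trans ?_
  exact rf_te hA hZ F c (k.toCLM e) z

/-- a flat bimodule is flat as a right module -/
theorem flatRight_of_flatBi (hA : IsFAlg A) (hZ : IsBimod A Z) (h : FlatBi A Z) :
    FlatRight A Z.right := by
  intro E F G hE hF hG i p hadm
  have H := h _ _ _ (outer_isBimod hE (plusR_isRight hA)) (outer_isBimod hF (plusR_isRight hA))
    (outer_isBimod hG (plusR_isRight hA)) _ _ (outer_adm_left (PlusR hA) hadm)
  refine exact3_transfer (fun z => rg hA Z E z) (fun z => rg hA Z F z) (fun z => rg hA Z G z)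
    (fun z => rf hA hZ E z) (fun z => rf hA hZ F z) (fun z => rf hA hZ G z)
    (rf_rg hA hZ E) (rg_rf hA hZ E) (rf_rg hA hZ F) (rg_rf hA hZ F) (rf_rg hA hZ G)
    (rg_rf hA hZ G) (map_zero _) ?_ ?_ H
  · intro w
    have := rf_nat hA hZ i (rg hA Z E w)
    rw [rf_rg] at this
    have h2 := congrArg (rg hA Z F) this
    rw [rg_rf] at h2
    exact h2.symm
  · intro w
    have := rf_nat hA hZ p (rg hA Z F w)
    rw [rf_rg] at this
    have h2 := congrArg (rg hA Z G) this
    rw [rg_rf] at h2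
    exact h2.symm

end OneSided

end

end Pool.Agent.Q19.Fre
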