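import Mathlib
import Pool.Agent.Q19.Fre.Biflat

/-!
Direct sums of bimodules and the zero bimodule.
-/

set_option autoImplicit false

namespace Pool.Agent.Q19.Fre

open Pool.Agent.Helper5 Filter Topology
open Pool.Agent.Q19.FreS (IsFre Exact3)

universe u v w

noncomputable section

section DSum

variable {ι : Type v}

/-- direct sum -/
abbrev dsum (M N : FMod.{u, v} ι) : FMod.{u, v} ι where
  carrier := M × N
  op i := (M.op i).prodMap (N.op i)

/-- projection -/
def fstH (M N : FMod.{u, v} ι) : FHom (dsum M N) M := ⟨ContinuousLinearMap.fst ℂ M N, fun _ _ => rfl⟩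

/-- projection -/
def sndH (M N : FMod.{u, v} ι) : FHom (dsum M N) N := ⟨ContinuousLinearMap.snd ℂ M N, fun _ _ => rfl⟩

/-- inclusion -/
def inlH (M N : FMod.{u, v} ι) : FHom M (dsum M N) :=
  ⟨ContinuousLinearMap.inl ℂ M N, fun i m => by
    refine Prod.ext rfl ?_
    exact (map_zero (N.op i)).symm⟩

/-- inclusion -/
def inrH (M N : FMod.{u, v} ι) : FHom N (dsum M N) :=
  ⟨ContinuousLinearMap.inr ℂ M N, fun i m => by
    refine Prod.ext ?_ rfl
    exact (map_zero (M.op i)).symm⟩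

variable {N M M' : FMod.{u, v} ι}

/-- `N ⊗ (M ⊕ M') → (N ⊗ M) ⊕ (N ⊗ M')` -/
def sf (N M M' : FMod.{u, v} ι) : Tens N (dsum M M') →L[ℂ] Tens N M × Tens N M' :=
  (tmap (FHom.id N) (fstH M M')).prod (tmap (FHom.id N) (sndH M M'))

/-- `(N ⊗ M) ⊕ (N ⊗ M') → N ⊗ (M ⊕ M')` -/
def sg (N M M' : FMod.{u, v} ι) : Tens N M × Tens N M' →L[ℂ] Tens N (dsum M M') :=
  (tmap (FHom.id N) (inlH M M')).comp (ContinuousLinearMap.fst ℂ _ _) +
    (tmap (FHom.id N) (inrH M M')).comp (ContinuousLinearMap.snd ℂ _ _)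

lemma sf_apply (z : Tens N (dsum M M')) : sf N M M' z =
    (tmap (FHom.id N) (fstH M M') z, tmap (FHom.id N) (sndH M M') z) := rfl

lemma sg_apply (z : Tens N M × Tens N M') : sg N M M' z =
    tmap (FHom.id N) (inlH M M') z.1 + tmap (FHom.id N) (inrH M M') z.2 := rfl

lemma sg_sf (z : Tens N (dsum M M')) : sg N M M' (sf N M M' z) = z := by
  refine clm_te_ext (N := N) (X := dsum M M') (f := (sg N M M').comp (sf N M M'))
    (g := ContinuousLinearMap.id ℂ _) (fun n x => ?_) z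
  rw [ContinuousLinearMap.comp_apply, sf_apply, sg_apply]
  simp only [tmap_te]
  rw [← te_isContBilin.add_right]
  change te (X := dsum M M') n ((x.1, 0) + (0, x.2)) = te n x
  congr 1
  exact Prod.ext (add_zero _) (zero_add _)

lemma sf_sg (z : Tens N M × Tens N M') : sf N M M' (sg N M M' z) = z := by
  have k1 : ∀ w : Tens N M, tmap (FHom.id N) (fstH M M') (tmap (FHom.id N) (inlH M M') w) = w := by
    intro w
    rw [tmap_comp]
    exact tmap_id w
  have k2 : ∀ w : Tens N M', tmap (FHom.id N) (sndH M M') (tmap (FHom.id N) (inrH M M') w) = w := by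
    intro w
    rw [tmap_comp]
    exact tmap_id w
  have k3 : ∀ w : Tens N M', tmap (FHom.id N) (fstH M M') (tmap (FHom.id N) (inrH M M') w) = 0 := by
    intro w
    refine clm_te_ext (N := N) (X := M') (f := (tmap (FHom.id N) (fstH M M')).comp
      (tmap (FHom.id N) (inrH M M'))) (g := 0) (fun n x => ?_) w
    rw [ContinuousLinearMap.comp_apply, tmap_te, tmap_te]
    exact te_isContBilin.zero_right n
  have k4 : ∀ w : Tens N M, tmap (FHom.id N) (sndH M M') (tmap (FHom.id N) (inlH M M') w) = 0 := by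
    intro w
    refine clm_te_ext (N := N) (X := M) (f := (tmap (FHom.id N) (sndH M M')).comp
      (tmap (FHom.id N) (inlH M M'))) (g := 0) (fun n x => ?_) w
    rw [ContinuousLinearMap.comp_apply, tmap_te, tmap_te]
    exact te_isContBilin.zero_right n
  rw [sg_apply, sf_apply, map_add, map_add, k1, k2, k3, k4, add_zero, zero_add]

lemma sf_nat {N' : FMod.{u, v} ι} (k : FHom N N') (z : Tens N (dsum M M')) :
    sf N' M M' (tmap k (FHom.id _) z) =
      (tmap k (FHom.id M) (sf N M M' z).1, tmap k (FHom.id M') (sf N M M' z).2) := by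
  rw [sf_apply, sf_apply, tmap_comp, tmap_comp, tmap_comp, tmap_comp]
  rfl

lemma exact3_prod {E F G E' F' G' : Type u} [AddCommGroup E] [AddCommGroup F] [AddCommGroup G]
    [AddCommGroup E'] [AddCommGroup F'] [AddCommGroup G'] {I : E → F} {P : F → G}
    {I' : E' → F'} {P' : F' → G'} (h : Exact3 I P) (h' : Exact3 I' P') :
    Exact3 (fun z : E × E' => (I z.1, I' z.2)) (fun z : F × F' => (P z.1, P' z.2)) := by
  obtain ⟨a1, a2, a3⟩ := h
  obtain ⟨b1, b2, b3⟩ := h'
  refine ⟨?_, ?_, ?_⟩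
  · rintro ⟨x, x'⟩ ⟨y, y'⟩ hxy
    obtain ⟨h1, h2⟩ := Prod.mk.inj hxy
    exact Prod.ext (a1 h1) (b1 h2)
  · rintro ⟨y, y'⟩
    constructor
    · intro h
      obtain ⟨h1, h2⟩ := Prod.mk.inj h
      obtain ⟨x, hx⟩ := (a2 y).1 h1
      obtain ⟨x', hx'⟩ := (b2 y').1 h2
      exact ⟨(x, x'), Prod.ext hx hx'⟩
    · rintro ⟨⟨x, x'⟩, hx⟩
      obtain ⟨h1, h2⟩ := Prod.mk.inj hx
      exact Prod.ext ((a2 y).2 ⟨x, h1⟩) ((b2 y').2 ⟨x', h2⟩)
  · rintro ⟨z, z'⟩
    obtain ⟨y, hy⟩ := a3 z
    obtain ⟨y', hy'⟩ := b3 z'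
    exact ⟨(y, y'), Prod.ext hy hy'⟩

end DSum

variable {A : Type u} [NonUnitalRing A] [Module ℂ A] [UniformSpace A] [IsFre A]

lemma bil_prod {X Y Z W : Type u} [AddCommGroup X] [Module ℂ X] [TopologicalSpace X]
    [AddCommGroup Y] [Module ℂ Y] [TopologicalSpace Y] [AddCommGroup Z] [Module ℂ Z]
    [TopologicalSpace Z] [AddCommGroup W] [Module ℂ W] [TopologicalSpace W]
    {B : X → Y → Z} {C : X → Y → W} (hB : IsContBilin B) (hC : IsContBilin C) :
    IsContBilin (fun x y => (B x y, C x y)) where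
  add_left x x' y := Prod.ext (hB.add_left _ _ _) (hC.add_left _ _ _)
  smul_left c x y := Prod.ext (hB.smul_left _ _ _) (hC.smul_left _ _ _)
  add_right x y y' := Prod.ext (hB.add_right _ _ _) (hC.add_right _ _ _)
  smul_right c x y := Prod.ext (hB.smul_right _ _ _) (hC.smul_right _ _ _)
  cont := hB.cont.prodMk hC.cont

lemma dsum_isBimod {M N : FMod.{u, u} (A ⊕ A)} (hM : IsBimod A M) (hN : IsBimod A N) :
    IsBimod A (dsum M N) where
  left := ⟨bil_prod
      (bil_pre hM.left.cont (ContinuousLinearMap.id ℂ A) (ContinuousLinearMap.fst ℂ M N))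
      (bil_pre hN.left.cont (ContinuousLinearMap.id ℂ A) (ContinuousLinearMap.snd ℂ M N)),
    fun a b m => Prod.ext (hM.left.mul a b m.1) (hN.left.mul a b m.2)⟩
  right := ⟨bil_prod
      (bil_pre hM.right.cont (ContinuousLinearMap.id ℂ A) (ContinuousLinearMap.fst ℂ M N))
      (bil_pre hN.right.cont (ContinuousLinearMap.id ℂ A) (ContinuousLinearMap.snd ℂ M N)),
    fun a b m => Prod.ext (hM.right.mul a b m.1) (hN.right.mul a b m.2)⟩
  comm a b m := Prod.ext (hM.comm a b m.1) (hN.comm a b m.2)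

theorem dsum_flat {M N : FMod.{u, u} (A ⊕ A)} (hM : FlatBi A M) (hN : FlatBi A N) :
    FlatBi A (dsum M N) := by
  intro E F G hE hF hG i p hadm
  have H1 := hM E F G hE hF hG i p hadm
  have H2 := hN E F G hE hF hG i p hadm
  exact exact3_transfer (fun z => sf E.swap M N z) (fun z => sf F.swap M N z)
    (fun z => sf G.swap M N z) (fun z => sg E.swap M N z) (fun z => sg F.swap M N z)
    (fun z => sg G.swap M N z) sg_sf sf_sg sg_sf sf_sg sg_sf sf_sg (map_zero _)
    (fun z => sf_nat i.swap z) (fun z => sf_nat p.swap z) (exact3_prod H1 H2)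

section Zero

variable (A)

/-- the zero bimodule (the quotient of `A` by `A`) -/
abbrev zeroB : FMod.{u, u} (A ⊕ A) where
  carrier := Qt A (⊤ : Submodule ℂ A)
  op _ := 0

variable {A}

lemma zeroB_eq (x : Qt A (⊤ : Submodule ℂ A)) : x = 0 := by
  obtain ⟨v, rfl⟩ := qmk_surj _ x
  rw [qmk_eq_zero]
  exact Submodule.le_topologicalClosure _ trivial

lemma zeroB_isBimod : IsBimod A (zeroB A) where
  left := ⟨⟨fun _ _ _ => (add_zero _).symm, fun _ _ _ => (smul_zero _).symm,
    fun _ _ _ => (add_zero _).symm, fun _ _ _ => (smul_zero _).symm, continuous_const⟩,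
    fun _ _ _ => rfl⟩
  right := ⟨⟨fun _ _ _ => (add_zero _).symm, fun _ _ _ => (smul_zero _).symm,
    fun _ _ _ => (add_zero _).symm, fun _ _ _ => (smul_zero _).symm, continuous_const⟩,
    fun _ _ _ => rfl⟩
  comm _ _ _ := rfl

theorem zeroB_flat : FlatBi A (zeroB A) := by
  intro E F G hE hF hG i p hadm
  have key : ∀ {N : FMod.{u, u} (A ⊕ A)} (z : Tens N (zeroB A)), z = 0 := by
    intro N z
    refine clm_te_ext (N := N) (X := zeroB A) (f := ContinuousLinearMap.id ℂ _) (g := 0)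
      (fun n x => ?_) z
    have hx : x = 0 := zeroB_eq x
    rw [hx]
    exact te_isContBilin.zero_right n
  refine ⟨fun z w _ => (key z).trans (key w).symm, fun y => ⟨fun _ => ⟨0, ?_⟩, fun _ => key _⟩,
    fun z => ⟨0, ?_⟩⟩
  · exact (key _).trans (key y).symm
  · exact (key _).trans (key z).symm

end Zero

end

end Pool.Agent.Q19.Fre
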