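import Mathlib
import Pool.Agent.Q19.Fre.Sum

/-!
The flat resolution of length two of the bimodule `A_+` for a biflat algebra `A`.
-/

set_option autoImplicit false

namespace Pool.Agent.Q19.Fre

open Pool.Agent.Helper5 Filter Topology
open Pool.Agent.Q19.FreS (IsFre Exact3)

universe u v w

noncomputable section

variable {A : Type u} [NonUnitalRing A] [Module ℂ A] [UniformSpace A] [IsFre A]

/-- `A → A_+` -/
def inclL (hA : IsFAlg A) : FHom (regL hA) (PlusL hA) :=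
  ⟨ContinuousLinearMap.inr ℂ ℂ A, fun b a => by
    change ((0 : ℂ), b * a) = (0, (0 : ℂ) • b + b * a)
    rw [zero_smul, zero_add]⟩

/-- `A → A_+` -/
def inclR (hA : IsFAlg A) : FHom (regR hA) (PlusR hA) :=
  ⟨ContinuousLinearMap.inr ℂ ℂ A, fun b a => by
    change ((0 : ℂ), a * b) = (0, (0 : ℂ) • b + a * b)
    rw [zero_smul, zero_add]⟩

/-- multiplication `A_+ ⊗̂ A_+ → A_+` -/
def muP (hA : IsFAlg A) : FHom (outer (PlusL hA) (PlusR hA)) (PlusB hA) where
  toCLM := ptLift (pAct_bilin (E := PlusL hA) (plusL_isLeft hA).cont)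
  comm := by
    rintro (b | b) z
    · refine clm_pt_ext (X := ℂ × A) (Y := ℂ × A)
        (f := (ptLift (pAct_bilin (E := PlusL hA) (plusL_isLeft hA).cont)).comp
          (ptMap (plL hA b) (ContinuousLinearMap.id ℂ (ℂ × A))))
        (g := (plL hA b).comp (ptLift (pAct_bilin (E := PlusL hA) (plusL_isLeft hA).cont)))
        (fun c d => ?_) z
      rw [ContinuousLinearMap.comp_apply, ContinuousLinearMap.comp_apply, ptMap_pt, ptLift_pt,
        ptLift_pt]
      exact pAct_left_L hA (plusL_isLeft hA) b c d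
    · refine clm_pt_ext (X := ℂ × A) (Y := ℂ × A)
        (f := (ptLift (pAct_bilin (E := PlusL hA) (plusL_isLeft hA).cont)).comp
          (ptMap (ContinuousLinearMap.id ℂ (ℂ × A)) (plR hA b)))
        (g := (plR hA b).comp (ptLift (pAct_bilin (E := PlusL hA) (plusL_isLeft hA).cont)))
        (fun c d => ?_) z
      rw [ContinuousLinearMap.comp_apply, ContinuousLinearMap.comp_apply, ptMap_pt, ptLift_pt,
        ptLift_pt]
      unfold pAct
      rw [map_add, map_smul]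
      congr 1
      exact (plusB_isBimod hA).comm c.2 b d

lemma muP_pt (hA : IsFAlg A) (c d : ℂ × A) :
    (muP hA).toCLM (pt c d) = c.1 • d + plL hA c.2 d := ptLift_pt _ _ _

/-- multiplication `A ⊗̂ A_+ → A` -/
def mu1 (hA : IsFAlg A) : FHom (outer (regL hA) (PlusR hA)) (regB hA) where
  toCLM := ptLift (bil_flip (pAct_bilin (E := regR hA) (regR_isRight hA).cont))
  comm := by
    rintro (b | b) z
    · refine clm_pt_ext (X := A) (Y := ℂ × A)
        (f := (ptLift (bil_flip (pAct_bilin (E := regR hA) (regR_isRight hA).cont))).comp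
          (ptMap (mulL hA b) (ContinuousLinearMap.id ℂ (ℂ × A))))
        (g := (mulL hA b).comp
          (ptLift (bil_flip (pAct_bilin (E := regR hA) (regR_isRight hA).cont))))
        (fun a c => ?_) z
      rw [ContinuousLinearMap.comp_apply, ContinuousLinearMap.comp_apply, ptMap_pt, ptLift_pt,
        ptLift_pt]
      change c.1 • (b * a) + b * a * c.2 = b * (c.1 • a + a * c.2)
      rw [mul_add, mul_assoc]
      have : b * (c.1 • a) = c.1 • (b * a) := hA.smul_right c.1 b a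
      rw [this]
    · refine clm_pt_ext (X := A) (Y := ℂ × A)
        (f := (ptLift (bil_flip (pAct_bilin (E := regR hA) (regR_isRight hA).cont))).comp
          (ptMap (ContinuousLinearMap.id ℂ A) (plR hA b)))
        (g := (mulR hA b).comp
          (ptLift (bil_flip (pAct_bilin (E := regR hA) (regR_isRight hA).cont))))
        (fun a c => ?_) z
      rw [ContinuousLinearMap.comp_apply, ContinuousLinearMap.comp_apply, ptMap_pt, ptLift_pt,
        ptLift_pt]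
      exact pAct_right_R hA (regR_isRight hA) b c a

lemma mu1_pt (hA : IsFAlg A) (a : A) (c : ℂ × A) :
    (mu1 hA).toCLM (pt a c) = c.1 • a + a * c.2 := ptLift_pt _ _ _

/-- multiplication `A_+ ⊗̂ A → A` -/
def mu2 (hA : IsFAlg A) : FHom (outer (PlusL hA) (regR hA)) (regB hA) where
  toCLM := ptLift (pAct_bilin (E := regL hA) (regL_isLeft hA).cont)
  comm := by
    rintro (b | b) z
    · refine clm_pt_ext (X := ℂ × A) (Y := A)
        (f := (ptLift (pAct_bilin (E := regL hA) (regL_isLeft hA).cont)).comp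
          (ptMap (plL hA b) (ContinuousLinearMap.id ℂ A)))
        (g := (mulL hA b).comp (ptLift (pAct_bilin (E := regL hA) (regL_isLeft hA).cont)))
        (fun c a => ?_) z
      rw [ContinuousLinearMap.comp_apply, ContinuousLinearMap.comp_apply, ptMap_pt, ptLift_pt,
        ptLift_pt]
      exact pAct_left_L hA (regL_isLeft hA) b c a
    · refine clm_pt_ext (X := ℂ × A) (Y := A)
        (f := (ptLift (pAct_bilin (E := regL hA) (regL_isLeft hA).cont)).comp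
          (ptMap (ContinuousLinearMap.id ℂ (ℂ × A)) (mulR hA b)))
        (g := (mulR hA b).comp (ptLift (pAct_bilin (E := regL hA) (regL_isLeft hA).cont)))
        (fun c a => ?_) z
      rw [ContinuousLinearMap.comp_apply, ContinuousLinearMap.comp_apply, ptMap_pt, ptLift_pt,
        ptLift_pt]
      change c.1 • (a * b) + c.2 * (a * b) = (c.1 • a + c.2 * a) * b
      rw [add_mul, mul_assoc]
      have : (c.1 • a) * b = c.1 • (a * b) := hA.smul_left c.1 a b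
      rw [this]

lemma mu2_pt (hA : IsFAlg A) (c : ℂ × A) (a : A) :
    (mu2 hA).toCLM (pt c a) = c.1 • a + c.2 * a := ptLift_pt _ _ _

/-- degree zero -/
abbrev R0 (hA : IsFAlg A) : FMod.{u, u} (A ⊕ A) :=
  dsum (outer (PlusL hA) (PlusR hA)) (regB hA)

/-- degree one -/
abbrev R1 (hA : IsFAlg A) : FMod.{u, u} (A ⊕ A) :=
  dsum (outer (regL hA) (PlusR hA)) (outer (PlusL hA) (regR hA))

/-- degree two -/
abbrev R2 (hA : IsFAlg A) : FMod.{u, u} (A ⊕ A) := outer (regL hA) (regR hA)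

/-- sum of morphisms -/
def FHom.add {ι : Type v} {M N : FMod.{u, v} ι} (f g : FHom M N) : FHom M N :=
  ⟨f.toCLM + g.toCLM, fun i m => by
    rw [add_apply, add_apply, map_add, f.comm, g.comm]⟩

/-- negation of morphisms -/
def FHom.neg {ι : Type v} {M N : FMod.{u, v} ι} (f : FHom M N) : FHom M N :=
  ⟨-f.toCLM, fun i m => by
    rw [neg_apply, neg_apply, map_neg, f.comm]⟩

/-- pairing of morphisms -/
def FHom.pair {ι : Type v} {M N N' : FMod.{u, v} ι} (f : FHom M N) (g : FHom M N') :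
    FHom M (dsum N N') :=
  ⟨f.toCLM.prod g.toCLM, fun i m => Prod.ext (f.comm i m) (g.comm i m)⟩

/-- `A → A_+` as bimodules -/
def inclB (hA : IsFAlg A) : FHom (regB hA) (PlusB hA) :=
  ⟨ContinuousLinearMap.inr ℂ ℂ A, by
    rintro (b | b) a
    · exact (inclL hA).comm b a
    · exact (inclR hA).comm b a⟩

/-- the augmentation -/
def eps (hA : IsFAlg A) : FHom (R0 hA) (PlusB hA) :=
  ((muP hA).comp (fstH _ _)).add ((inclB hA).comp (sndH _ _))

lemma eps_apply (hA : IsFAlg A) (w : PT (ℂ × A) (ℂ × A)) (a : A) :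
    (eps hA).toCLM (w, a) = (muP hA).toCLM w + ((0 : ℂ), a) := rfl

/-- `A ⊗̂ A_+ → A_+ ⊗̂ A_+` -/
def i1 (hA : IsFAlg A) : FHom (outer (regL hA) (PlusR hA)) (outer (PlusL hA) (PlusR hA)) :=
  outerHom (inclL hA) (FHom.id _)

/-- `A_+ ⊗̂ A → A_+ ⊗̂ A_+` -/
def i2 (hA : IsFAlg A) : FHom (outer (PlusL hA) (regR hA)) (outer (PlusL hA) (PlusR hA)) :=
  outerHom (FHom.id _) (inclR hA)

lemma i1_pt (hA : IsFAlg A) (a : A) (c : ℂ × A) :
    (i1 hA).toCLM (pt a c) = pt ((0 : ℂ), a) c := outerHom_pt _ _ _ _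

lemma i2_pt (hA : IsFAlg A) (c : ℂ × A) (a : A) :
    (i2 hA).toCLM (pt c a) = pt c ((0 : ℂ), a) := outerHom_pt _ _ _ _

/-- `A ⊗̂ A → A ⊗̂ A_+` -/
def j1 (hA : IsFAlg A) : FHom (R2 hA) (outer (regL hA) (PlusR hA)) :=
  outerHom (FHom.id _) (inclR hA)

/-- `A ⊗̂ A → A_+ ⊗̂ A` -/
def j2 (hA : IsFAlg A) : FHom (R2 hA) (outer (PlusL hA) (regR hA)) :=
  outerHom (inclL hA) (FHom.id _)

lemma j1_pt (hA : IsFAlg A) (a b : A) :
    (j1 hA).toCLM (pt a b) = pt a ((0 : ℂ), b) := outerHom_pt _ _ _ _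

lemma j2_pt (hA : IsFAlg A) (a b : A) :
    (j2 hA).toCLM (pt a b) = pt ((0 : ℂ), a) b := outerHom_pt _ _ _ _

/-- the differential in degree one -/
def dd0 (hA : IsFAlg A) : FHom (R1 hA) (R0 hA) :=
  (((i1 hA).comp (fstH _ _)).add ((i2 hA).comp (sndH _ _))).pair
    (((mu1 hA).comp (fstH _ _)).add ((mu2 hA).comp (sndH _ _))).neg

lemma dd0_apply (hA : IsFAlg A) (u : PT A (ℂ × A)) (v : PT (ℂ × A) A) :
    (dd0 hA).toCLM (u, v) = ((i1 hA).toCLM u + (i2 hA).toCLM v,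
      -((mu1 hA).toCLM u + (mu2 hA).toCLM v)) := rfl

/-- the differential in degree two -/
def dd1 (hA : IsFAlg A) : FHom (R2 hA) (R1 hA) := (j1 hA).pair (j2 hA).neg

lemma dd1_apply (hA : IsFAlg A) (t : PT A A) :
    (dd1 hA).toCLM t = ((j1 hA).toCLM t, -((j2 hA).toCLM t)) := rfl

lemma eps_dd0 (hA : IsFAlg A) (x : R1 hA) : (eps hA).toCLM ((dd0 hA).toCLM x) = 0 := by
  obtain ⟨u, v⟩ := x
  rw [dd0_apply, eps_apply, map_add]
  have k1 : (muP hA).toCLM ((i1 hA).toCLM u) = ((0 : ℂ), (mu1 hA).toCLM u) := by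
    refine clm_pt_ext (X := A) (Y := ℂ × A) (f := (muP hA).toCLM.comp (i1 hA).toCLM)
      (g := (ContinuousLinearMap.inr ℂ ℂ A).comp (mu1 hA).toCLM) (fun a c => ?_) u
    rw [ContinuousLinearMap.comp_apply, i1_pt, muP_pt, ContinuousLinearMap.comp_apply, mu1_pt,
      zero_smul, zero_add]
    rfl
  have k2 : (muP hA).toCLM ((i2 hA).toCLM v) = ((0 : ℂ), (mu2 hA).toCLM v) := by
    refine clm_pt_ext (X := ℂ × A) (Y := A) (f := (muP hA).toCLM.comp (i2 hA).toCLM)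
      (g := (ContinuousLinearMap.inr ℂ ℂ A).comp (mu2 hA).toCLM) (fun c a => ?_) v
    rw [ContinuousLinearMap.comp_apply, i2_pt, muP_pt, ContinuousLinearMap.comp_apply, mu2_pt]
    refine Prod.ext ?_ ?_
    · change c.1 • (0 : ℂ) + 0 = 0
      rw [smul_zero, add_zero]
    · change c.1 • a + ((0 : ℂ) • c.2 + c.2 * a) = c.1 • a + c.2 * a
      rw [zero_smul, zero_add]
  rw [k1, k2]
  refine Prod.ext ?_ ?_
  · change (0 : ℂ) + 0 + 0 = 0
    rw [add_zero, add_zero]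
  · change (mu1 hA).toCLM u + (mu2 hA).toCLM v + -((mu1 hA).toCLM u + (mu2 hA).toCLM v) = 0
    rw [add_neg_cancel]

lemma dd0_dd1 (hA : IsFAlg A) (t : R2 hA) : (dd0 hA).toCLM ((dd1 hA).toCLM t) = 0 := by
  rw [dd1_apply, dd0_apply, map_neg, map_neg]
  have k1 : (i1 hA).toCLM ((j1 hA).toCLM t) = (i2 hA).toCLM ((j2 hA).toCLM t) := by
    refine clm_pt_ext (X := A) (Y := A) (f := (i1 hA).toCLM.comp (j1 hA).toCLM)
      (g := (i2 hA).toCLM.comp (j2 hA).toCLM) (fun a b => ?_) t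
    rw [ContinuousLinearMap.comp_apply, ContinuousLinearMap.comp_apply, j1_pt, j2_pt, i1_pt, i2_pt]
  have k2 : (mu1 hA).toCLM ((j1 hA).toCLM t) = (mu2 hA).toCLM ((j2 hA).toCLM t) := by
    refine clm_pt_ext (X := A) (Y := A) (f := (mu1 hA).toCLM.comp (j1 hA).toCLM)
      (g := (mu2 hA).toCLM.comp (j2 hA).toCLM) (fun a b => ?_) t
    rw [ContinuousLinearMap.comp_apply, ContinuousLinearMap.comp_apply, j1_pt, j2_pt, mu1_pt,
      mu2_pt]
    change (0 : ℂ) • a + a * b = (0 : ℂ) • b + a * b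
    rw [zero_smul, zero_smul]
  rw [k1, k2, add_neg_cancel, add_neg_cancel, neg_zero]
  rfl

/-- projection `A_+ → A` -/
def qP : (ℂ × A) →L[ℂ] A := ContinuousLinearMap.snd ℂ ℂ A

/-- projection `A_+ → ℂ 1` -/
def eP : (ℂ × A) →L[ℂ] (ℂ × A) :=
  (ContinuousLinearMap.inl ℂ ℂ A).comp (ContinuousLinearMap.fst ℂ ℂ A)

lemma qP_apply (c : ℂ × A) : qP c = c.2 := rfl

lemma eP_apply (c : ℂ × A) : eP c = (c.1, (0 : A)) := rfl

/-- homotopy -/
def ss (A : Type u) [NonUnitalRing A] [Module ℂ A] [UniformSpace A] [IsFre A] :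
    (ℂ × A) →L[ℂ] (PT (ℂ × A) (ℂ × A) × A) :=
  ((ContinuousLinearMap.toSpanSingleton ℂ (pt ((1 : ℂ), (0 : A)) ((1 : ℂ), (0 : A)))).comp
    (ContinuousLinearMap.fst ℂ ℂ A)).prod (ContinuousLinearMap.snd ℂ ℂ A)

lemma ss_apply (c : ℂ × A) :
    ss A c = (c.1 • pt ((1 : ℂ), (0 : A)) ((1 : ℂ), (0 : A)), c.2) := rfl

/-- homotopy -/
def hh0 (A : Type u) [NonUnitalRing A] [Module ℂ A] [UniformSpace A] [IsFre A] :
    (PT (ℂ × A) (ℂ × A) × A) →L[ℂ] (PT A (ℂ × A) × PT (ℂ × A) A) :=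
  ((ptMap qP (ContinuousLinearMap.id ℂ (ℂ × A))).prod (ptMap eP qP)).comp
    (ContinuousLinearMap.fst ℂ _ _)

lemma hh0_apply (w : PT (ℂ × A) (ℂ × A)) (a : A) :
    hh0 A (w, a) = (ptMap qP (ContinuousLinearMap.id ℂ (ℂ × A)) w, ptMap eP qP w) := rfl

/-- homotopy -/
def hh1 (A : Type u) [NonUnitalRing A] [Module ℂ A] [UniformSpace A] [IsFre A] :
    (PT A (ℂ × A) × PT (ℂ × A) A) →L[ℂ] PT A A :=
  -((ptMap qP (ContinuousLinearMap.id ℂ A)).comp (ContinuousLinearMap.snd ℂ _ _))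

lemma hh1_apply (u : PT A (ℂ × A)) (v : PT (ℂ × A) A) :
    hh1 A (u, v) = -(ptMap qP (ContinuousLinearMap.id ℂ A) v) := rfl

lemma eps_ss (hA : IsFAlg A) (c : ℂ × A) : (eps hA).toCLM (ss A c) = c := by
  rw [ss_apply, eps_apply, map_smul, muP_pt]
  refine Prod.ext ?_ ?_
  · change c.1 • ((1 : ℂ) • (1 : ℂ) + 0) + 0 = c.1
    simp
  · change c.1 • ((1 : ℂ) • (0 : A) + ((1 : ℂ) • (0 : A) + 0 * 0)) + c.2 = c.2
    simp

lemma ci1 (hA : IsFAlg A) (a : A) (c : ℂ × A) :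
    ((ptMap qP (ContinuousLinearMap.id ℂ (ℂ × A))).comp (i1 hA).toCLM :
      PT A (ℂ × A) →L[ℂ] PT A (ℂ × A)) (pt a c) = pt a c := by
  rw [ContinuousLinearMap.comp_apply, i1_pt, ptMap_pt, qP_apply, ContinuousLinearMap.id_apply]

lemma ci2 (hA : IsFAlg A) (a : A) (c : ℂ × A) :
    ((ptMap eP qP).comp (i1 hA).toCLM : PT A (ℂ × A) →L[ℂ] PT (ℂ × A) A) (pt a c) = 0 := by
  rw [ContinuousLinearMap.comp_apply, i1_pt, ptMap_pt, eP_apply]
  exact pt_isContBilin.zero_left _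

lemma ci3 (hA : IsFAlg A) (c : ℂ × A) (a : A) :
    ((ptMap qP (ContinuousLinearMap.id ℂ (ℂ × A))).comp (i2 hA).toCLM :
      PT (ℂ × A) A →L[ℂ] PT A (ℂ × A)) (pt c a) = pt c.2 ((0 : ℂ), a) := by
  rw [ContinuousLinearMap.comp_apply, i2_pt, ptMap_pt, qP_apply, ContinuousLinearMap.id_apply]

lemma ci4 (hA : IsFAlg A) (c : ℂ × A) (a : A) :
    ((ptMap eP qP).comp (i2 hA).toCLM : PT (ℂ × A) A →L[ℂ] PT (ℂ × A) A) (pt c a) =
      pt (c.1, (0 : A)) a := by
  rw [ContinuousLinearMap.comp_apply, i2_pt, ptMap_pt, eP_apply, qP_apply]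

lemma ci5 (hA : IsFAlg A) (c : ℂ × A) (a : A) :
    ((j1 hA).toCLM.comp (ptMap qP (ContinuousLinearMap.id ℂ A)) :
      PT (ℂ × A) A →L[ℂ] PT A (ℂ × A)) (pt c a) = pt c.2 ((0 : ℂ), a) := by
  rw [ContinuousLinearMap.comp_apply, ptMap_pt, j1_pt, qP_apply, ContinuousLinearMap.id_apply]

lemma ci6 (hA : IsFAlg A) (c : ℂ × A) (a : A) :
    ((j2 hA).toCLM.comp (ptMap qP (ContinuousLinearMap.id ℂ A)) :
      PT (ℂ × A) A →L[ℂ] PT (ℂ × A) A) (pt c a) = pt ((0 : ℂ), c.2) a := by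
  rw [ContinuousLinearMap.comp_apply, ptMap_pt, j2_pt, qP_apply, ContinuousLinearMap.id_apply]

lemma ci7 (hA : IsFAlg A) (a b : A) :
    ((ptMap qP (ContinuousLinearMap.id ℂ A)).comp (j2 hA).toCLM :
      PT A A →L[ℂ] PT A A) (pt a b) = pt a b := by
  rw [ContinuousLinearMap.comp_apply, j2_pt, ptMap_pt, qP_apply, ContinuousLinearMap.id_apply]

lemma ck1 (hA : IsFAlg A) (u : PT A (ℂ × A)) :
    ((ptMap qP (ContinuousLinearMap.id ℂ (ℂ × A))).comp (i1 hA).toCLM :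
      PT A (ℂ × A) →L[ℂ] PT A (ℂ × A)) u = u :=
  clm_pt_ext (g := ContinuousLinearMap.id ℂ (PT A (ℂ × A))) (fun a c => by
    rw [ci1, ContinuousLinearMap.id_apply]) u

lemma ck2 (hA : IsFAlg A) (u : PT A (ℂ × A)) :
    ((ptMap eP qP).comp (i1 hA).toCLM : PT A (ℂ × A) →L[ℂ] PT (ℂ × A) A) u = 0 :=
  clm_pt_ext (g := (0 : PT A (ℂ × A) →L[ℂ] PT (ℂ × A) A)) (fun a c => by
    rw [ci2, zero_apply]) u

lemma ck3 (hA : IsFAlg A) (v : PT (ℂ × A) A) :
    ((ptMap qP (ContinuousLinearMap.id ℂ (ℂ × A))).comp (i2 hA).toCLM :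
      PT (ℂ × A) A →L[ℂ] PT A (ℂ × A)) v =
    ((j1 hA).toCLM.comp (ptMap qP (ContinuousLinearMap.id ℂ A)) :
      PT (ℂ × A) A →L[ℂ] PT A (ℂ × A)) v :=
  clm_pt_ext (fun c a => by rw [ci3, ci5]) v

lemma one_split (c : ℂ × A) : (c.1, (0 : A)) + ((0 : ℂ), c.2) = c :=
  Prod.ext (add_zero _) (zero_add _)

lemma ck4 (hA : IsFAlg A) (v : PT (ℂ × A) A) :
    (((ptMap eP qP).comp (i2 hA).toCLM : PT (ℂ × A) A →L[ℂ] PT (ℂ × A) A) +
      ((j2 hA).toCLM.comp (ptMap qP (ContinuousLinearMap.id ℂ A)) :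
      PT (ℂ × A) A →L[ℂ] PT (ℂ × A) A)) v = v :=
  clm_pt_ext (g := ContinuousLinearMap.id ℂ (PT (ℂ × A) A)) (fun c a => by
    rw [add_apply, ci4, ci6, ContinuousLinearMap.id_apply, ← pt_isContBilin.add_left,
      one_split]) v

lemma ck7 (hA : IsFAlg A) (t : PT A A) :
    ((ptMap qP (ContinuousLinearMap.id ℂ A)).comp (j2 hA).toCLM :
      PT A A →L[ℂ] PT A A) t = t :=
  clm_pt_ext (g := ContinuousLinearMap.id ℂ (PT A A)) (fun a b => by
    rw [ci7, ContinuousLinearMap.id_apply]) t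

lemma e_one (x : ℂ) : (x, (0 : A)) = x • ((1 : ℂ), (0 : A)) := by
  refine Prod.ext ?_ ?_
  · change x = x • (1 : ℂ)
    simp
  · change (0 : A) = x • (0 : A)
    simp

lemma pt_ones (x y : ℂ) : pt (x, (0 : A)) (y, (0 : A)) =
    (x * y) • pt ((1 : ℂ), (0 : A)) ((1 : ℂ), (0 : A)) := by
  rw [e_one x, e_one y, pt_isContBilin.smul_left, pt_isContBilin.smul_right, smul_smul]

/-- the first component -/
lemma cf (hA : IsFAlg A) (w : PT (ℂ × A) (ℂ × A)) :
    (((ContinuousLinearMap.toSpanSingleton ℂ (pt ((1 : ℂ), (0 : A)) ((1 : ℂ), (0 : A)))).comp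
      ((ContinuousLinearMap.fst ℂ ℂ A).comp (muP hA).toCLM)) +
      (((i1 hA).toCLM.comp (ptMap qP (ContinuousLinearMap.id ℂ (ℂ × A))) :
        PT (ℂ × A) (ℂ × A) →L[ℂ] PT (ℂ × A) (ℂ × A)) +
      ((i2 hA).toCLM.comp (ptMap eP qP) : PT (ℂ × A) (ℂ × A) →L[ℂ] PT (ℂ × A) (ℂ × A)))) w = w :=
  clm_pt_ext (g := ContinuousLinearMap.id ℂ (PT (ℂ × A) (ℂ × A))) (fun c d => by
    rw [add_apply, add_apply, ContinuousLinearMap.comp_apply, ContinuousLinearMap.comp_apply,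
      ContinuousLinearMap.comp_apply, ContinuousLinearMap.comp_apply, muP_pt, ptMap_pt, ptMap_pt,
      i1_pt, i2_pt, ContinuousLinearMap.id_apply, ContinuousLinearMap.id_apply, qP_apply, qP_apply,
      eP_apply]
    have e0 : ContinuousLinearMap.toSpanSingleton ℂ (pt ((1 : ℂ), (0 : A)) ((1 : ℂ), (0 : A)))
        ((ContinuousLinearMap.fst ℂ ℂ A) (c.1 • d + plL hA c.2 d)) =
        (c.1 * d.1) • pt ((1 : ℂ), (0 : A)) ((1 : ℂ), (0 : A)) := by
      rw [ContinuousLinearMap.toSpanSingleton_apply]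
      congr 1
      change c.1 * d.1 + 0 = c.1 * d.1
      rw [add_zero]
    rw [e0, ← pt_ones]
    have e2 : pt (c.1, (0 : A)) (d.1, (0 : A)) + (pt ((0 : ℂ), c.2) d +
        pt (c.1, (0 : A)) ((0 : ℂ), d.2)) = pt (c.1, (0 : A)) ((d.1, (0 : A)) +
          ((0 : ℂ), d.2)) + pt ((0 : ℂ), c.2) d := by
      rw [pt_isContBilin.add_right]
      abel
    rw [e2, one_split, ← pt_isContBilin.add_left, one_split]) w

/-- the second component -/
lemma cs (hA : IsFAlg A) (w : PT (ℂ × A) (ℂ × A)) :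
    (((ContinuousLinearMap.snd ℂ ℂ A).comp (muP hA).toCLM) -
      (((mu1 hA).toCLM.comp (ptMap qP (ContinuousLinearMap.id ℂ (ℂ × A))) :
        PT (ℂ × A) (ℂ × A) →L[ℂ] A) +
      ((mu2 hA).toCLM.comp (ptMap eP qP) : PT (ℂ × A) (ℂ × A) →L[ℂ] A))) w = 0 :=
  clm_pt_ext (g := (0 : PT (ℂ × A) (ℂ × A) →L[ℂ] A)) (fun c d => by
    rw [sub_apply, add_apply, ContinuousLinearMap.comp_apply, ContinuousLinearMap.comp_apply,
      ContinuousLinearMap.comp_apply, muP_pt, ptMap_pt, ptMap_pt, mu1_pt, mu2_pt,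
      ContinuousLinearMap.id_apply, qP_apply, qP_apply, eP_apply, zero_apply]
    change (c.1 • d.2 + (d.1 • c.2 + c.2 * d.2)) -
        ((d.1 • c.2 + c.2 * d.2) + (c.1 • d.2 + 0 * d.2)) = 0
    rw [zero_mul]
    abel) w

lemma homotopy0 (hA : IsFAlg A) (x : R0 hA) :
    ss A ((eps hA).toCLM x) + (dd0 hA).toCLM (hh0 A x) = x := by
  obtain ⟨w, a⟩ := x
  refine Prod.ext ?_ ?_
  · refine Eq.trans ?_ (cf hA w)
    change ((((muP hA).toCLM w).1 + 0) • pt ((1 : ℂ), (0 : A)) ((1 : ℂ), (0 : A))) + _ =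
      (((muP hA).toCLM w).1 • pt ((1 : ℂ), (0 : A)) ((1 : ℂ), (0 : A))) + _
    rw [add_zero]
    rfl
  · have h := cs hA w
    change (((muP hA).toCLM w).2 + a) + -((mu1 hA).toCLM
      (ptMap qP (ContinuousLinearMap.id ℂ (ℂ × A)) w) + (mu2 hA).toCLM (ptMap eP qP w)) = a
    have h' : ((muP hA).toCLM w).2 - ((mu1 hA).toCLM
      (ptMap qP (ContinuousLinearMap.id ℂ (ℂ × A)) w) + (mu2 hA).toCLM (ptMap eP qP w)) = 0 := h
    rw [sub_eq_zero] at h'
    rw [h']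
    abel

lemma homotopy1 (hA : IsFAlg A) (x : R1 hA) :
    hh0 A ((dd0 hA).toCLM x) + (dd1 hA).toCLM (hh1 A x) = x := by
  obtain ⟨u, v⟩ := x
  have k1 : ptMap qP (ContinuousLinearMap.id ℂ (ℂ × A)) ((i1 hA).toCLM u) = u := ck1 hA u
  have k2 : ptMap eP qP ((i1 hA).toCLM u) = 0 := ck2 hA u
  have k3 : ptMap qP (ContinuousLinearMap.id ℂ (ℂ × A)) ((i2 hA).toCLM v) =
      (j1 hA).toCLM (ptMap qP (ContinuousLinearMap.id ℂ A) v) := ck3 hA v
  have k4 : ptMap eP qP ((i2 hA).toCLM v) +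
      (j2 hA).toCLM (ptMap qP (ContinuousLinearMap.id ℂ A) v) = v := ck4 hA v
  rw [dd0_apply, hh0_apply, hh1_apply, dd1_apply]
  rw [map_add, map_add, k1, k2, k3, map_neg, map_neg, zero_add, neg_neg]
  refine Prod.ext ?_ k4
  change u + (j1 hA).toCLM (ptMap qP (ContinuousLinearMap.id ℂ A) v) +
      -(j1 hA).toCLM (ptMap qP (ContinuousLinearMap.id ℂ A) v) = u
  rw [add_neg_cancel_right]

lemma homotopy2 (hA : IsFAlg A) (t : R2 hA) : hh1 A ((dd1 hA).toCLM t) = t := by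
  have k : ptMap qP (ContinuousLinearMap.id ℂ A) ((j2 hA).toCLM t) = t := ck7 hA t
  rw [dd1_apply, hh1_apply, map_neg, neg_neg]
  exact k

/-! ### flatness of the terms -/

section Flat

variable (hA : IsFAlg A) (hflat : FlatBi A (regB hA))

include hflat in
lemma regL_flat : FlatLeft A (regL hA) := flatLeft_of_flatBi hA (regB_isBimod hA) hflat

include hflat in
lemma regR_flat : FlatRight A (regR hA) := flatRight_of_flatBi hA (regB_isBimod hA) hflat

lemma R0_isBimod : IsBimod A (R0 hA) :=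
  dsum_isBimod (outer_isBimod (plusL_isLeft hA) (plusR_isRight hA)) (regB_isBimod hA)

lemma R1_isBimod : IsBimod A (R1 hA) :=
  dsum_isBimod (outer_isBimod (regL_isLeft hA) (plusR_isRight hA))
    (outer_isBimod (plusL_isLeft hA) (regR_isRight hA))

lemma R2_isBimod : IsBimod A (R2 hA) := outer_isBimod (regL_isLeft hA) (regR_isRight hA)

include hflat in
lemma R0_flat : FlatBi A (R0 hA) :=
  dsum_flat (flat_outer hA (plusR_isRight hA) (plusL_flat hA) (plusR_flat hA)) hflat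

include hflat in
lemma R1_flat : FlatBi A (R1 hA) :=
  dsum_flat (flat_outer hA (plusR_isRight hA) (regL_flat hA hflat) (plusR_flat hA))
    (flat_outer hA (regR_isRight hA) (plusL_flat hA) (regR_flat hA hflat))

include hflat in
lemma R2_flat : FlatBi A (R2 hA) :=
  flat_outer hA (regR_isRight hA) (regL_flat hA hflat) (regR_flat hA hflat)

end Flat

end

end Pool.Agent.Q19.Fre
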