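import Mathlib
import Pool.Agent.Q19.Fre.Res
import Pool.Agent.Q19.FreS.Stmt2

/-!
The weak bidimension of a biflat Fréchet algebra is at most two.
-/

set_option autoImplicit false

namespace Pool.Agent.Q19.Fre

open Pool.Agent.Helper5 Filter Topology
open Pool.Agent.Q19.FreS

universe u v w

noncomputable section

variable {A : Type u} [NonUnitalRing A] [Module ℂ A] [UniformSpace A] [IsFre A]

lemma flatB_ofF {Z : FMod.{u, u} (A ⊕ A)} (h : FlatBi A Z) : FlatB A (ofF Z) :=
  flatB_of (Z := Z) (Z' := ofF Z) (FHom.id Z) (FHom.id Z) (fun _ => rfl) (fun _ => rfl) h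

lemma regB_flat (hA : IsFreAlg A) (h : FlatB A (regular hA)) : FlatBi A (regB hA) := by
  have h1 : FlatBi A (toF (regular hA)) := flatBi_to h
  have h2 : FlatB A (ofF (regB hA)) :=
    flatB_of (Z := toF (regular hA)) (Z' := ofF (regB hA))
      ⟨ContinuousLinearMap.id ℂ A, by
        rintro (b | b) m
        · rfl
        · rfl⟩
      ⟨ContinuousLinearMap.id ℂ A, by
        rintro (b | b) m
        · rfl
        · rfl⟩
      (fun _ => rfl) (fun _ => rfl) h1
  exact flatBi_to h2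

/-- the terms of the resolution -/
def resP (hA : IsFreAlg A) : ℕ → FMod.{u, u} (A ⊕ A)
  | 0 => R0 hA
  | 1 => R1 hA
  | 2 => R2 hA
  | (_ + 3) => zeroB A

/-- the differentials -/
def resD (hA : IsFreAlg A) : ∀ n, FHom (resP hA (n + 1)) (resP hA n)
  | 0 => dd0 hA
  | 1 => dd1 hA
  | 2 => ⟨0, fun _ _ => by
      change (0 : R2 hA) = (R2 hA).op _ 0
      rw [map_zero]⟩
  | (_ + 3) => ⟨0, fun _ _ => rfl⟩

/-- the homotopy -/
def resH (hA : IsFreAlg A) : ∀ n, (resP hA n) →L[ℂ] (resP hA (n + 1))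
  | 0 => hh0 A
  | 1 => hh1 A
  | 2 => 0
  | (_ + 3) => 0

lemma resP_isBimod (hA : IsFreAlg A) : ∀ n, IsBimod A (resP hA n)
  | 0 => R0_isBimod hA
  | 1 => R1_isBimod hA
  | 2 => R2_isBimod hA
  | (_ + 3) => zeroB_isBimod

lemma resP_flat (hA : IsFreAlg A) (h : FlatBi A (regB hA)) : ∀ n, FlatBi A (resP hA n)
  | 0 => R0_flat hA h
  | 1 => R1_flat hA h
  | 2 => R2_flat hA h
  | (_ + 3) => zeroB_flat

lemma res_dd (hA : IsFreAlg A) : ∀ n (x : resP hA (n + 2)),
    (resD hA n).toCLM ((resD hA (n + 1)).toCLM x) = 0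
  | 0 => dd0_dd1 hA
  | 1 => fun x => by
      change (dd1 hA).toCLM 0 = 0
      rw [map_zero]
  | 2 => fun _ => rfl
  | (_ + 3) => fun _ => rfl

lemma res_hd (hA : IsFreAlg A) : ∀ n (x : resP hA (n + 1)),
    resH hA n ((resD hA n).toCLM x) + (resD hA (n + 1)).toCLM (resH hA (n + 1) x) = x
  | 0 => homotopy1 hA
  | 1 => fun x => by
      change hh1 A ((dd1 hA).toCLM x) + 0 = x
      rw [add_zero]
      exact homotopy2 hA x
  | 2 => fun x => (zeroB_eq _).trans (zeroB_eq x).symm
  | (_ + 3) => fun x => (zeroB_eq _).trans (zeroB_eq x).symm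

/-- the resolution -/
def theRes (hA : IsFreAlg A) (h : FlatBi A (regB hA)) : FlatResolution A (unitization hA) where
  P n := ofF (resP hA n)
  isBi n := isBi_of (resP_isBimod hA n)
  flat n := flatB_ofF (resP_flat hA h n)
  d n := fun x => (resD hA n).toCLM x
  d_mor n := isMor_of (resD hA n)
  aug := fun x => (eps hA).toCLM x
  aug_mor := ⟨isContLin_clm (eps hA).toCLM, by
    rintro (b | b) m
    · exact (eps hA).comm (Sum.inl b) m
    · exact (eps hA).comm (Sum.inr b) m⟩
  d_d n x := res_dd hA n x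
  aug_d x := eps_dd0 hA x
  s := fun x => ss A x
  s_lin := isContLin_clm (ss A)
  h n := fun x => resH hA n x
  h_lin n := isContLin_clm (resH hA n)
  aug_s x := eps_ss hA x
  s_aug x := homotopy0 hA x
  h_d n x := res_hd hA n x

theorem wdb_le_two (hA : IsFreAlg A) (h : FlatB A (regular hA)) : wdb hA ≤ 2 := by
  have hr := regB_flat hA h
  unfold wdb wdh
  refine (iInf_le _ (theRes hA hr)).trans ?_
  unfold FlatResolution.length
  apply sInf_le
  intro i hi x
  have hi2 : 2 < i := by exact_mod_cast hi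
  obtain ⟨k, rfl⟩ : ∃ k, i = k + 3 := ⟨i - 3, by omega⟩
  exact zeroB_eq x

end

end Pool.Agent.Q19.Fre
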